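import Mathlib

/-!
# Definitions used in the final statement

Tracial states, the seminorms `‖x‖_{2,τ}`, amenability of a discrete group (Folner's condition),
uniform property Gamma and equivariant uniform property Gamma.
-/

open scoped ComplexOrder

namespace Pool.Agent.Lib.EqGamma

/-- tracial states of a unital C-star algebra -/
structure TracialState {A : Type*} [CStarAlgebra A] (τ : A →ₗ[ℂ] ℂ) : Prop where
  map_one : τ 1 = 1
  nonneg : ∀ x, 0 ≤ τ (star x * x)
  tracial : ∀ x y, τ (x * y) = τ (y * x)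

/-- the seminorm `‖x‖_{2,τ} = τ(x* x)^{1/2}` -/
noncomputable def norm2 {A : Type*} [CStarAlgebra A] (τ : A →ₗ[ℂ] ℂ) (x : A) : ℝ :=
  √(τ (star x * x)).re

/-- Folner's condition, one of the equivalent definitions of amenability of a discrete group: for
every finite `H ⊆ G` and `ε > 0` there is a nonempty finite `K ⊆ G` with `|hK Δ K| ≤ ε |K|` for all
`h ∈ H`. -/
def AmenableGroup (G : Type*) [Group G] : Prop :=
  open Classical in
  ∀ (H : Finset G) (ε : ℝ), 0 < ε → ∃ K : Finset G, K.Nonempty ∧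
    ∀ h ∈ H, ((symmDiff (K.image fun g => h * g) K).card : ℝ) ≤ ε * K.card

/-- Uniform property Gamma (local form): for every `n ≥ 1`, every finite `F ⊆ A` and `ε > 0` there
are pairwise orthogonal positive contractions `p 0, …, p (n-1)` in `A` such that
`‖p i a - a p i‖_{2,τ} < ε` and `|τ(a p i) - τ(a)/n| < ε` for all `a ∈ F`, all `i` and all tracial
states `τ`. -/
def UniformGamma (A : Type*) [CStarAlgebra A] [PartialOrder A] [StarOrderedRing A] : Prop :=
  ∀ n : ℕ, 0 < n → ∀ (F : Finset A) (ε : ℝ), 0 < ε → ∃ p : Fin n → A,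
    (∀ i, 0 ≤ p i ∧ ‖p i‖ ≤ 1) ∧ (∀ i j, i ≠ j → p i * p j = 0) ∧
    ∀ τ : A →ₗ[ℂ] ℂ, TracialState τ → ∀ i, ∀ a ∈ F,
      norm2 τ (p i * a - a * p i) < ε ∧ ‖τ (a * p i) - τ a / n‖ < ε

/-- Equivariant uniform property Gamma (local form): the `p i` in uniform property Gamma can be
chosen with in addition `‖α_h(p i) - p i‖_{2,τ} < ε` for all `h` in a given finite `H ⊆ G` and all
tracial states `τ`. -/
def EquivUniformGamma {G : Type*} [Group G] {A : Type*} [CStarAlgebra A] [PartialOrder A]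
    [StarOrderedRing A] (α : G →* (A ≃⋆ₐ[ℂ] A)) : Prop :=
  ∀ n : ℕ, 0 < n → ∀ (H : Finset G) (F : Finset A) (ε : ℝ), 0 < ε → ∃ p : Fin n → A,
    (∀ i, 0 ≤ p i ∧ ‖p i‖ ≤ 1) ∧ (∀ i j, i ≠ j → p i * p j = 0) ∧
    ∀ τ : A →ₗ[ℂ] ℂ, TracialState τ → ∀ i, (∀ h ∈ H, norm2 τ (α h (p i) - p i) < ε) ∧
      ∀ a ∈ F, norm2 τ (p i * a - a * p i) < ε ∧ ‖τ (a * p i) - τ a / n‖ < ε

end Pool.Agent.Lib.EqGamma
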