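import Pool.Agent.Lib.EqGamma.GLim

/-!
Ultralimit traces and iterated ultrafilters.
-/

open scoped ComplexOrder BoundedContinuousFunction
open Filter Topology

namespace Pool.Agent.Lib.EqGamma

section Tlim

variable {J A : Type*} [CStarAlgebra A] (V : Ultrafilter J) (τ : J → A →ₗ[ℂ] ℂ)
  (hτ : ∀ j, TracialState (τ j))

/-- the limit along an ultrafilter -/
noncomputable def ulim (f : J → ℂ) : ℂ := limUnder (V : Filter J) f

variable {V} in
theorem tendsto_ulim {f : J → ℂ} {C : ℝ} (hf : ∀ j, ‖f j‖ ≤ C) :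
    Tendsto f (V : Filter J) (𝓝 (ulim V f)) := by
  apply tendsto_nhds_limUnder
  have hK : IsCompact (Metric.closedBall (0 : ℂ) C) := isCompact_closedBall 0 C
  have h1 : (V.map f : Filter ℂ) ≤ 𝓟 (Metric.closedBall (0 : ℂ) C) := by
    rw [Ultrafilter.coe_map, le_principal_iff, mem_map]
    exact Eventually.of_forall fun j => by simpa using hf j
  obtain ⟨x, -, hx⟩ := hK.ultrafilter_le_nhds _ h1
  exact ⟨x, hx⟩

include hτ in
theorem tendsto_T (x : BF J A) :
    Tendsto (fun j => τ j (BF.ev j x)) (V : Filter J) (𝓝 (ulim V fun j => τ j (BF.ev j x))) :=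
  tendsto_ulim (C := ‖x‖) fun j => ((hτ j).norm_le _).trans (BF.norm_ev_le x j)

/-- the ultralimit trace -/
noncomputable def Tlim : BF J A →ₗ[ℂ] ℂ where
  toFun x := ulim V fun j => τ j (BF.ev j x)
  map_add' x y := by
    refine tendsto_nhds_unique (tendsto_T V τ hτ (x + y)) ?_
    refine ((tendsto_T V τ hτ x).add (tendsto_T V τ hτ y)).congr fun j => ?_
    rw [map_add, map_add]
  map_smul' c x := by
    refine tendsto_nhds_unique (tendsto_T V τ hτ (c • x)) ?_
    refine ((tendsto_T V τ hτ x).const_smul c).congr fun j => ?_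
    rw [map_smul, map_smul]

theorem tendsto_Tlim (x : BF J A) :
    Tendsto (fun j => τ j (BF.ev j x)) (V : Filter J) (𝓝 (Tlim V τ hτ x)) := tendsto_T V τ hτ x

theorem Tlim_tracialState : TracialState (Tlim V τ hτ) where
  map_one := by
    refine tendsto_nhds_unique (tendsto_Tlim V τ hτ 1) ?_
    refine tendsto_const_nhds.congr fun j => ?_
    rw [map_one, (hτ j).map_one]
  nonneg x := by
    refine ge_of_tendsto' (tendsto_Tlim V τ hτ (star x * x)) fun j => ?_
    rw [map_mul, map_star]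
    exact (hτ j).nonneg _
  tracial x y := by
    refine tendsto_nhds_unique (tendsto_Tlim V τ hτ (x * y)) ?_
    refine (tendsto_Tlim V τ hτ (y * x)).congr fun j => ?_
    rw [map_mul (BF.ev j), map_mul (BF.ev j), (hτ j).tracial]

theorem Tlim_re_le {x : BF J A} {c : ℝ} (h : ∀ᶠ j in (V : Filter J), reT (τ j) (BF.ev j x) ≤ c) :
    reT (Tlim V τ hτ) x ≤ c := by
  have h1 := (Complex.continuous_re.tendsto _).comp (tendsto_Tlim V τ hτ x)
  exact le_of_tendsto h1 h

theorem Tlim_norm_le {x : BF J A} {c : ℝ} (h : ∀ᶠ j in (V : Filter J), ‖τ j (BF.ev j x)‖ ≤ c) :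
    ‖Tlim V τ hτ x‖ ≤ c :=
  le_of_tendsto (tendsto_Tlim V τ hτ x).norm h

theorem Nul.Tlim_eq {x : BF J A} (hx : Nul (V : Filter J) x) :
    Tlim V τ hτ (Star.star x * x) = 0 := by
  have h0 := (Tlim_tracialState V τ hτ).nonneg x
  have h1 : reT (Tlim V τ hτ) (Star.star x * x) ≤ 0 := by
    refine le_of_forall_pos_le_add fun ε hε => ?_
    rw [zero_add]
    apply Tlim_re_le
    filter_upwards [hx ε hε] with j hj
    rw [map_mul (BF.ev j), map_star (BF.ev j)]
    exact hj _ (hτ j)
  obtain ⟨h2, h3⟩ := Complex.nonneg_iff.1 h0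
  rw [reT_apply] at h1
  exact Complex.ext (le_antisymm h1 h2) h3.symm

theorem Nul.Tlim_zero {x : BF J A} (hx : Nul (V : Filter J) x) : Tlim V τ hτ x = 0 := by
  have h1 := (Tlim_tracialState V τ hτ).sq_norm_le x
  rw [reT_apply, hx.Tlim_eq V τ hτ, Complex.zero_re] at h1
  have h2 : ‖Tlim V τ hτ x‖ = 0 := by nlinarith [norm_nonneg (Tlim V τ hτ x)]
  exact norm_eq_zero.1 h2

end Tlim

section product

variable {I : Type*} (U : Ultrafilter I)

/-- prepend a coordinate -/
def cn {m : ℕ} (i : I) (ν : Fin m → I) : Fin (m + 1) → I := Fin.cons i ν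

@[simp] theorem cn_zero {m : ℕ} (i : I) (ν : Fin m → I) : cn i ν 0 = i := rfl
@[simp] theorem cn_succ {m : ℕ} (i : I) (ν : Fin m → I) (l : Fin m) : cn i ν l.succ = ν l := rfl

/-- iterated product of an ultrafilter -/
noncomputable def UP : (m : ℕ) → Ultrafilter (Fin m → I)
  | 0 => pure Fin.elim0
  | m + 1 => U.bind fun i => (UP m).map (cn i)

theorem eventually_UP_succ {m : ℕ} {P : (Fin (m + 1) → I) → Prop} :
    (∀ᶠ ν in (UP U (m + 1) : Filter (Fin (m + 1) → I)), P ν) ↔
      ∀ᶠ i in (U : Filter I), ∀ᶠ ν in (UP U m : Filter (Fin m → I)), P (cn i ν) := by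
  change (∀ᶠ ν in Filter.bind (U : Filter I) fun i => (((UP U m).map (cn i) :
    Ultrafilter _) : Filter _), P ν) ↔ _
  rw [Filter.eventually_bind]
  rfl

theorem eventually_marginal {P : I → Prop} (hP : ∀ᶠ i in (U : Filter I), P i) :
    ∀ {m : ℕ} (l : Fin m), ∀ᶠ ν in (UP U m : Filter (Fin m → I)), P (ν l) := by
  intro m
  induction m with
  | zero => intro l; exact l.elim0
  | succ m ih =>
    intro l
    rw [eventually_UP_succ]
    refine Fin.cases ?_ (fun l' => ?_) l
    · filter_upwards [hP] with i hi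
      exact Eventually.of_forall fun ν => hi
    · exact Eventually.of_forall fun i => ih l'

theorem eventually_pair {P : I → I → Prop} (hP : ∀ i, ∀ᶠ i' in (U : Filter I), P i i') :
    ∀ {m : ℕ} (l k : Fin m), l < k → ∀ᶠ ν in (UP U m : Filter (Fin m → I)), P (ν l) (ν k) := by
  intro m
  induction m with
  | zero => intro l; exact l.elim0
  | succ m ih =>
    intro l k
    refine Fin.cases ?_ (fun l' => ?_) l
    · refine Fin.cases ?_ (fun k' => ?_) k
      · intro h; exact absurd h (lt_irrefl _)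
      · intro _
        rw [eventually_UP_succ]
        exact Eventually.of_forall fun i => eventually_marginal U (hP i) k'
    · refine Fin.cases ?_ (fun k' => ?_) k
      · intro h; exact absurd h (by simp)
      · intro h
        rw [eventually_UP_succ]
        exact Eventually.of_forall fun i => ih l' k' (by simpa using h)

variable {A : Type*} [CStarAlgebra A]

/-- Fubini for iterated ultralimits -/
theorem tendsto_Tlim_succ {m : ℕ} (τ : (Fin (m + 1) → I) → A →ₗ[ℂ] ℂ)
    (hτ : ∀ ν, TracialState (τ ν)) (x : BF (Fin (m + 1) → I) A) :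
    Tendsto (fun i => Tlim (UP U m) (fun ν => τ (cn i ν)) (fun ν => hτ (cn i ν))
      (BF.comp (cn i) x)) (U : Filter I) (𝓝 (Tlim (UP U (m + 1)) τ hτ x)) := by
  rw [Metric.tendsto_nhds]
  intro ε hε
  have h1 := (Metric.tendsto_nhds.1 (tendsto_Tlim (UP U (m + 1)) τ hτ x)) (ε / 2) (by positivity)
  rw [eventually_UP_succ] at h1
  filter_upwards [h1] with i hi
  have h2 := tendsto_Tlim (UP U m) (fun ν => τ (cn i ν)) (fun ν => hτ (cn i ν)) (BF.comp (cn i) x)
  have h3 : dist (Tlim (UP U m) (fun ν => τ (cn i ν)) (fun ν => hτ (cn i ν))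
      (BF.comp (cn i) x)) (Tlim (UP U (m + 1)) τ hτ x) ≤ ε / 2 := by
    refine le_of_tendsto (h2.dist tendsto_const_nhds) ?_
    filter_upwards [hi] with ν hν
    rw [BF.ev_comp]
    exact hν.le
  linarith

theorem Tlim_succ_congr {m : ℕ} {τ : (Fin (m + 1) → I) → A →ₗ[ℂ] ℂ}
    (hτ : ∀ ν, TracialState (τ ν)) {x y : BF (Fin (m + 1) → I) A} {c : ℂ}
    (h : ∀ i, Tlim (UP U m) (fun ν => τ (cn i ν)) (fun ν => hτ (cn i ν)) (BF.comp (cn i) x) =
      c * Tlim (UP U m) (fun ν => τ (cn i ν)) (fun ν => hτ (cn i ν)) (BF.comp (cn i) y)) :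
    Tlim (UP U (m + 1)) τ hτ x = c * Tlim (UP U (m + 1)) τ hτ y := by
  refine tendsto_nhds_unique (tendsto_Tlim_succ U τ hτ x) ?_
  refine ((tendsto_Tlim_succ U τ hτ y).const_mul c).congr fun i => ?_
  exact (h i).symm

end product

end Pool.Agent.Lib.EqGamma
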