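import Pool.Agent.Lib.EqGamma.GTr
import Pool.Agent.Lib.EqGamma.Defs

/-!
Bounded families, null families and central families along an ultrafilter.
-/

open scoped ComplexOrder BoundedContinuousFunction
open Filter Topology

namespace Pool.Agent.Lib.EqGamma

section tr

variable {A : Type*} [CStarAlgebra A]

/-- real part of a complex functional -/
noncomputable def reT (τ : A →ₗ[ℂ] ℂ) : A →ₗ[ℝ] ℝ where
  toFun x := (τ x).re
  map_add' x y := by rw [map_add, Complex.add_re]
  map_smul' c x := by
    rw [← Complex.coe_smul, map_smul, smul_eq_mul, Complex.re_ofReal_mul]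
    rfl

theorem reT_apply (τ : A →ₗ[ℂ] ℂ) (x : A) : reT τ x = (τ x).re := rfl

theorem TracialState.map_star {τ : A →ₗ[ℂ] ℂ} (h : TracialState τ) (x : A) :
    τ (star x) = star (τ x) := by
  have real : ∀ y : A, (τ (star y * y)).im = 0 := fun y => ((Complex.nonneg_iff.1 (h.nonneg y)).2).symm
  have h1 := real (1 + x)
  have h2 := real (1 + Complex.I • x)
  have e1 : star (1 + x) * (1 + x) = 1 + x + star x + star x * x := by
    rw [star_add, star_one]; noncomm_ring
  have e2 : star (1 + Complex.I • x) * (1 + Complex.I • x) =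
      1 + Complex.I • x - Complex.I • star x + star x * x := by
    rw [star_add, star_one, star_smul]
    simp only [add_mul, mul_add, one_mul, mul_one, smul_mul_assoc, mul_smul_comm, smul_smul]
    have h3 : Complex.I * star Complex.I = 1 := by
      rw [Complex.star_def, Complex.conj_I, mul_neg, Complex.I_mul_I, neg_neg]
    have h3' : star Complex.I * Complex.I = 1 := by rw [mul_comm, h3]
    have h4 : star Complex.I • star x = -(Complex.I • star x) := by
      rw [← neg_smul]; congr 1; rw [Complex.star_def, Complex.conj_I]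
    rw [h4, smul_add, smul_smul, h3, one_smul]
    abel
  rw [e1] at h1
  rw [e2] at h2
  simp only [map_add, map_sub, map_smul, Complex.add_im, Complex.sub_im, h.map_one,
    Complex.one_im, real x, smul_eq_mul, Complex.mul_im, Complex.I_re, Complex.I_im] at h1 h2
  apply Complex.ext
  · rw [Complex.star_def, Complex.conj_re]; linarith
  · rw [Complex.star_def, Complex.conj_im]; linarith

theorem TracialState.rtr {τ : A →ₗ[ℂ] ℂ} (h : TracialState τ) : RTr (reT τ) where
  nonneg' x := (Complex.nonneg_iff.1 (h.nonneg x)).1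
  tracial x y := by rw [reT_apply, reT_apply, h.tracial]
  map_star x := by rw [reT_apply, reT_apply, h.map_star, Complex.star_def, Complex.conj_re]

theorem TracialState.sq_norm_le {τ : A →ₗ[ℂ] ℂ} (h : TracialState τ) (x : A) :
    ‖τ x‖ ^ 2 ≤ reT τ (star x * x) := by
  -- rotate to the real part
  obtain ⟨c, hc, hcx⟩ : ∃ c : ℂ, ‖c‖ = 1 ∧ c * τ x = ‖τ x‖ := by
    by_cases h0 : τ x = 0
    · exact ⟨1, by simp, by simp [h0]⟩
    · refine ⟨star (τ x) / ‖τ x‖, ?_, ?_⟩
      · rw [norm_div, norm_star, Complex.norm_real, norm_norm, div_self (norm_ne_zero_iff.2 h0)]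
      · rw [div_mul_eq_mul_div, Complex.star_def, mul_comm, Complex.mul_conj,
          Complex.normSq_eq_norm_sq]
        push_cast
        have : ((‖τ x‖ : ℝ) : ℂ) ≠ 0 := by exact_mod_cast norm_ne_zero_iff.2 h0
        field_simp
  have h1 : (‖τ x‖ : ℝ) = reT τ (c • x) := by
    rw [reT_apply, map_smul, smul_eq_mul, hcx, Complex.ofReal_re]
  have h2 := h.rtr.cs 1 (c • x)
  have e1 : reT τ (star (1 : A) * 1) = 1 := by
    rw [star_one, one_mul, reT_apply, h.map_one, Complex.one_re]
  rw [e1, one_mul, star_one, one_mul] at h2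
  rw [h1]
  refine h2.trans (le_of_eq ?_)
  congr 1
  rw [star_smul, smul_mul_smul_comm]
  have : star c * c = 1 := by
    rw [Complex.star_def, mul_comm, Complex.mul_conj, Complex.normSq_eq_norm_sq, hc]
    simp
  rw [this, one_smul]

theorem TracialState.norm_le {τ : A →ₗ[ℂ] ℂ} (h : TracialState τ) (x : A) : ‖τ x‖ ≤ ‖x‖ := by
  let _ := CStarAlgebra.spectralOrder A
  have := CStarAlgebra.spectralOrderedRing A
  have h3 : reT τ (star x * x) ≤ ‖x‖ ^ 2 := by
    have := h.rtr.mono (CStarAlgebra.star_mul_le_algebraMap_norm_sq (a := x))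
    rw [RTr.algebraMap_apply, reT_apply τ 1, h.map_one, Complex.one_re, mul_one] at this
    exact this
  exact abs_le_of_sq_le_sq' ((h.sq_norm_le x).trans h3) (norm_nonneg x) |>.2

end tr

/-- a type with discrete topology -/
def Disc (J : Type*) := J

instance (J : Type*) : TopologicalSpace (Disc J) := ⊥
instance (J : Type*) : DiscreteTopology (Disc J) := ⟨rfl⟩

/-- bounded families -/
def BF (J A : Type*) [CStarAlgebra A] := Disc J →ᵇ A

noncomputable instance (J A : Type*) [CStarAlgebra A] : CStarAlgebra (BF J A) :=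
  inferInstanceAs (CStarAlgebra (Disc J →ᵇ A))

namespace BF

variable {J J' A : Type*} [CStarAlgebra A]

/-- constructor -/
noncomputable def mk (f : J → A) (C : ℝ) (h : ∀ j, ‖f j‖ ≤ C) : BF J A :=
  BoundedContinuousFunction.ofNormedAddCommGroupDiscrete (α := Disc J) f C h

/-- evaluation -/
noncomputable def ev (j : J) : BF J A →⋆ₐ[ℂ] A where
  toFun x := (show Disc J →ᵇ A from x) (j : Disc J)
  map_one' := rfl
  map_mul' _ _ := rfl
  map_zero' := rfl
  map_add' _ _ := rfl
  commutes' _ := rfl
  map_star' _ := rfl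

theorem ext {x y : BF J A} (h : ∀ j, ev j x = ev j y) : x = y :=
  BoundedContinuousFunction.ext h

@[simp] theorem ev_mk (f : J → A) (C : ℝ) (h : ∀ j, ‖f j‖ ≤ C) (j : J) : ev j (mk f C h) = f j :=
  rfl

theorem norm_ev_le (x : BF J A) (j : J) : ‖ev j x‖ ≤ ‖x‖ :=
  BoundedContinuousFunction.norm_coe_le_norm x (j : Disc J)

/-- constants -/
noncomputable def cst (a : A) : BF J A := mk (fun _ => a) ‖a‖ (fun _ => le_rfl)

@[simp] theorem ev_cst (a : A) (j : J) : ev j (cst a : BF J A) = a := rfl

theorem cst_add (a b : A) : (cst (a + b) : BF J A) = cst a + cst b := ext fun _ => by simp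
theorem cst_mul (a b : A) : (cst (a * b) : BF J A) = cst a * cst b := ext fun _ => by simp
theorem cst_star (a : A) : (cst (star a) : BF J A) = star (cst a) := ext fun _ => by
  rw [map_star, ev_cst, ev_cst]
theorem cst_smul (c : ℂ) (a : A) : (cst (c • a) : BF J A) = c • cst a := ext fun _ => by simp
theorem cst_one : (cst (1 : A) : BF J A) = 1 := ext fun _ => by simp

/-- constants as a hom -/
noncomputable def cstHom (J A : Type*) [CStarAlgebra A] : A →⋆ₐ[ℂ] BF J A where
  toFun := cst
  map_one' := cst_one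
  map_mul' := cst_mul
  map_zero' := ext fun _ => by simp
  map_add' := cst_add
  commutes' r := ext fun _ => by
    rw [ev_cst]
    exact (AlgHomClass.commutes (ev _) r).symm
  map_star' := cst_star

/-- composition with a map of index sets -/
noncomputable def comp (φ : J' → J) : BF J A →⋆ₐ[ℂ] BF J' A where
  toFun x := mk (fun j => ev (φ j) x) ‖x‖ (fun j => norm_ev_le x (φ j))
  map_one' := rfl
  map_mul' _ _ := rfl
  map_zero' := rfl
  map_add' _ _ := rfl
  commutes' _ := rfl
  map_star' _ := rfl

@[simp] theorem ev_comp (φ : J' → J) (x : BF J A) (j : J') : ev j (comp φ x) = ev (φ j) x := rfl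

theorem comp_cst (φ : J' → J) (a : A) : comp φ (cst a : BF J A) = cst a := rfl

end BF

section null

variable {J A : Type*} [CStarAlgebra A]

/-- families which are null uniformly over all tracial states -/
def Nul (l : Filter J) (x : BF J A) : Prop :=
  ∀ ε : ℝ, 0 < ε → ∀ᶠ j in l, ∀ τ : A →ₗ[ℂ] ℂ, TracialState τ →
    reT τ (star (BF.ev j x) * BF.ev j x) ≤ ε

variable {l : Filter J}

theorem Nul.zero : Nul l (0 : BF J A) := by
  intro ε hε
  refine Eventually.of_forall fun j τ _ => ?_
  rw [map_zero, mul_zero, map_zero]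
  exact hε.le

theorem Nul.add {x y : BF J A} (hx : Nul l x) (hy : Nul l y) : Nul l (x + y) := by
  intro ε hε
  filter_upwards [hx (ε / 4) (by positivity), hy (ε / 4) (by positivity)] with j h1 h2 τ hτ
  rw [map_add]
  have := hτ.rtr.sq_add_le (BF.ev j x) (BF.ev j y)
  have h3 := h1 τ hτ
  have h4 := h2 τ hτ
  linarith

theorem Nul.mul_left {x : BF J A} (hx : Nul l x) (y : BF J A) : Nul l (y * x) := by
  let _ := CStarAlgebra.spectralOrder A
  have := CStarAlgebra.spectralOrderedRing A
  intro ε hε
  filter_upwards [hx (ε / (‖y‖ ^ 2 + 1)) (by positivity)] with j h1 τ hτ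
  rw [map_mul (BF.ev j) y x]
  refine (hτ.rtr.sq_mul_le _ _).trans ?_
  have h3 := h1 τ hτ
  have h4 : ‖BF.ev j y‖ ^ 2 ≤ ‖y‖ ^ 2 :=
    pow_le_pow_left₀ (norm_nonneg _) (BF.norm_ev_le y j) 2
  calc ‖BF.ev j y‖ ^ 2 * reT τ (star (BF.ev j x) * BF.ev j x)
      ≤ (‖y‖ ^ 2 + 1) * (ε / (‖y‖ ^ 2 + 1)) :=
        mul_le_mul (by linarith) h3 (hτ.rtr.nonneg' _) (by positivity)
    _ = ε := by field_simp

theorem Nul.star {x : BF J A} (hx : Nul l x) : Nul l (star x) := by
  intro ε hε
  filter_upwards [hx ε hε] with j h1 τ hτ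
  rw [map_star, star_star, hτ.rtr.tracial]
  exact h1 τ hτ

theorem Nul.mul_right {x : BF J A} (hx : Nul l x) (y : BF J A) : Nul l (x * y) := by
  have := (hx.star.mul_left (Star.star y)).star
  rwa [star_mul, star_star, star_star] at this

theorem Nul.smul {x : BF J A} (hx : Nul l x) (c : ℂ) : Nul l (c • x) := by
  have := hx.mul_left (c • 1)
  rwa [smul_mul_assoc, one_mul] at this

theorem Nul.neg {x : BF J A} (hx : Nul l x) : Nul l (-x) := by
  have := hx.smul (-1)
  rwa [neg_smul, one_smul] at this

theorem Nul.sub {x y : BF J A} (hx : Nul l x) (hy : Nul l y) : Nul l (x - y) := by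
  rw [sub_eq_add_neg]
  exact hx.add hy.neg

/-- the submodule of null families -/
def nulSub (l : Filter J) (A : Type*) [CStarAlgebra A] : Submodule ℂ (BF J A) where
  carrier := {x | Nul l x}
  add_mem' := Nul.add
  zero_mem' := Nul.zero
  smul_mem' c _ hx := hx.smul c

/-- centrality -/
def Cen (l : Filter J) (y : BF J A) : Prop := ∀ a : A, Nul l (BF.cst a * y - y * BF.cst a)

theorem Cen.mul {x y : BF J A} (hx : Cen l x) (hy : Cen l y) : Cen l (x * y) := by
  intro a
  have := ((hx a).mul_right y).add ((hy a).mul_left x)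
  convert this using 1
  noncomm_ring

theorem Cen.add {x y : BF J A} (hx : Cen l x) (hy : Cen l y) : Cen l (x + y) := by
  intro a
  have := (hx a).add (hy a)
  convert this using 1
  noncomm_ring

theorem Cen.one : Cen l (1 : BF J A) := by
  intro a
  rw [mul_one, one_mul, sub_self]
  exact Nul.zero

theorem Cen.smul {x : BF J A} (hx : Cen l x) (c : ℂ) : Cen l (c • x) := by
  intro a
  have := (hx a).smul c
  rwa [smul_sub, ← mul_smul_comm, ← smul_mul_assoc] at this

theorem Cen.star {x : BF J A} (hx : Cen l x) : Cen l (star x) := by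
  intro a
  have := ((hx (Star.star a)).star).neg
  convert this using 1
  rw [star_sub, star_mul, star_mul, BF.cst_star, star_star]
  abel

end null

end Pool.Agent.Lib.EqGamma
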