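import Pool.Agent.Lib.EqGamma.GFin

/-!
Stage two: orthogonal families.
-/

open scoped ComplexOrder BoundedContinuousFunction
open Filter Topology

namespace Pool.Agent.Lib.EqGamma

universe u v

section means

variable {M : Type*} [CStarAlgebra M] {T : M →ₗ[ℝ] ℝ} {A : StarSubalgebra ℂ M} {P : ℕ → M}
  {t : ℕ → ℝ} {n : ℕ}

/-- mean of the complement products -/
theorem T_cc (hind : ∀ j, j < n → ∀ x ∈ StarAlgebra.adjoin ℂ
      ((A : Set M) ∪ {y | ∃ l, l < n ∧ l ≠ j ∧ y = P l}), T (x * P j) = t j * T x)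
    {y : M} (hy : y ∈ A) (j : ℕ) (hj : j ≤ n) :
    T (y * cc P j) = (∏ l ∈ Finset.range j, (1 - t l)) * T y := by
  induction j with
  | zero => simp [cc]
  | succ j ih =>
    have hmem : y * cc P j ∈ StarAlgebra.adjoin ℂ
        ((A : Set M) ∪ {y | ∃ l, l < n ∧ l ≠ j ∧ y = P l}) := by
      refine mul_mem (StarAlgebra.subset_adjoin ℂ _ (Or.inl hy)) ?_
      have : ∀ k, k ≤ j → cc P k ∈ StarAlgebra.adjoin ℂ
          ((A : Set M) ∪ {y | ∃ l, l < n ∧ l ≠ j ∧ y = P l}) := by
        intro k
        induction k with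
        | zero => intro _; exact one_mem _
        | succ k ih2 =>
          intro hk
          refine mul_mem (ih2 (by omega)) (sub_mem (one_mem _) ?_)
          exact StarAlgebra.subset_adjoin ℂ _ (Or.inr ⟨k, by omega, by omega, rfl⟩)
      exact this j le_rfl
    rw [cc, ← mul_assoc, mul_sub, mul_one, map_sub, hind j (by omega) _ hmem, ih (by omega),
      Finset.prod_range_succ]
    ring

theorem T_pc (hind : ∀ j, j < n → ∀ x ∈ StarAlgebra.adjoin ℂ
      ((A : Set M) ∪ {y | ∃ l, l < n ∧ l ≠ j ∧ y = P l}), T (x * P j) = t j * T x)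
    {y : M} (hy : y ∈ A) {j : ℕ} (hj : j < n) :
    T (y * pc P n j) = t j * ((∏ l ∈ Finset.range j, (1 - t l)) * T y) := by
  have hmem : y * cc P j ∈ StarAlgebra.adjoin ℂ
      ((A : Set M) ∪ {y | ∃ l, l < n ∧ l ≠ j ∧ y = P l}) := by
    refine mul_mem (StarAlgebra.subset_adjoin ℂ _ (Or.inl hy)) ?_
    have : ∀ k, k ≤ j → cc P k ∈ StarAlgebra.adjoin ℂ
        ((A : Set M) ∪ {y | ∃ l, l < n ∧ l ≠ j ∧ y = P l}) := by
      intro k
      induction k with
      | zero => intro _; exact one_mem _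
      | succ k ih2 =>
        intro hk
        refine mul_mem (ih2 (by omega)) (sub_mem (one_mem _) ?_)
        exact StarAlgebra.subset_adjoin ℂ _ (Or.inr ⟨k, by omega, by omega, rfl⟩)
    exact this j le_rfl
  unfold pc
  rw [if_pos hj, ← mul_assoc, hind j hj _ hmem, T_cc hind hy j hj.le]

theorem prod_tt (n j : ℕ) (hj : j < n) :
    (1 / ((n : ℝ) - j)) * ∏ l ∈ Finset.range j, (1 - 1 / ((n : ℝ) - l)) = 1 / n := by
  have key : ∀ k, k < n → ∏ l ∈ Finset.range k, (1 - 1 / ((n : ℝ) - l)) = ((n : ℝ) - k) / n := by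
    intro k
    induction k with
    | zero =>
      intro h
      have : (n : ℝ) ≠ 0 := by exact_mod_cast h.ne'
      simp [this]
    | succ k ih =>
      intro hk
      have h1 : (0 : ℝ) < n := by
        have : 0 < n := by omega
        exact_mod_cast this
      have h2 : (0 : ℝ) < (n : ℝ) - k := by
        have : k < n := by omega
        have : (k : ℝ) < n := by exact_mod_cast this
        linarith
      rw [Finset.prod_range_succ, ih (by omega)]
      push_cast
      field_simp
      ring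
  have h1 : (0 : ℝ) < n := by
    have : 0 < n := by omega
    exact_mod_cast this
  have h2 : (0 : ℝ) < (n : ℝ) - j := by
    have : (j : ℝ) < n := by exact_mod_cast hj
    linarith
  rw [key j hj]
  field_simp

end means

/-- bump function around `j` -/
noncomputable def bump (j : ℕ) (s : ℝ) : ℝ := max 0 (1 - 2 * |s - j|)

theorem continuous_bump (j : ℕ) : Continuous (bump j) := by
  unfold bump
  fun_prop

theorem bump_nonneg (j : ℕ) (s : ℝ) : 0 ≤ bump j s := le_max_left _ _

theorem bump_le_one (j : ℕ) (s : ℝ) : bump j s ≤ 1 := by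
  unfold bump
  apply max_le zero_le_one
  have := abs_nonneg (s - j)
  linarith

theorem bump_self (j : ℕ) : bump j j = 1 := by
  unfold bump
  simp

theorem bump_ne {i j : ℕ} (h : i ≠ j) : bump j i = 0 := by
  unfold bump
  have h1 : (1 : ℝ) ≤ |(i : ℝ) - j| := by
    have h2 : (1 : ℤ) ≤ |(i : ℤ) - j| := by
      apply Int.one_le_abs
      intro h3
      apply h
      have := sub_eq_zero.1 h3
      exact_mod_cast this
    have h3 : ((1 : ℤ) : ℝ) ≤ ((|(i : ℤ) - j| : ℤ) : ℝ) := by exact_mod_cast h2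
    push_cast at h3
    exact h3
  apply max_eq_left
  linarith

theorem bump_mul {i j : ℕ} (h : i ≠ j) (s : ℝ) : bump i s * bump j s = 0 := by
  have h1 : (1 : ℝ) ≤ |(i : ℝ) - j| := by
    have h2 : (1 : ℤ) ≤ |(i : ℤ) - j| := by
      apply Int.one_le_abs
      intro h3
      apply h
      have := sub_eq_zero.1 h3
      exact_mod_cast this
    have h3 : ((1 : ℤ) : ℝ) ≤ ((|(i : ℤ) - j| : ℤ) : ℝ) := by exact_mod_cast h2
    push_cast at h3
    exact h3
  have h2 : |(i : ℝ) - j| ≤ |s - i| + |s - j| := by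
    have := abs_sub_abs_le_abs_sub (s - j) (s - i)
    calc |(i : ℝ) - j| = |(s - j) - (s - i)| := by congr 1; ring
      _ ≤ |s - j| + |s - i| := abs_sub _ _
      _ = _ := add_comm _ _
  unfold bump
  rcases le_total (|s - i|) (1 / 2) with h3 | h3
  · have : 1 - 2 * |s - j| ≤ 0 := by linarith
    rw [max_eq_left this, mul_zero]
  · have : 1 - 2 * |s - i| ≤ 0 := by linarith
    rw [max_eq_left this, zero_mul]

end Pool.Agent.Lib.EqGamma
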