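import Pool.Agent.Lib.EqGamma.GOne
import Pool.Agent.Lib.EqGamma.GTwo

/-!
Equivariant uniform property Gamma.
-/

open scoped ComplexOrder BoundedContinuousFunction
open Filter Topology

namespace Pool.Agent.Lib.EqGamma

universe u v

theorem AmenableGroup.folner {G : Type*} [Group G] (hG : AmenableGroup G) : FolnerCond G := by
  classical
  intro H ε hε
  obtain ⟨K, hK, h1⟩ := hG H ε hε
  refine ⟨K, hK, fun h hh => ?_⟩
  refine le_trans ?_ (h1 h hh)
  have : K \ K.image (fun g => h * g) ⊆ symmDiff (K.image fun g => h * g) K := by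
    intro x hx
    rw [Finset.mem_symmDiff]
    rw [Finset.mem_sdiff] at hx
    exact Or.inr hx
  exact_mod_cast Finset.card_le_card this

section weak

variable {A : Type*} [CStarAlgebra A] [PartialOrder A] [StarOrderedRing A]

theorem norm2_lt_iff {τ : A →ₗ[ℂ] ℂ} {x : A} {ε : ℝ} (hε : 0 < ε) :
    norm2 τ x < ε ↔ reT τ (star x * x) < ε ^ 2 := by
  unfold norm2
  rw [Real.sqrt_lt' hε, reT_apply]

theorem sum_orth_le_one {n : ℕ} {p : Fin n → A} (h1 : ∀ i, 0 ≤ p i ∧ ‖p i‖ ≤ 1)
    (h2 : ∀ i j, i ≠ j → p i * p j = 0) : 0 ≤ ∑ i, p i ∧ ∑ i, p i ≤ 1 := by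
  have h0 : 0 ≤ ∑ i, p i := Finset.sum_nonneg fun i _ => (h1 i).1
  have hle1 : ∀ i, p i ≤ 1 := fun i =>
    (norm_le_one_of ((h1 i).1.isSelfAdjoint.star_eq) (h1 i).2).2
  have hsq : (∑ i, p i) * (∑ i, p i) ≤ ∑ i, p i := by
    rw [Finset.sum_mul_sum]
    refine Finset.sum_le_sum fun i _ => ?_
    rw [Finset.sum_eq_single i]
    · exact Block.mul_self_le (h1 i).1 (hle1 i)
    · intro j _ hj
      exact h2 i j hj.symm
    · intro h; exact absurd (Finset.mem_univ i) h
  have hsa : star (∑ i, p i) = ∑ i, p i := h0.isSelfAdjoint.star_eq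
  have h3 : ‖∑ i, p i‖ * ‖∑ i, p i‖ ≤ ‖∑ i, p i‖ := by
    rw [← CStarRing.norm_star_mul_self, hsa]
    apply CStarAlgebra.norm_le_norm_of_nonneg_of_le _ hsq
    have := star_mul_self_nonneg (∑ i, p i)
    rwa [hsa] at this
  have h4 : ‖∑ i, p i‖ ≤ 1 := by
    by_contra hcon
    push Not at hcon
    nlinarith
  exact ⟨h0, (norm_le_one_of hsa h4).2⟩

theorem UniformGamma.weak (hA : UniformGamma A) : WeakGamma A := by
  classical
  intro m hm F ε hε
  have hm' : (0 : ℝ) < m := by exact_mod_cast hm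
  set ε' : ℝ := min (min ε 1) (ε / m) with hε'
  have hε'0 : 0 < ε' := lt_min (lt_min hε one_pos) (by positivity)
  have he1 : ε' ≤ ε := (min_le_left _ _).trans (min_le_left _ _)
  have he2 : ε' ≤ 1 := (min_le_left _ _).trans (min_le_right _ _)
  have he3 : ε' ≤ ε / m := min_le_right _ _
  obtain ⟨p, h1, h2, h3⟩ := hA m hm (insert 1 F) ε' hε'0
  obtain ⟨hS0, hS1⟩ := sum_orth_le_one h1 h2
  set S := ∑ i, p i with hS
  set i0 : Fin m := ⟨0, hm⟩ with hi0
  refine ⟨p i0, (h1 i0).1.isSelfAdjoint.star_eq, (h1 i0).2, fun τ hτ => ⟨?_, ?_⟩⟩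
  · set e := p i0 with he
    have hes : star e = e := (h1 i0).1.isSelfAdjoint.star_eq
    have hele : e ≤ 1 := (norm_le_one_of hes (h1 i0).2).2
    -- `e * e - e = - e (1 - S)`
    have e1 : e * S = e * e := by
      rw [hS, Finset.mul_sum, Finset.sum_eq_single i0]
      · intro j _ hj
        exact h2 i0 j hj.symm
      · intro h; exact absurd (Finset.mem_univ i0) h
    have hd0 : 0 ≤ e - e * e := sub_nonneg.2 (Block.mul_self_le (h1 i0).1 hele)
    have hd1 : e - e * e ≤ 1 := by
      refine (sub_le_self _ ?_).trans hele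
      have := star_mul_self_nonneg e
      rwa [hes] at this
    have e2 : star (e * e - e) * (e * e - e) = (e - e * e) * (e - e * e) := by
      rw [star_sub, star_mul, hes]
      noncomm_ring
    rw [e2]
    refine (hτ.rtr.mono (Block.mul_self_le hd0 hd1)).trans ?_
    have e3 : e - e * e = e * (1 - S) := by rw [mul_sub, mul_one, e1]
    rw [e3, hτ.rtr.tracial]
    refine (hτ.rtr.mul_le_of_le_one (sub_nonneg.2 hS1) hele).trans ?_
    rw [map_sub, hS, map_sum]
    have h4 : ∀ i, (1 / m : ℝ) - ε' ≤ reT τ (p i) := by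
      intro i
      have h5 := (h3 τ hτ i 1 (Finset.mem_insert_self 1 F)).2
      rw [one_mul, hτ.map_one] at h5
      have h6 := (abs_le.1 ((Complex.abs_re_le_norm _).trans h5.le)).1
      rw [Complex.sub_re] at h6
      have h7 : ((1 : ℂ) / (m : ℂ)).re = 1 / m := by
        rw [show ((1 : ℂ) / (m : ℂ)) = ((1 / m : ℝ) : ℂ) by push_cast; rfl, Complex.ofReal_re]
      rw [h7] at h6
      rw [reT_apply]
      linarith
    have h8 := Finset.sum_le_sum fun i (_ : i ∈ Finset.univ) => h4 i
    rw [Finset.sum_const, Finset.card_univ, Fintype.card_fin, nsmul_eq_mul] at h8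
    have h9 : (m : ℝ) * (1 / m - ε') = 1 - m * ε' := by
      field_simp
    rw [h9] at h8
    have h10 : m * ε' ≤ ε := by
      calc m * ε' ≤ m * (ε / m) := mul_le_mul_of_nonneg_left he3 hm'.le
        _ = ε := by field_simp
    have h11 : reT τ 1 = 1 := by rw [reT_apply, hτ.map_one, Complex.one_re]
    rw [h11]
    linarith
  · intro a ha
    obtain ⟨h4, h5⟩ := h3 τ hτ i0 a (Finset.mem_insert_of_mem ha)
    constructor
    · rw [norm2_lt_iff hε'0] at h4
      have e1 : star (a * p i0 - p i0 * a) * (a * p i0 - p i0 * a) =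
          star (p i0 * a - a * p i0) * (p i0 * a - a * p i0) := by
        rw [← neg_sub (p i0 * a) (a * p i0), star_neg, neg_mul_neg]
      rw [e1]
      have : ε' ^ 2 ≤ ε := by nlinarith
      linarith
    · have e1 : ((1 / m : ℝ) : ℂ) * τ a = τ a / m := by push_cast; ring
      rw [e1]
      exact h5.le.trans he1

end weak

section stage2

variable {A : Type v} [CStarAlgebra A] {G : Type u} [Group G]

/-- the traces of the successive projections -/
noncomputable def tt (n : ℕ) (l : ℕ) : ℝ := if l < n then 1 / ((n : ℝ) - l) else 1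

theorem tt_mem (n l : ℕ) : 0 ≤ tt n l ∧ tt n l ≤ 1 := by
  unfold tt
  split_ifs with h
  · have h1 : (1 : ℝ) ≤ (n : ℝ) - l := by
      have : (l : ℝ) + 1 ≤ n := by exact_mod_cast h
      linarith
    constructor
    · positivity
    · rw [div_le_one (by linarith)]
      exact h1
  · exact ⟨zero_le_one, le_rfl⟩

theorem tt_prod {n j : ℕ} (hj : j < n) :
    tt n j * (∏ l ∈ Finset.range j, (1 - tt n l)) = 1 / n := by
  rw [← prod_tt n j hj]
  unfold tt
  rw [if_pos hj]
  congr 1
  refine Finset.prod_congr rfl fun l hl => ?_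
  rw [if_pos ((Finset.mem_range.1 hl).trans hj)]

/-- an almost invariant central family of approximate projections -/
theorem exists_invariant_family (α : G →* (A ≃⋆ₐ[ℂ] A)) (n : ℕ)
    (hα : ∀ x0 : ℝ, |x0| ≤ 1 → EqSym α x0) :
    ∃ (I : Type (max u v)) (U : Ultrafilter I) (e : ℕ → Unit → I → A), Fam U e (tt n) ∧
      ∀ l, ∀ h : G, ∀ ε : ℝ, 0 < ε → ∀ᶠ i in (U : Filter I), ∀ τ : A →ₗ[ℂ] ℂ, TracialState τ →
        reT τ (star (α h (e l () i) - e l () i) * (α h (e l () i) - e l () i)) ≤ ε := by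
  classical
  have hx0 : ∀ l, |2 * tt n l - 1| ≤ 1 := by
    intro l
    have := tt_mem n l
    rw [abs_le]
    constructor <;> linarith
  choose x hx1 hx2 hx3 using fun (l : ℕ) (i : Finset G × Finset A × ℕ) =>
    hα (2 * tt n l - 1) (hx0 l) i.1 i.2.1 (1 / ((i.2.2 : ℝ) + 1)) (by positivity)
  let U : Ultrafilter (Finset G × Finset A × ℕ) := Ultrafilter.of atTop
  have hU : (U : Filter (Finset G × Finset A × ℕ)) ≤ atTop := Ultrafilter.of_le _
  have hev : ∀ (h : G) (a : A) (ε : ℝ), 0 < ε →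
      ∀ᶠ i in (U : Filter (Finset G × Finset A × ℕ)),
      h ∈ i.1 ∧ a ∈ i.2.1 ∧ 1 / ((i.2.2 : ℝ) + 1) ≤ ε := by
    intro h a ε hε
    apply hU
    obtain ⟨n, hn⟩ := exists_nat_gt (1 / ε)
    rw [mem_atTop_sets]
    refine ⟨({h}, {a}, n), fun i hi => ?_⟩
    refine ⟨hi.1 (Finset.mem_singleton_self h), hi.2.1 (Finset.mem_singleton_self a), ?_⟩
    have h1 : (n : ℝ) ≤ i.2.2 := by exact_mod_cast hi.2.2
    rw [div_le_iff₀ (by positivity)]
    rw [div_lt_iff₀ hε] at hn
    nlinarith
  have n1 : ‖(1 : A)‖ ≤ 1 := by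
    rcases subsingleton_or_nontrivial A with h | h
    · rw [Subsingleton.elim (1 : A) 0]; simp
    · exact (norm_one (α := A)).le
  have hscal : ∀ (τ : A →ₗ[ℂ] ℂ) (y : A) (c : ℝ),
      reT τ (star (c • y) * (c • y)) = c ^ 2 * reT τ (star y * y) := fun τ y c => RTr.sq_smul c y
  refine ⟨Finset G × Finset A × ℕ, U, fun l _ i => (1 / 2 : ℝ) • (1 + x l i),
    ⟨?_, ?_, ?_, ?_, ?_⟩, ?_⟩
  · intro l _ i
    rw [norm_smul, Real.norm_eq_abs, abs_of_pos (by norm_num : (0 : ℝ) < 1 / 2)]
    have := norm_add_le (1 : A) (x l i)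
    have h2 := hx2 l i
    linarith
  · intro l _ i
    rw [star_smul, star_add, star_one, hx1, star_trivial]
  · intro l _ ε hε
    filter_upwards [hev 1 0 ε hε] with i hi τ hτ
    let _ := CStarAlgebra.spectralOrder A
    have := CStarAlgebra.spectralOrderedRing A
    have h1 := (hx3 l i τ hτ).1
    set y := x l i with hy
    have hys : star y = y := hx1 l i
    have hyn : ‖y‖ ≤ 1 := hx2 l i
    have e1 : (1 / 2 : ℝ) • (1 + y) * (1 / 2 : ℝ) • (1 + y) - (1 / 2 : ℝ) • (1 + y) =
        (-(1 / 4) : ℝ) • (1 - y * y) := by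
      rw [smul_mul_smul_comm]
      have : (1 + y) * (1 + y) = 1 + y + y + y * y := by noncomm_ring
      rw [this]
      simp only [smul_add, smul_sub, neg_smul]
      have h4 : (1 / 2 : ℝ) • (1 : A) = (1 / 2 * (1 / 2) : ℝ) • 1 + (1 / 4 : ℝ) • 1 := by
        rw [← add_smul]; norm_num
      have h5 : (1 / 2 : ℝ) • y = (1 / 2 * (1 / 2) : ℝ) • y + (1 / 2 * (1 / 2) : ℝ) • y := by
        rw [← add_smul]; norm_num
      have h6 : (1 / 2 * (1 / 2) : ℝ) = 1 / 4 := by norm_num
      rw [h4, h5, h6]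
      abel
    rw [e1, hscal]
    have hu0 : 0 ≤ 1 - y * y := by
      have h2 := CStarAlgebra.star_mul_le_algebraMap_norm_sq (a := y)
      rw [hys] at h2
      have h3 : algebraMap ℝ A (‖y‖ ^ 2) ≤ 1 := by
        rw [← map_one (algebraMap ℝ A)]
        apply algebraMap_mono
        nlinarith [norm_nonneg y]
      exact sub_nonneg.2 (h2.trans h3)
    have hu1 : 1 - y * y ≤ 1 := by
      apply sub_le_self
      have := star_mul_self_nonneg y
      rwa [hys] at this
    have hus : star (1 - y * y) = 1 - y * y := hu0.isSelfAdjoint.star_eq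
    rw [hus]
    have h7 := hτ.rtr.mono (Block.mul_self_le hu0 hu1)
    have h8 : 0 ≤ reT τ ((1 - y * y) * (1 - y * y)) := by
      have := hτ.rtr.nonneg' (1 - y * y)
      rwa [hus] at this
    have h9 := hi.2.2
    nlinarith
  · intro l _ a ε hε
    filter_upwards [hev 1 a ε hε] with i hi τ hτ
    have h1 := ((hx3 l i τ hτ).2.2 a hi.2.1).1
    have e1 : a * (1 / 2 : ℝ) • (1 + x l i) - (1 / 2 : ℝ) • (1 + x l i) * a =
        (1 / 2 : ℝ) • (a * x l i - x l i * a) := by
      rw [mul_smul_comm, smul_mul_assoc, ← smul_sub]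
      congr 1
      noncomm_ring
    rw [e1, hscal]
    have h2 := hτ.rtr.nonneg' (a * x l i - x l i * a)
    have h9 := hi.2.2
    nlinarith
  · intro l _ a ε hε
    filter_upwards [hev 1 a ε hε] with i hi τ hτ
    have h1 := ((hx3 l i τ hτ).2.2 a hi.2.1).2
    have e1 : τ (a * (1 / 2 : ℝ) • (1 + x l i)) - (tt n l : ℂ) * τ a =
        (1 / 2 : ℂ) * (τ (a * x l i) - ((2 * tt n l - 1 : ℝ) : ℂ) * τ a) := by
      rw [mul_smul_comm, ← Complex.coe_smul, map_smul, mul_add, mul_one, map_add, smul_eq_mul]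
      push_cast
      ring
    rw [e1, norm_mul]
    have h2 : ‖(1 / 2 : ℂ)‖ = 1 / 2 := by norm_num
    rw [h2]
    have h9 := hi.2.2
    have h10 := norm_nonneg (τ (a * x l i) - ((2 * tt n l - 1 : ℝ) : ℂ) * τ a)
    linarith
  · intro l h ε hε
    filter_upwards [hev h 0 ε hε] with i hi τ hτ
    have h1 := (hx3 l i τ hτ).2.1 h hi.1
    have e1 : α h ((1 / 2 : ℝ) • (1 + x l i)) - (1 / 2 : ℝ) • (1 + x l i) =
        (1 / 2 : ℝ) • (α h (x l i) - x l i) := by
      rw [← au_apply, map_real_smul, map_add, map_one, ← smul_sub, au_apply]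
      congr 1
      abel
    rw [e1, hscal]
    have h2 := hτ.rtr.nonneg' (α h (x l i) - x l i)
    have h9 := hi.2.2
    nlinarith

variable [PartialOrder A] [StarOrderedRing A]

theorem equivUniformGamma_of_eqSym (α : G →* (A ≃⋆ₐ[ℂ] A))
    (hα : ∀ x0 : ℝ, |x0| ≤ 1 → EqSym α x0) : EquivUniformGamma α := by
  intro n hn H F ε hε
  classical
  by_contra hcon
  push Not at hcon
  obtain ⟨I, U, e, hF, hinv⟩ := exists_invariant_family α n hα
  have hn' : (0 : ℝ) < n := by exact_mod_cast hn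
  -- the candidate
  set E : ℕ → BF (Fin n → I) A := fun l => hat n e hF.bdd l () with hE
  set z : BF (Fin n → I) A := rp (∑ j : Fin (n + 1), ((j : ℕ) : ℝ) • pc E n j) with hz
  set q : ℕ → BF (Fin n → I) A := fun j => cfc (bump j) z with hq
  have hzsa : IsSelfAdjoint z := rp_isSelfAdjoint _
  have hev : ∀ (j : ℕ) (ν : Fin n → I), BF.ev ν (q j) = cfc (bump j) (BF.ev ν z) := by
    intro j ν
    have hφ : Continuous (BF.ev (A := A) ν) :=
      AddMonoidHomClass.continuous_of_bound (BF.ev (A := A) ν) 1 (fun a => by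
        rw [one_mul]; exact BF.norm_ev_le a ν)
    exact StarAlgHomClass.map_cfc (BF.ev ν) (bump j) z (continuous_bump j).continuousOn hφ
      hzsa (hzsa.map (BF.ev ν))
  have hq1 : ∀ (ν : Fin n → I) (j : Fin n), 0 ≤ BF.ev ν (q j) ∧ ‖BF.ev ν (q j)‖ ≤ 1 := by
    intro ν j
    rw [hev]
    refine ⟨cfc_nonneg fun s _ => bump_nonneg _ s, norm_cfc_le zero_le_one fun s _ => ?_⟩
    rw [Real.norm_eq_abs, abs_of_nonneg (bump_nonneg _ s)]
    exact bump_le_one _ s
  have hq2 : ∀ (ν : Fin n → I) (i j : Fin n), i ≠ j → BF.ev ν (q i) * BF.ev ν (q j) = 0 := by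
    intro ν i j hij
    rw [hev, hev, ← cfc_mul (bump i) (bump j) _ (continuous_bump i).continuousOn
      (continuous_bump j).continuousOn]
    rw [cfc_congr (g := fun _ => (0 : ℝ)) (fun s _ => bump_mul (fun h => hij (Fin.ext h)) s)]
    exact cfc_const_zero ℝ _
  choose τ hτ hbad using fun ν => hcon (fun j : Fin n => BF.ev ν (q j)) (hq1 ν) (hq2 ν)
  obtain ⟨M, inst, π, T, hT, hT1, hTπ, hnul, hs, hid, hcomm, hcst, hind⟩ :=
    exists_limit hF n τ hτ
  set P : ℕ → M := fun l => π (E l) with hP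
  have hPc : ∀ l k, Commute (P l) (P k) := by
    intro l k
    by_cases h : l = k
    · rw [h]
    · exact hcomm l k () () h
  have hPi : ∀ l, P l * P l = P l := fun l => hid l ()
  have hPs : ∀ l, star (P l) = P l := fun l => hs l ()
  set R : Fin (n + 1) → M := fun j => pc P n j with hR
  have hRsum : ∑ j, R j = 1 := sum_pc P n
  have hRo : ∀ i j, i ≠ j → R i * R j = 0 := fun i j hij =>
    pc_orth hPc hPi (fun h => hij (Fin.ext h)) (Nat.lt_succ_iff.1 i.2) (Nat.lt_succ_iff.1 j.2)
  have hRi : ∀ i, R i * R i = R i := fun i => pc_idem hPc hPi n i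
  have hRs : ∀ i, star (R i) = R i := fun i => pc_star hPc hPs n i
  have hZs : star (∑ j : Fin (n + 1), ((j : ℕ) : ℝ) • R j) =
      ∑ j : Fin (n + 1), ((j : ℕ) : ℝ) • R j := by
    rw [star_sum]
    exact Finset.sum_congr rfl fun i _ => by rw [star_smul, star_trivial, hRs]
  have hcfc : ∀ j : Fin n, cfc (bump j) (∑ j : Fin (n + 1), ((j : ℕ) : ℝ) • R j) =
      R j.castSucc := by
    intro j
    rw [comb_cfc (c := fun j : Fin (n + 1) => ((j : ℕ) : ℝ)) hRsum hRo hRi hRs
      (fun i j h => Fin.ext (by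
        have h' : ((i : ℕ) : ℝ) = ((j : ℕ) : ℝ) := h
        exact_mod_cast h')) (bump j)]
    rw [Finset.sum_eq_single j.castSucc]
    · rw [Fin.val_castSucc, bump_self, one_smul]
    · intro i _ hi
      have h0 : bump (j : ℕ) ((i : ℕ) : ℝ) = 0 := bump_ne (fun h => hi (Fin.ext h))
      rw [h0, zero_smul]
    · intro h; exact absurd (Finset.mem_univ _) h
  -- general lifting statement
  have hlift : ∀ φ : BF (Fin n → I) A →⋆ₐ[ℂ] M, (∀ l, φ (E l) = P l) →
      ∀ j : Fin n, φ (q j) = R j.castSucc := by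
    intro φ hφ j
    have e1 : φ z = ∑ j : Fin (n + 1), ((j : ℕ) : ℝ) • R j := by
      rw [hz, map_rp, map_sum]
      have e2 : ∀ j : Fin (n + 1), φ (((j : ℕ) : ℝ) • pc E n j) = ((j : ℕ) : ℝ) • R j := by
        intro j
        rw [map_real_smul, map_pc]
        simp_rw [hφ]
        rfl
      rw [Finset.sum_congr rfl fun j _ => e2 j]
      exact rp_of_star_eq hZs
    have hφc : Continuous φ :=
      AddMonoidHomClass.continuous_of_bound φ 1 (fun a => by
        rw [one_mul]; exact NonUnitalStarAlgHom.norm_apply_le φ a)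
    rw [← hcfc j, ← e1]
    exact StarAlgHomClass.map_cfc φ (bump j) z (continuous_bump j).continuousOn hφc
      hzsa (hzsa.map φ)
  have hπq : ∀ j : Fin n, π (q j) = R j.castSucc := hlift π fun _ => rfl
  have hcR : ∀ (a : A) (j : Fin n), Commute (π (BF.cst a)) (R j.castSucc) := by
    intro a j
    change Commute (π (BF.cst a)) (pc P n j.castSucc)
    unfold pc
    split_ifs
    · exact (commute_cc hPc _ (fun l => hcst a l ()) _).mul_right (hcst a _ ())
    · exact commute_cc hPc _ (fun l => hcst a l ()) _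
  have hlim : ∀ w : BF (Fin n → I) A, ∀ c : ℝ, T (π w) < c →
      ∀ᶠ ν in (UP U n : Filter (Fin n → I)), reT (τ ν) (BF.ev ν w) < c := by
    intro w c hw
    have h1 := (Complex.continuous_re.tendsto _).comp (tendsto_Tlim (UP U n) τ hτ w)
    rw [hTπ] at hw
    exact h1.eventually (gt_mem_nhds hw)
  -- invariance
  have c2 : ∀ j : Fin n, ∀ h ∈ H, ∀ᶠ ν in (UP U n : Filter (Fin n → I)),
      norm2 (τ ν) (α h (BF.ev ν (q j)) - BF.ev ν (q j)) < ε := by
    intro j h _
    have e1 : ∀ l, (π.comp (BF.app (au (α h)))) (E l) = P l := by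
      intro l
      rw [StarAlgHom.comp_apply]
      have hN : Nul (UP U n : Filter (Fin n → I)) (BF.app (au (α h)) (E l) - E l) := by
        by_cases hl : l < n
        · intro δ hδ
          have := eventually_marginal U (hinv l h δ hδ) (⟨l, hl⟩ : Fin n)
          filter_upwards [this] with ν hν τ' hτ'
          have h3 := hν τ' hτ'
          rw [map_sub (BF.ev ν), BF.ev_app]
          change reT τ' (star (au (α h) (BF.ev ν (hat n e hF.bdd l ())) -
            BF.ev ν (hat n e hF.bdd l ())) * (au (α h) (BF.ev ν (hat n e hF.bdd l ())) -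
            BF.ev ν (hat n e hF.bdd l ()))) ≤ δ
          rw [ev_hat hF.bdd hl]
          exact h3
        · have : E l = 0 := hat_of_ge hF.bdd hl ()
          rw [this, map_zero, sub_zero]
          exact Nul.zero
      have := hnul _ hN
      rw [map_sub, sub_eq_zero] at this
      exact this
    have e2 : π (BF.app (au (α h)) (q j)) = R j.castSucc := hlift (π.comp (BF.app (au (α h)))) e1 j
    have h1 : T (π (star (BF.app (au (α h)) (q j) - q j) *
        (BF.app (au (α h)) (q j) - q j))) < ε ^ 2 := by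
      rw [map_mul π, map_sub π, e2, hπq, sub_self, mul_zero, map_zero]
      positivity
    filter_upwards [hlim _ _ h1] with ν hν
    rw [norm2_lt_iff hε]
    rw [map_mul (BF.ev ν), map_star (BF.ev ν), map_sub (BF.ev ν), BF.ev_app] at hν
    exact hν
  have c3 : ∀ j : Fin n, ∀ a ∈ F, ∀ᶠ ν in (UP U n : Filter (Fin n → I)),
      norm2 (τ ν) (BF.ev ν (q j) * a - a * BF.ev ν (q j)) < ε := by
    intro j a _
    have h1 : T (π (star (q j * BF.cst a - BF.cst a * q j) *
        (q j * BF.cst a - BF.cst a * q j))) < ε ^ 2 := by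
      rw [map_mul π, map_sub π, map_mul π, map_mul π, hπq, (hcR a j).eq, sub_self, mul_zero,
        map_zero]
      positivity
    filter_upwards [hlim _ _ h1] with ν hν
    rw [norm2_lt_iff hε]
    rw [map_mul (BF.ev ν), map_star (BF.ev ν), map_sub (BF.ev ν), map_mul (BF.ev ν),
      map_mul (BF.ev ν), BF.ev_cst] at hν
    exact hν
  have c4 : ∀ j : Fin n, ∀ a ∈ F, ∀ᶠ ν in (UP U n : Filter (Fin n → I)),
      ‖(τ ν) (a * BF.ev ν (q j)) - (τ ν) a / n‖ < ε := by
    intro j a _
    have hre : ∀ b : A, T (π (BF.cst b * q j)) = 1 / n * T (π (BF.cst b)) := by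
      intro b
      rw [map_mul, hπq]
      have hj : (j.castSucc : ℕ) < n := j.2
      have h3 := T_pc (T := T) (A := (π.comp (BF.cstHom (Fin n → I) A)).range) (P := P)
        (t := tt n) (n := n) (fun j hj x hx => hind j hj () x (by
          refine (StarAlgebra.adjoin_le ?_) hx
          rintro y (hy | ⟨l, hl1, hl2, rfl⟩)
          · exact StarAlgebra.subset_adjoin ℂ _ (Or.inl hy)
          · exact StarAlgebra.subset_adjoin ℂ _ (Or.inr ⟨l, (), hl1, hl2, rfl⟩)))
        (y := π (BF.cst b)) ⟨b, rfl⟩ hj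
      change T (π (BF.cst b) * pc P n j.castSucc) = _
      rw [h3, ← mul_assoc, tt_prod hj]
    have h5 : Tlim (UP U n) τ hτ (BF.cst a * q j - (n : ℂ)⁻¹ • BF.cst a) = 0 := by
      have hz1 : ∀ b : A, (Tlim (UP U n) τ hτ (BF.cst b * q j)).re =
          1 / n * (Tlim (UP U n) τ hτ (BF.cst b)).re := by
        intro b
        rw [← hTπ, ← hTπ, hre]
      have h6 := hz1 a
      have h7 := hz1 (-Complex.I • a)
      rw [BF.cst_smul, smul_mul_assoc, map_smul, map_smul, smul_eq_mul, smul_eq_mul] at h7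
      have e8 : ∀ w : ℂ, (-Complex.I * w).re = w.im := by intro w; simp
      rw [e8, e8] at h7
      rw [map_sub, map_smul, smul_eq_mul]
      have hninv : (n : ℂ)⁻¹ = ((1 / n : ℝ) : ℂ) := by push_cast; rw [one_div]
      rw [hninv]
      apply Complex.ext
      · rw [Complex.sub_re, Complex.re_ofReal_mul, h6, sub_self, Complex.zero_re]
      · rw [Complex.sub_im, Complex.im_ofReal_mul, h7, sub_self, Complex.zero_im]
    have h6 := (tendsto_Tlim (UP U n) τ hτ (BF.cst a * q j - (n : ℂ)⁻¹ • BF.cst a)).norm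
    rw [h5, norm_zero] at h6
    filter_upwards [h6.eventually (gt_mem_nhds hε)] with ν hν
    rw [map_sub (BF.ev ν), map_mul (BF.ev ν), BF.ev_cst, map_smul (BF.ev ν), BF.ev_cst,
      map_sub (τ ν), map_smul (τ ν), smul_eq_mul] at hν
    rw [div_eq_inv_mul]
    exact hν
  have hall : ∀ᶠ ν in (UP U n : Filter (Fin n → I)), False := by
    filter_upwards [eventually_all.2 fun j => (Finset.eventually_all H).2 (c2 j),
      eventually_all.2 fun j => (Finset.eventually_all F).2 (c3 j),
      eventually_all.2 fun j => (Finset.eventually_all F).2 (c4 j)] with ν k2 k3 k4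
    obtain ⟨j, k5⟩ := hbad ν
    obtain ⟨a, ha, k6⟩ := k5 (k2 j)
    exact absurd (k4 j a ha) (not_lt.2 (k6 (k3 j a ha)))
  obtain ⟨ν, hν⟩ := hall.exists
  exact hν

/-- **Main theorem.** Every action of an amenable group on a unital C-star algebra with uniform
property Gamma has equivariant uniform property Gamma. -/
theorem equivUniformGamma (hG : AmenableGroup G) (hA : UniformGamma A)
    (α : G →* (A ≃⋆ₐ[ℂ] A)) : EquivUniformGamma α :=
  equivUniformGamma_of_eqSym α fun _ hx0 => eqSym_of_weakGamma hG.folner hA.weak α hx0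

end stage2

end Pool.Agent.Lib.EqGamma
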