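import Pool.Agent.Lib.EqGamma.GBlock

/-!
Systems of fresh copies and choice of parameters.
-/

open Polynomial

namespace Pool.Agent.Lib.EqGamma

/-- a system of `R` independent copies over the algebra `A` -/
structure Fresh {M : Type*} [CStarAlgebra M] {G : Type*} (T : M →ₗ[ℝ] ℝ)
    (A : StarSubalgebra ℂ M) (E : ℕ → G → M) (R : ℕ) (t : ℝ) : Prop where
  idem : ∀ l < R, ∀ g, E l g * E l g = E l g
  star_eq : ∀ l < R, ∀ g, star (E l g) = E l g
  comm : ∀ l < R, ∀ m < R, l ≠ m → ∀ g k, Commute (E l g) (E m k)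
  commA : ∀ a ∈ A, ∀ l < R, ∀ g, Commute a (E l g)
  ind : ∀ j < R, ∀ g, ∀ x ∈ StarAlgebra.adjoin ℂ
    ((A : Set M) ∪ {y | ∃ l k, l < R ∧ l ≠ j ∧ y = E l k}), T (x * E j g) = t * T x

section

variable {M : Type*} [CStarAlgebra M] {G : Type*}

/-- the algebra generated by `A` and the first `k` blocks -/
noncomputable def past (A : StarSubalgebra ℂ M) (E : ℕ → G → M) (n k : ℕ) : StarSubalgebra ℂ M :=
  StarAlgebra.adjoin ℂ ((A : Set M) ∪ {y | ∃ l g, l < k * n ∧ y = E l g})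

theorem past_mono (A : StarSubalgebra ℂ M) (E : ℕ → G → M) (n k : ℕ) :
    past A E n k ≤ past A E n (k + 1) := by
  apply StarAlgebra.adjoin_le
  rintro y (hy | ⟨l, g, hl, rfl⟩)
  · exact StarAlgebra.subset_adjoin ℂ _ (Or.inl hy)
  · exact StarAlgebra.subset_adjoin ℂ _ (Or.inr ⟨l, g, by
      rw [Nat.succ_mul]; omega, rfl⟩)

theorem le_past (A : StarSubalgebra ℂ M) (E : ℕ → G → M) (n k : ℕ) : A ≤ past A E n k := by
  intro a ha
  exact StarAlgebra.subset_adjoin ℂ _ (Or.inl ha)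

theorem Fresh.block {T : M →ₗ[ℝ] ℝ} {A : StarSubalgebra ℂ M} {E : ℕ → G → M} {N n : ℕ} {t : ℝ}
    (hF : Fresh T A E (N * n) t) {k : ℕ} (hk : k < N) :
    FreshBlock T (past A E n k) (fun (l : Fin n) g => E (k * n + l) g) t := by
  have hlt : ∀ l : Fin n, k * n + (l : ℕ) < N * n := by
    intro l
    calc k * n + (l : ℕ) < k * n + n := by have := l.2; omega
      _ = (k + 1) * n := by rw [Nat.succ_mul]
      _ ≤ N * n := Nat.mul_le_mul_right n hk
  have hlt2 : ∀ l, l < k * n → l < N * n := by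
    intro l hl
    exact hl.trans_le (Nat.mul_le_mul_right n hk.le)
  refine ⟨fun l g => hF.idem _ (hlt l) g, fun l g => hF.star_eq _ (hlt l) g, ?_, ?_, ?_⟩
  · intro l m hlm g k'
    refine hF.comm _ (hlt l) _ (hlt m) ?_ g k'
    intro h
    apply hlm
    apply Fin.ext
    omega
  · intro z hz l g
    have h1 : past A E n k ≤ cent (E (k * n + l) g) := by
      apply StarAlgebra.adjoin_le
      rintro y (hy | ⟨m, g', hm, rfl⟩)
      · apply mem_cent
        · exact (hF.commA y hy _ (hlt l) g).symm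
        · rw [hF.star_eq _ (hlt l) g]
          exact (hF.commA y hy _ (hlt l) g).symm
      · have h2 : Commute (E (k * n + l) g) (E m g') :=
          hF.comm _ (hlt l) _ (hlt2 m hm) (by omega) g g'
        apply mem_cent h2
        rw [hF.star_eq _ (hlt l) g]
        exact h2
    exact (commute_of_mem_cent (h1 hz)).symm
  · intro j g x hx
    refine hF.ind _ (hlt j) g x ?_
    have h1 : StarAlgebra.adjoin ℂ ((past A E n k : Set M) ∪
        {y | ∃ (l : Fin n) (k' : G), l ≠ j ∧ y = E (k * n + l) k'}) ≤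
        StarAlgebra.adjoin ℂ ((A : Set M) ∪
          {y | ∃ l k', l < N * n ∧ l ≠ k * n + j ∧ y = E l k'}) := by
      apply StarAlgebra.adjoin_le
      rintro y (hy | ⟨l, k', hl, rfl⟩)
      · have h2 : past A E n k ≤ StarAlgebra.adjoin ℂ ((A : Set M) ∪
          {y | ∃ l k', l < N * n ∧ l ≠ k * n + j ∧ y = E l k'}) := by
          apply StarAlgebra.adjoin_le
          rintro y (hy | ⟨m, g', hm, rfl⟩)
          · exact StarAlgebra.subset_adjoin ℂ _ (Or.inl hy)
          · exact StarAlgebra.subset_adjoin ℂ _ (Or.inr ⟨m, g', hlt2 m hm, by omega, rfl⟩)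
        exact h2 hy
      · refine StarAlgebra.subset_adjoin ℂ _ (Or.inr ⟨_, k', hlt l, ?_, rfl⟩)
        intro h
        apply hl
        apply Fin.ext
        omega
    exact h1 hx

end

section params

/-- choice of numerical parameters -/
theorem exists_params {δ : ℝ} (hδ : 0 < δ) : ∃ ν ε t0 : ℝ, 0 < ν ∧ 2 * ν ≤ δ ∧ 0 < ε ∧ 0 < t0 ∧
    t0 ≤ 1 / 8 ∧ ∀ t, 0 < t → t ≤ t0 → ∀ k : ℕ, 0 < k → ∃ κ : ℝ, 0 < κ ∧ k * κ ≤ 1 / 4 ∧
      ∀ C : ℝ, 0 ≤ C → ∃ n N : ℕ, 0 < n ∧ 1 ≤ N * (t ^ n / 16 * ν ^ 2 - C / √n * t ^ n) ∧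
        N * (C / √n * t ^ n) ≤ ν ∧
        Real.exp (6 * t ^ n * N) * (N * (5 * (C / √n * t ^ n) +
          (16 * (ε + k * κ) + 8 * t) * t ^ n / 2)) ≤ δ := by
  set ν : ℝ := δ / 2 with hν
  have hν0 : 0 < ν := by positivity
  set L : ℝ := 32 / ν ^ 2 + 1 with hL
  have hL0 : 0 < L := by positivity
  set Q : ℝ := L * Real.exp (6 * L) with hQ
  have hQ0 : 0 < Q := by positivity
  set η0 : ℝ := δ / Q with hη0
  have hη00 : 0 < η0 := by positivity
  refine ⟨ν, η0 / 48, min (η0 / 24) (1 / 8), hν0, by rw [hν]; linarith, by positivity,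
    lt_min (by positivity) (by norm_num), min_le_right _ _, ?_⟩
  intro t ht ht0 k hk
  have ht1 : t ≤ η0 / 24 := ht0.trans (min_le_left _ _)
  have ht2 : t ≤ 1 / 8 := ht0.trans (min_le_right _ _)
  have hk' : (0 : ℝ) < k := by exact_mod_cast hk
  refine ⟨min (η0 / 48) (1 / 4) / k, by positivity, ?_, ?_⟩
  · rw [mul_div_cancel₀ _ hk'.ne']
    exact min_le_right _ _
  intro C hC
  -- choose n
  set β : ℝ := min (min (ν ^ 2 / 32) (ν / L)) (δ / (10 * Q)) with hβ
  have hβ0 : 0 < β := by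
    apply lt_min
    · apply lt_min <;> positivity
    · positivity
  obtain ⟨n, hn⟩ := exists_nat_gt ((C / β) ^ 2)
  have hn0 : 0 < n := by
    have : (0 : ℝ) < n := lt_of_le_of_lt (sq_nonneg _) hn
    exact_mod_cast this
  have hn' : (0 : ℝ) < n := by exact_mod_cast hn0
  have hCn : C / √n ≤ β := by
    have h1 : C / β ≤ √n := by
      apply Real.le_sqrt_of_sq_le hn.le
    rw [div_le_iff₀ (Real.sqrt_pos.2 hn')]
    rw [div_le_iff₀ hβ0] at h1
    linarith
  have hCn0 : 0 ≤ C / √n := by positivity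
  set w : ℝ := t ^ n with hw
  have hw0 : 0 < w := by positivity
  have hw1 : w ≤ 1 := pow_le_one₀ ht.le (by linarith)
  set N : ℕ := ⌈32 / (w * ν ^ 2)⌉₊ with hN
  have hN1 : 32 / (w * ν ^ 2) ≤ N := Nat.le_ceil _
  have hN2 : (N : ℝ) ≤ 32 / (w * ν ^ 2) + 1 := (Nat.ceil_lt_add_one (by positivity)).le
  have hNw : N * w ≤ L := by
    calc N * w ≤ (32 / (w * ν ^ 2) + 1) * w := mul_le_mul_of_nonneg_right hN2 hw0.le
      _ = 32 / ν ^ 2 + w := by field_simp
      _ ≤ L := by rw [hL]; linarith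
  have hNw0 : 0 ≤ N * w := by positivity
  have hb1 : C / √n ≤ ν ^ 2 / 32 := hCn.trans ((min_le_left _ _).trans (min_le_left _ _))
  have hb2 : C / √n ≤ ν / L := hCn.trans ((min_le_left _ _).trans (min_le_right _ _))
  have hb3 : C / √n ≤ δ / (10 * Q) := hCn.trans (min_le_right _ _)
  refine ⟨n, N, hn0, ?_, ?_, ?_⟩
  · have h1 : w * (ν ^ 2 / 32) ≤ w / 16 * ν ^ 2 - C / √n * w := by
      have := mul_le_mul_of_nonneg_right hb1 hw0.le
      nlinarith
    have h2 : (N : ℝ) * (w * (ν ^ 2 / 32)) ≤ N * (w / 16 * ν ^ 2 - C / √n * w) :=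
      mul_le_mul_of_nonneg_left h1 (Nat.cast_nonneg N)
    refine le_trans ?_ h2
    have h3 : 32 / (w * ν ^ 2) * (w * (ν ^ 2 / 32)) = 1 := by field_simp
    rw [← h3]
    exact mul_le_mul_of_nonneg_right hN1 (by positivity)
  · calc (N : ℝ) * (C / √n * w) = (C / √n) * (N * w) := by ring
      _ ≤ (ν / L) * L := mul_le_mul hb2 hNw hNw0 (by positivity)
      _ = ν := by field_simp
  · have h1 : Real.exp (6 * w * N) ≤ Real.exp (6 * L) := by
      apply Real.exp_le_exp.2
      nlinarith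
    have h2 : 16 * (η0 / 48 + k * (min (η0 / 48) (1 / 4) / k)) + 8 * t ≤ η0 := by
      rw [mul_div_cancel₀ _ hk'.ne']
      have := min_le_left (η0 / 48) (1 / 4)
      linarith
    have h3 : (N : ℝ) * (5 * (C / √n * w) +
        (16 * (η0 / 48 + k * (min (η0 / 48) (1 / 4) / k)) + 8 * t) * w / 2) ≤
        5 * (δ / (10 * Q)) * L + η0 * L / 2 := by
      have h4 : (N : ℝ) * (5 * (C / √n * w)) ≤ 5 * (δ / (10 * Q)) * L := by
        calc (N : ℝ) * (5 * (C / √n * w)) = 5 * ((C / √n) * (N * w)) := by ring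
          _ ≤ 5 * ((δ / (10 * Q)) * L) := by
            apply mul_le_mul_of_nonneg_left _ (by norm_num)
            exact mul_le_mul hb3 hNw hNw0 (by positivity)
          _ = _ := by ring
      have h5 : (N : ℝ) * ((16 * (η0 / 48 + k * (min (η0 / 48) (1 / 4) / k)) + 8 * t) * w / 2) ≤
          η0 * L / 2 := by
        calc (N : ℝ) * ((16 * (η0 / 48 + k * (min (η0 / 48) (1 / 4) / k)) + 8 * t) * w / 2)
            = (16 * (η0 / 48 + k * (min (η0 / 48) (1 / 4) / k)) + 8 * t) * (N * w) / 2 := by ring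
          _ ≤ η0 * L / 2 := by
            apply div_le_div_of_nonneg_right _ (by norm_num)
            exact mul_le_mul h2 hNw hNw0 hη00.le
      rw [mul_add]
      linarith
    have h6 : 0 ≤ 5 * (δ / (10 * Q)) * L + η0 * L / 2 := by positivity
    calc _ ≤ Real.exp (6 * L) * (5 * (δ / (10 * Q)) * L + η0 * L / 2) := by
          apply mul_le_mul h1 h3 _ (Real.exp_pos _).le
          have : 0 ≤ k * (min (η0 / 48) (1 / 4) / k) := by positivity
          positivity
      _ = δ := by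
        rw [hη0, hQ]
        field_simp
        ring

end params

end Pool.Agent.Lib.EqGamma
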