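import Pool.Agent.Lib.EqGamma.GMart2
import Pool.Agent.Lib.EqGamma.GSys

/-!
The almost invariant symmetry produced from a system of fresh copies.
-/

open Polynomial

namespace Pool.Agent.Lib.EqGamma

/-- Folner's condition for the discrete group `G` -/
def FolnerCond (G : Type*) [Group G] : Prop :=
  open Classical in
  ∀ (H : Finset G) (ε : ℝ), 0 < ε → ∃ K : Finset G, K.Nonempty ∧
    ∀ h ∈ H, ((K \ K.image fun g => h * g).card : ℝ) ≤ ε * K.card

section defs

variable {M : Type*} [Ring M] [Algebra ℝ M] {G : Type*}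

/-- the final element of the martingale -/
noncomputable def XF (E : ℕ → G → M) (K : Finset G) (f : Polynomial ℝ) (t : ℝ) (n N : ℕ)
    (x0 : ℝ) : M :=
  XX x0 (fun k => DD (fun (l : Fin n) g => E (k * n + l) g) K f t) N

theorem map_XF {M' : Type*} [Ring M'] [Algebra ℝ M'] (φ : M →ₐ[ℝ] M') (E : ℕ → G → M)
    (K : Finset G) (f : Polynomial ℝ) (t : ℝ) (n N : ℕ) (x0 : ℝ) :
    φ (XF E K f t n N x0) = XF (fun l g => φ (E l g)) K f t n N x0 := by
  unfold XF
  rw [map_XX]
  simp_rw [map_DD]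

end defs

universe u

theorem exists_good {G : Type*} [Group G] (hG : FolnerCond G) (H : Finset G) {δ : ℝ}
    (hδ : 0 < δ) : ∃ t0 : ℝ, 0 < t0 ∧ ∀ t, 0 < t → t ≤ t0 →
      ∃ (K : Finset G) (f : Polynomial ℝ) (n N : ℕ),
      ∀ (M : Type u) [CStarAlgebra M] (T : M →ₗ[ℝ] ℝ), RTr T → T 1 = 1 →
      ∀ (A : StarSubalgebra ℂ M) (E : ℕ → G → M), Fresh T A E (N * n) t →
      ∀ x0 : ℝ, |x0| ≤ 1 →
        star (XF E K f t n N x0) = XF E K f t n N x0 ∧ ‖XF E K f t n N x0‖ ≤ 1 ∧
        T (1 - XF E K f t n N x0 * XF E K f t n N x0) ≤ δ ∧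
        (∀ y ∈ A, |T (y * XF E K f t n N x0) - x0 * T y| ≤ δ * (‖y‖ ^ 2 + 1)) ∧
        (∀ y ∈ A, Commute y (XF E K f t n N x0)) ∧
        ∀ h ∈ H, star (XF (fun l g => E l (h * g)) K f t n N x0) =
            XF (fun l g => E l (h * g)) K f t n N x0 ∧
          ‖XF (fun l g => E l (h * g)) K f t n N x0‖ ≤ 1 ∧
          T ((XF E K f t n N x0 - XF (fun l g => E l (h * g)) K f t n N x0) *
          (XF E K f t n N x0 - XF (fun l g => E l (h * g)) K f t n N x0)) ≤ δ := by
  classical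
  obtain ⟨ν, ε, t0, hν, hνδ, hε, ht0, ht0', hpar⟩ := exists_params hδ
  obtain ⟨K, hK, hKH⟩ := hG H ε hε
  refine ⟨t0, ht0, fun t ht htt0 => ?_⟩
  have ht8 : t ≤ 1 / 8 := htt0.trans ht0'
  obtain ⟨κ, hκ, hκ1, hpar2⟩ := hpar t ht htt0 K.card hK.card_pos
  obtain ⟨f, hf⟩ := exists_goodPoly hκ
  obtain ⟨n, N, hn, hN1, hN2, hN3⟩ := hpar2 (polyC f) (polyC_nonneg f)
  refine ⟨K, f, n, N, ?_⟩
  intro M _ T hT h1 A E hF x0 hx0
  let _ := CStarAlgebra.spectralOrder M
  have := CStarAlgebra.spectralOrderedRing M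
  have hw0 : 0 ≤ t ^ n := by positivity
  have hd0 : 0 ≤ polyC f / √n * t ^ n := by
    have := polyC_nonneg f
    positivity
  set η : ℝ := 16 * (ε + K.card * κ) + 8 * t with hη
  have hη0 : 0 ≤ η := by positivity
  have hmono : ∀ k, k < N → past A E n k ≤ past A E n (k + 1) := fun k _ => past_mono A E n k
  have hlt : ∀ k, k < N → ∀ l : Fin n, k * n + (l : ℕ) < (k + 1) * n := by
    intro k _ l
    rw [Nat.succ_mul]
    have := l.2
    omega
  have hlt' : ∀ k, k < N → ∀ l : Fin n, k * n + (l : ℕ) < N * n := fun k hk l =>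
    (hlt k hk l).trans_le (Nat.mul_le_mul_right n hk)
  have hDP : ∀ L : Finset G, ∀ k, k < N →
      DD (fun (l : Fin n) g => E (k * n + l) g) L f t ∈ past A E n (k + 1) := by
    intro L k hk
    apply DD_mem
    intro l g
    exact StarAlgebra.subset_adjoin ℂ _ (Or.inr ⟨_, g, hlt k hk l, rfl⟩)
  have hI : ∀ h : G, ((K \ K.image fun g => h * g).card : ℝ) ≤ ε * K.card → ∀ k, k < N →
      Incr T (past A E n k) (DD (fun (l : Fin n) g => E (k * n + l) g) K f t)
        (DD (fun (l : Fin n) g => E (k * n + l) g) (K.image fun g => h * g) f t)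
        (t ^ n) (polyC f / √n * t ^ n) η := by
    intro h hh k hk
    exact (hF.block hk).incr hT ht.le ht8 hn hf hK
      (Finset.card_image_of_injective _ (mul_right_injective h)) hh hκ1
  have hI1 := hI 1 (by simp; positivity)
  have hs := XX_star_comm (x0 := x0) hmono (hDP K) (fun k hk => (hI1 k hk).star_eq)
    (fun k hk => (hI1 k hk).comm) N le_rfl
  have hn1 := XX_norm hmono (hDP K) (fun k hk => (hI1 k hk).star_eq)
    (fun k hk => (hI1 k hk).comm) (fun k hk => (hI1 k hk).norm_le) hx0 N le_rfl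
  refine ⟨hs, hn1, ?_, ?_, ?_, ?_⟩
  · exact (XX_decay hT h1 hd0 hw0 hmono (hDP K) hI1 hx0 hν hN1 hN2).trans hνδ
  · intro y hy
    refine (XX_mean hT h1 hd0 hmono (hDP K) hI1 hx0 (le_past A E n 0 hy)).trans ?_
    have : N * (polyC f / √n * t ^ n / 4 * (‖y‖ ^ 2 + 1)) ≤ ν / 4 * (‖y‖ ^ 2 + 1) := by
      calc N * (polyC f / √n * t ^ n / 4 * (‖y‖ ^ 2 + 1))
          = (N * (polyC f / √n * t ^ n)) / 4 * (‖y‖ ^ 2 + 1) := by ring
        _ ≤ _ := by gcongr
    refine this.trans ?_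
    have h2 : ν / 4 ≤ δ := by linarith
    exact mul_le_mul_of_nonneg_right h2 (by positivity)
  · intro y hy
    have h2 : ∀ k, k < N → DD (fun (l : Fin n) g => E (k * n + l) g) K f t ∈ cent y := by
      intro k hk
      apply DD_mem
      intro l g
      exact mem_cent (hF.commA y hy _ (hlt' k hk l) g)
        (hF.commA (star y) (star_mem hy) _ (hlt' k hk l) g)
    exact commute_of_mem_cent (XX_mem (P := fun _ => cent y) (fun _ _ => le_rfl) h2 N le_rfl)
  · intro h hh
    have hIh := hI h (hKH h hh)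
    have e : XF (fun l g => E l (h * g)) K f t n N x0 =
        XX x0 (fun k => DD (fun (l : Fin n) g => E (k * n + l) g) (K.image fun g => h * g) f t)
          N := by
      unfold XF
      congr 1
      funext k
      exact DD_shift h (fun (l : Fin n) g => E (k * n + l) g) K f t
    have h3 := XX_inv hT h1 hd0 hw0 hη0 hmono (hDP K) (hDP _) hIh hx0
    rw [e]
    exact ⟨XX_star_comm (x0 := x0) hmono (hDP _) (fun k hk => (hIh k hk).star_eq')
      (fun k hk => (hIh k hk).comm') N le_rfl,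
      XX_norm hmono (hDP _) (fun k hk => (hIh k hk).star_eq')
        (fun k hk => (hIh k hk).comm') (fun k hk => (hIh k hk).norm_le') hx0 N le_rfl,
      h3.trans hN3⟩

end Pool.Agent.Lib.EqGamma
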