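import Mathlib

/-!
Real positive tracial functionals on C-star algebras: elementary inequalities.
-/

open scoped ComplexOrder

namespace Pool.Agent.Lib.EqGamma

/-- A real positive tracial functional. -/
structure RTr {M : Type*} [CStarAlgebra M] (W : M →ₗ[ℝ] ℝ) : Prop where
  nonneg' : ∀ x, 0 ≤ W (star x * x)
  tracial : ∀ x y, W (x * y) = W (y * x)
  map_star : ∀ x, W (star x) = W x

namespace RTr

section

variable {M : Type*} [CStarAlgebra M] {W : M →ₗ[ℝ] ℝ} (h : RTr W)

/-- the real bilinear form of a tracial functional -/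
noncomputable def form (W : M →ₗ[ℝ] ℝ) : LinearMap.BilinForm ℝ M :=
  LinearMap.mk₂ ℝ (fun x y => W (star x * y))
    (fun x y z => by rw [star_add, add_mul, map_add])
    (fun c x y => by rw [star_smul, smul_mul_assoc, map_smul]; simp)
    (fun x y z => by rw [mul_add, map_add])
    (fun c x y => by rw [mul_smul_comm, map_smul])

theorem form_apply (W : M →ₗ[ℝ] ℝ) (x y : M) : form W x y = W (star x * y) := rfl

include h in
theorem symm (x y : M) : W (star x * y) = W (star y * x) := by
  rw [← h.map_star (star x * y), star_mul, star_star]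

include h in
theorem cs (x y : M) : W (star x * y) ^ 2 ≤ W (star x * x) * W (star y * y) := by
  have := LinearMap.BilinForm.apply_sq_le_of_symm (form W) (fun x => h.nonneg' x)
    ⟨fun x y => by
      rw [form_apply, form_apply]
      exact h.symm x y⟩ x y
  simpa only [form_apply] using this

include h in
theorem abs_cs (x y : M) :
    |W (star x * y)| ≤ √(W (star x * x)) * √(W (star y * y)) := by
  rw [← Real.sqrt_mul (h.nonneg' x)]
  exact Real.abs_le_sqrt (h.cs x y)

include h in
theorem sq_add_le (x y : M) :
    W (star (x + y) * (x + y)) ≤ 2 * W (star x * x) + 2 * W (star y * y) := by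
  have h1 := h.nonneg' (x - y)
  have h2 : W (star (x + y) * (x + y)) + W (star (x - y) * (x - y)) =
      2 * W (star x * x) + 2 * W (star y * y) := by
    rw [star_add, star_sub]
    simp only [add_mul, mul_add, sub_mul, mul_sub, map_add, map_sub]
    ring
  linarith

include h in
theorem sq_sub_le (x y : M) :
    W (star (x - y) * (x - y)) ≤ 2 * W (star x * x) + 2 * W (star y * y) := by
  have := h.sq_add_le x (-y)
  rw [star_neg, neg_mul_neg, ← sub_eq_add_neg] at this
  exact this

theorem sq_smul (c : ℝ) (x : M) : W (star (c • x) * (c • x)) = c ^ 2 * W (star x * x) := by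
  rw [star_smul, smul_mul_smul_comm, map_smul, smul_eq_mul]
  simp [sq]

include h in
/-- Jensen inequality for finite averages -/
theorem sq_sum_le {ι : Type*} (s : Finset ι) (x : ι → M) :
    W (star (∑ i ∈ s, x i) * (∑ i ∈ s, x i)) ≤ s.card * ∑ i ∈ s, W (star (x i) * x i) := by
  classical
  induction s using Finset.induction_on with
  | empty => simp
  | insert a s ha ih =>
    rw [Finset.sum_insert ha, Finset.sum_insert ha, Finset.card_insert_of_notMem ha]
    rw [star_add]
    have h1 : W ((star (x a) + star (∑ i ∈ s, x i)) * (x a + ∑ i ∈ s, x i)) =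
        W (star (x a) * x a) + 2 * W (star (x a) * ∑ i ∈ s, x i) +
          W (star (∑ i ∈ s, x i) * ∑ i ∈ s, x i) := by
      simp only [add_mul, mul_add, map_add]
      rw [h.symm (∑ i ∈ s, x i) (x a)]
      ring
    rw [h1]
    have h2 : 2 * W (star (x a) * ∑ i ∈ s, x i) ≤
        s.card * W (star (x a) * x a) + ∑ i ∈ s, W (star (x i) * x i) := by
      rw [Finset.mul_sum, map_sum, Finset.mul_sum]
      have : ∀ i ∈ s, 2 * W (star (x a) * x i) ≤ W (star (x a) * x a) + W (star (x i) * x i) := by
        intro i _
        have h3 := h.nonneg' (x a - x i)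
        rw [star_sub] at h3
        simp only [sub_mul, mul_sub, map_sub] at h3
        rw [h.symm (x i) (x a)] at h3
        linarith
      refine (Finset.sum_le_sum this).trans ?_
      rw [Finset.sum_add_distrib, Finset.sum_const, nsmul_eq_mul]
    push_cast
    nlinarith [h.nonneg' (x a)]

end

section order

variable {M : Type*} [CStarAlgebra M] [PartialOrder M] [StarOrderedRing M]
  {W : M →ₗ[ℝ] ℝ} (h : RTr W)

include h in
theorem nonneg {x : M} (hx : 0 ≤ x) : 0 ≤ W x := by
  obtain ⟨y, rfl⟩ := CStarAlgebra.nonneg_iff_eq_star_mul_self.1 hx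
  exact h.nonneg' y

include h in
theorem mono {x y : M} (hxy : x ≤ y) : W x ≤ W y := by
  have := h.nonneg (sub_nonneg.2 hxy)
  rw [map_sub] at this
  linarith

include h in
theorem nonneg_mul {x y : M} (hx : 0 ≤ x) (hy : 0 ≤ y) : 0 ≤ W (x * y) := by
  obtain ⟨a, rfl⟩ := CStarAlgebra.nonneg_iff_eq_star_mul_self.1 hx
  obtain ⟨b, rfl⟩ := CStarAlgebra.nonneg_iff_eq_star_mul_self.1 hy
  have : W (star a * a * (star b * b)) = W (star (a * star b) * (a * star b)) := by
    rw [star_mul, star_star]
    rw [show star a * a * (star b * b) = (star a * a * star b) * b by noncomm_ring]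
    rw [h.tracial]
    congr 1
    noncomm_ring
  rw [this]
  exact h.nonneg' _

include h in
theorem mul_le_mul {x y z : M} (hx : 0 ≤ x) (hyz : y ≤ z) : W (x * y) ≤ W (x * z) := by
  have := h.nonneg_mul hx (sub_nonneg.2 hyz)
  rw [mul_sub, map_sub] at this
  linarith

include h in
theorem mul_le_of_le_one {x y : M} (hx : 0 ≤ x) (hy : y ≤ 1) : W (x * y) ≤ W x := by
  have := h.mul_le_mul hx hy
  rwa [mul_one] at this

theorem algebraMap_apply (W : M →ₗ[ℝ] ℝ) (r : ℝ) : W (algebraMap ℝ M r) = r * W 1 := by
  rw [Algebra.algebraMap_eq_smul_one, map_smul, smul_eq_mul]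

include h in
/-- `W (star x * c * x) ≤ r W (star x * x)` when `c ≤ r` -/
theorem conj_le {c : M} {r : ℝ} (hc : c ≤ algebraMap ℝ M r) (x : M) :
    W (star x * c * x) ≤ r * W (star x * x) := by
  have h1 := h.mono (star_left_conjugate_le_conjugate hc x)
  refine h1.trans (le_of_eq ?_)
  rw [Algebra.algebraMap_eq_smul_one, mul_smul_comm, mul_one, smul_mul_assoc, map_smul,
    smul_eq_mul]

include h in
theorem sq_mul_le (c x : M) : W (star (c * x) * (c * x)) ≤ ‖c‖ ^ 2 * W (star x * x) := by
  have h1 : star c * c ≤ algebraMap ℝ M (‖c‖ ^ 2) := CStarAlgebra.star_mul_le_algebraMap_norm_sq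
  have h2 := h.conj_le h1 x
  rw [show star (c * x) * (c * x) = star x * (star c * c) * x by
    rw [star_mul]; noncomm_ring]
  exact h2

include h in
theorem sq_mul_le' (x c : M) : W (star (x * c) * (x * c)) ≤ ‖c‖ ^ 2 * W (star x * x) := by
  have h1 := h.sq_mul_le (star c) (star x)
  rw [norm_star, star_star, h.tracial x (star x)] at h1
  refine le_of_eq_of_le ?_ h1
  rw [h.tracial]
  rw [star_mul, star_mul, star_star, star_star]

include h in
/-- Cauchy Schwarz for the form weighted by a positive element -/
theorem abs_cs_weight {b : M} (hb : 0 ≤ b) (x y : M) :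
    |W (star x * b * y)| ≤ √(W (star x * b * x)) * √(W (star y * b * y)) := by
  obtain ⟨c, rfl⟩ := CStarAlgebra.nonneg_iff_eq_star_mul_self.1 hb
  have h1 := h.abs_cs (c * x) (c * y)
  rw [star_mul, star_mul] at h1
  have e : ∀ u v : M, star u * (star c * c) * v = star u * star c * (c * v) := by
    intro u v; noncomm_ring
  rw [e, e, e]
  exact h1

end order

end RTr

end Pool.Agent.Lib.EqGamma
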