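import Pool.Agent.Lib.EqGamma.GProj
import Pool.Agent.Lib.EqGamma.GTr

/-!
The elementary increment built from `n` fresh copies.
-/

open Polynomial

namespace Pool.Agent.Lib.EqGamma

section defs

variable {M : Type*} [Ring M] [Algebra ℝ M] {G : Type*} {n : ℕ}

/-- average over `K` of the products of the copies `l ∈ s` -/
noncomputable def BB (E : Fin n → G → M) (s : Finset (Fin n)) (K : Finset G) : M :=
  (K.card : ℝ)⁻¹ • ∑ g ∈ K, pp (fun l => E l g) s

/-- the compensator -/
noncomputable def RR (E : Fin n → G → M) (K : Finset G) (f : Polynomial ℝ) (t : ℝ) : M :=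
  (t / n) • ∑ j, aeval (BB E (Finset.univ.erase j) K) f

/-- the increment -/
noncomputable def DD (E : Fin n → G → M) (K : Finset G) (f : Polynomial ℝ) (t : ℝ) : M :=
  aeval (BB E Finset.univ K) f - RR E K f t

end defs

/-- the constant of the polynomial `f` -/
noncomputable def polyC (f : Polynomial ℝ) : ℝ :=
  ∑ m ∈ Finset.range (f.natDegree + 1), |f.coeff m| * m

theorem polyC_nonneg (f : Polynomial ℝ) : 0 ≤ polyC f :=
  Finset.sum_nonneg fun m _ => by positivity

/-- hypotheses on a block of copies -/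
structure Block {M : Type*} [CStarAlgebra M] {G : Type*} {n : ℕ} (W : M →ₗ[ℝ] ℝ)
    (E : Fin n → G → M) (t : ℝ) : Prop where
  idem : ∀ l g, E l g * E l g = E l g
  star_eq : ∀ l g, star (E l g) = E l g
  comm : ∀ l m, l ≠ m → ∀ g k, Commute (E l g) (E m k)
  ind : ∀ j g, ∀ x ∈ Algebra.adjoin ℝ {y | ∃ l k, l ≠ j ∧ y = E l k}, W (x * E j g) = t * W x

section proj

variable {M : Type*} [CStarAlgebra M] [PartialOrder M] [StarOrderedRing M]

theorem proj_nonneg {q : M} (h1 : star q = q) (h2 : q * q = q) : 0 ≤ q := by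
  rw [← h2]
  nth_rewrite 1 [← h1]
  exact star_mul_self_nonneg q

theorem proj_le_one {q : M} (h1 : star q = q) (h2 : q * q = q) : q ≤ 1 := by
  rw [← sub_nonneg]
  apply proj_nonneg
  · rw [star_sub, star_one, h1]
  · have e : (1 - q) * (1 - q) = 1 - q - q + q * q := by noncomm_ring
    rw [e, h2]
    abel

end proj

namespace Block

section

variable {M : Type*} [CStarAlgebra M] [PartialOrder M] [StarOrderedRing M] {G : Type*} {n : ℕ}
  {W : M →ₗ[ℝ] ℝ} {E : Fin n → G → M} {t : ℝ} (hB : Block W E t) (hW : RTr W)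

include hB in
theorem q_mul (s u : Finset (Fin n)) (g : G) :
    pp (fun l => E l g) s * pp (fun l => E l g) u = pp (fun l => E l g) (s ∪ u) :=
  pp_mul (fun l m h => hB.comm l m h g g) (fun l => hB.idem l g) s u

include hB in
theorem q_idem (s : Finset (Fin n)) (g : G) :
    pp (fun l => E l g) s * pp (fun l => E l g) s = pp (fun l => E l g) s :=
  pp_idem (fun l m h => hB.comm l m h g g) (fun l => hB.idem l g) s

include hB in
theorem q_star (s : Finset (Fin n)) (g : G) :
    star (pp (fun l => E l g) s) = pp (fun l => E l g) s :=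
  pp_star (fun l m h => hB.comm l m h g g) (fun l => hB.star_eq l g) (fun l => hB.idem l g) s

include hB in
theorem q_nonneg (s : Finset (Fin n)) (g : G) : 0 ≤ pp (fun l => E l g) s :=
  proj_nonneg (hB.q_star s g) (hB.q_idem s g)

include hB in
theorem q_le_one (s : Finset (Fin n)) (g : G) : pp (fun l => E l g) s ≤ 1 :=
  proj_le_one (hB.q_star s g) (hB.q_idem s g)

theorem q_mem {j : Fin n} {s : Finset (Fin n)} (hj : j ∉ s) (g : G) :
    pp (fun l => E l g) s ∈ Algebra.adjoin ℝ {y | ∃ l k, l ≠ j ∧ y = E l k} := by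
  apply pp_mem
  intro l hl
  exact Algebra.subset_adjoin ⟨l, g, fun h => hj (h ▸ hl), rfl⟩

include hB hW in
theorem W_q (s : Finset (Fin n)) (g : G) :
    W (pp (fun l => E l g) s) = t ^ s.card * W 1 := by
  classical
  induction s using Finset.induction_on with
  | empty => rw [pp_empty]; simp
  | insert a s ha ih =>
    rw [pp_insert (fun l m h => hB.comm l m h g g) (fun l => hB.idem l g), hW.tracial,
      hB.ind a g _ (q_mem ha g), ih, Finset.card_insert_of_notMem ha]
    ring

include hB in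
theorem BB_nonneg (s : Finset (Fin n)) (K : Finset G) : 0 ≤ BB E s K := by
  unfold BB
  exact smul_nonneg (by positivity) (Finset.sum_nonneg fun g _ => hB.q_nonneg s g)

include hB in
theorem BB_le_one (s : Finset (Fin n)) (K : Finset G) : BB E s K ≤ 1 := by
  unfold BB
  have h1 : ∑ g ∈ K, pp (fun l => E l g) s ≤ (K.card : ℝ) • (1 : M) := by
    refine (Finset.sum_le_card_nsmul K _ 1 fun g _ => hB.q_le_one s g).trans (le_of_eq ?_)
    exact (Nat.cast_smul_eq_nsmul ℝ _ _).symm
  rcases K.eq_empty_or_nonempty with rfl | hK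
  · simp
  · have hk : (0 : ℝ) < K.card := by exact_mod_cast hK.card_pos
    calc (K.card : ℝ)⁻¹ • ∑ g ∈ K, pp (fun l => E l g) s
        ≤ (K.card : ℝ)⁻¹ • ((K.card : ℝ) • (1 : M)) :=
          smul_le_smul_of_nonneg_left h1 (by positivity)
      _ = 1 := by rw [smul_smul, inv_mul_cancel₀ hk.ne', one_smul]

include hB hW in
theorem W_BB (s : Finset (Fin n)) {K : Finset G} (hK : K.Nonempty) :
    W (BB E s K) = t ^ s.card * W 1 := by
  have hk : (0 : ℝ) < K.card := by exact_mod_cast hK.card_pos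
  unfold BB
  rw [map_smul, map_sum, Finset.sum_congr rfl (fun g _ => hB.W_q hW s g), Finset.sum_const,
    smul_eq_mul, nsmul_eq_mul]
  field_simp

theorem BB_mem {j : Fin n} {s : Finset (Fin n)} (hj : j ∉ s) (K : Finset G) :
    BB E s K ∈ Algebra.adjoin ℝ {y | ∃ l k, l ≠ j ∧ y = E l k} := by
  unfold BB
  exact Subalgebra.smul_mem _ (Subalgebra.sum_mem _ fun g _ => q_mem hj g) _

/-- the defect projection `(1 - E j g) ∏_{l ≠ j} E l g` summed over `j` is at most one -/
theorem sum_defect_le_one_aux (hB : Block W E t) (g : G) :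
    ∑ j : Fin n, (pp (fun l => E l g) (Finset.univ.erase j) - pp (fun l => E l g) Finset.univ)
      ≤ 1 := by
  classical
  set p : Fin n → M := fun j =>
    pp (fun l => E l g) (Finset.univ.erase j) - pp (fun l => E l g) Finset.univ with hp
  have e2 : ∀ s : Finset (Fin n), Finset.univ ∪ s = Finset.univ := fun s =>
    Finset.union_eq_left.2 (Finset.subset_univ s)
  have e3 : ∀ s : Finset (Fin n), s ∪ Finset.univ = Finset.univ := fun s =>
    Finset.union_eq_right.2 (Finset.subset_univ s)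
  have h1 : ∀ i j, i ≠ j → p i * p j = 0 := by
    intro i j hij
    simp only [hp, sub_mul, mul_sub, hB.q_mul]
    have e1 : (Finset.univ.erase i : Finset (Fin n)) ∪ Finset.univ.erase j = Finset.univ := by
      ext l
      simp only [Finset.mem_union, Finset.mem_erase, Finset.mem_univ, and_true, iff_true]
      by_contra hcon
      push Not at hcon
      exact hij (hcon.1.symm.trans hcon.2)
    rw [e1, e2, e3]
    simp
  have h2 : ∀ i, p i * p i = p i := by
    intro i
    simp only [hp, sub_mul, mul_sub, hB.q_mul, Finset.union_self]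
    rw [e2, e3]
    simp
  have h3 : ∀ i, star (p i) = p i := by
    intro i
    simp only [hp, star_sub, hB.q_star]
  apply proj_le_one
  · rw [star_sum]
    exact Finset.sum_congr rfl fun i _ => h3 i
  · rw [Finset.sum_mul_sum]
    refine Finset.sum_congr rfl fun i _ => ?_
    rw [Finset.sum_eq_single i]
    · exact h2 i
    · intro j _ hj
      exact h1 i j hj.symm
    · intro h; exact absurd (Finset.mem_univ i) h

/-- the difference `C - B` -/
theorem BB_sub (E : Fin n → G → M) (s u : Finset (Fin n)) (K : Finset G) :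
    BB E s K - BB E u K =
      (K.card : ℝ)⁻¹ • ∑ g ∈ K, (pp (fun l => E l g) s - pp (fun l => E l g) u) := by
  unfold BB
  rw [← smul_sub, Finset.sum_sub_distrib]

include hB in
theorem BB_mono {s u : Finset (Fin n)} (hsu : s ⊆ u) (K : Finset G) : BB E u K ≤ BB E s K := by
  rw [← sub_nonneg, BB_sub]
  refine smul_nonneg (by positivity) (Finset.sum_nonneg fun g _ => ?_)
  apply proj_nonneg
  · rw [star_sub, hB.q_star, hB.q_star]
  · simp only [sub_mul, mul_sub, hB.q_mul, Finset.union_self, Finset.union_eq_right.2 hsu,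
      Finset.union_eq_left.2 hsu]
    abel

include hB in
theorem sum_defect_le_one (K : Finset G) :
    ∑ j : Fin n, (BB E (Finset.univ.erase j) K - BB E Finset.univ K) ≤ 1 := by
  have e : ∑ j : Fin n, (BB E (Finset.univ.erase j) K - BB E Finset.univ K) =
      (K.card : ℝ)⁻¹ • ∑ g ∈ K, ∑ j : Fin n,
        (pp (fun l => E l g) (Finset.univ.erase j) - pp (fun l => E l g) Finset.univ) := by
    simp_rw [BB_sub]
    rw [← Finset.smul_sum, Finset.sum_comm]
  rw [e]
  have h1 : ∑ g ∈ K, ∑ j : Fin n,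
        (pp (fun l => E l g) (Finset.univ.erase j) - pp (fun l => E l g) Finset.univ) ≤
      (K.card : ℝ) • (1 : M) := by
    refine (Finset.sum_le_card_nsmul K _ 1 fun g _ => sum_defect_le_one_aux hB g).trans
      (le_of_eq ?_)
    exact (Nat.cast_smul_eq_nsmul ℝ _ _).symm
  rcases K.eq_empty_or_nonempty with rfl | hK
  · simp
  · have hk : (0 : ℝ) < K.card := by exact_mod_cast hK.card_pos
    calc _ ≤ (K.card : ℝ)⁻¹ • ((K.card : ℝ) • (1 : M)) :=
          smul_le_smul_of_nonneg_left h1 (by positivity)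
      _ = 1 := by rw [smul_smul, inv_mul_cancel₀ hk.ne', one_smul]

end

section mean

variable {M : Type*} [CStarAlgebra M] [PartialOrder M] [StarOrderedRing M] {G : Type*} {n : ℕ}
  {W : M →ₗ[ℝ] ℝ} {E : Fin n → G → M} {t : ℝ} (hB : Block W E t) (hW : RTr W)

theorem mul_self_le {p : M} (h0 : 0 ≤ p) (h1 : p ≤ 1) : p * p ≤ p := by
  rw [← sub_nonneg]
  have : p - p * p = p * (1 - p) := by rw [mul_sub, mul_one]
  rw [this]
  exact Commute.mul_nonneg h0 (sub_nonneg.2 h1) ((Commute.refl p).sub_right (Commute.one_right p)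
    |> fun _ => (Commute.one_right p).sub_right (Commute.refl p))

include hW in
theorem term_bound {B P C : M} (hB0 : 0 ≤ B) (hB1 : B ≤ 1) (hP0 : 0 ≤ P) (hP1 : P ≤ 1)
    (hC0 : 0 ≤ C) (hC1 : C ≤ 1) (s r : ℕ) :
    |W (B ^ (s + 1) * P * C ^ r)| ≤ √(W B) * √(W (B * P)) := by
  have e1 : B ^ (s + 1) * P * C ^ r = star (B ^ s) * B * (P * C ^ r) := by
    rw [star_pow, hB0.isSelfAdjoint.star_eq, pow_succ]
    simp only [mul_assoc]
  rw [e1]
  refine (hW.abs_cs_weight hB0 _ _).trans ?_
  have h1 : W (star (B ^ s) * B * B ^ s) ≤ W B := by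
    have e2 : star (B ^ s) * B * B ^ s = B * B ^ (2 * s) := by
      rw [star_pow, hB0.isSelfAdjoint.star_eq, ← pow_succ, ← pow_add, ← pow_succ']
      congr 1
      ring
    rw [e2]
    apply hW.mul_le_of_le_one hB0
    simpa using CStarAlgebra.pow_antitone hB0 hB1 (Nat.zero_le (2 * s))
  have h2 : W (star (P * C ^ r) * B * (P * C ^ r)) ≤ W (B * P) := by
    have e3 : W (star (P * C ^ r) * B * (P * C ^ r)) = W (P * B * P * (C ^ (2 * r))) := by
      rw [star_mul, star_pow, hC0.isSelfAdjoint.star_eq, hP0.isSelfAdjoint.star_eq]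
      rw [show C ^ r * P * B * (P * C ^ r) = C ^ r * (P * B * P * C ^ r) by noncomm_ring]
      rw [hW.tracial, mul_assoc, ← pow_add]
      congr 3
      ring
    rw [e3]
    have h3 : 0 ≤ P * B * P := by
      have := star_left_conjugate_nonneg hB0 P
      rwa [hP0.isSelfAdjoint.star_eq] at this
    have h4 : W (P * B * P * C ^ (2 * r)) ≤ W (P * B * P) := by
      apply hW.mul_le_of_le_one h3
      simpa using CStarAlgebra.pow_antitone hC0 hC1 (Nat.zero_le (2 * r))
    refine h4.trans ?_
    have e4 : W (P * B * P) = W (B * (P * P)) := by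
      rw [mul_assoc, hW.tracial, mul_assoc]
    rw [e4]
    exact hW.mul_le_mul hB0 (mul_self_le hP0 hP1)
  exact mul_le_mul (Real.sqrt_le_sqrt h1) (Real.sqrt_le_sqrt h2) (Real.sqrt_nonneg _)
    (Real.sqrt_nonneg _)

include hW in
theorem telescope {B P C : M} (hB0 : 0 ≤ B) (hB1 : B ≤ 1) (hP0 : 0 ≤ P) (hP1 : P ≤ 1)
    (hC0 : 0 ≤ C) (hC1 : C ≤ 1) (hP : P = C - B) (r s : ℕ) :
    |W (B ^ (s + 1) * (B ^ r - C ^ r))| ≤ r * (√(W B) * √(W (B * P))) := by
  induction r generalizing s with
  | zero => simp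
  | succ r ih =>
    have e : B ^ (s + 1) * (B ^ (r + 1) - C ^ (r + 1)) =
        B ^ (s + 1 + 1) * (B ^ r - C ^ r) - B ^ (s + 1) * P * C ^ r := by
      rw [hP, pow_succ' B r, pow_succ' C r, pow_succ B (s + 1)]
      noncomm_ring
    rw [e, map_sub]
    have h1 := ih (s + 1)
    have h2 := term_bound hW hB0 hB1 hP0 hP1 hC0 hC1 s r
    push_cast
    calc _ ≤ |W (B ^ (s + 1 + 1) * (B ^ r - C ^ r))| + |W (B ^ (s + 1) * P * C ^ r)| :=
          abs_sub _ _
      _ ≤ _ := by linarith

include hB hW in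
theorem ind_pow (j : Fin n) (K : Finset G) (m : ℕ) :
    W (BB E Finset.univ K * BB E (Finset.univ.erase j) K ^ m) =
      t * W (BB E (Finset.univ.erase j) K ^ (m + 1)) := by
  classical
  set C := BB E (Finset.univ.erase j) K with hC
  have hj : j ∉ (Finset.univ.erase j : Finset (Fin n)) := by simp
  have hCm : C ^ m ∈ Algebra.adjoin ℝ {y | ∃ l k, l ≠ j ∧ y = E l k} :=
    Subalgebra.pow_mem _ (BB_mem hj K) m
  have h1 : ∀ g, W (pp (fun l => E l g) Finset.univ * C ^ m) =
      t * W (pp (fun l => E l g) (Finset.univ.erase j) * C ^ m) := by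
    intro g
    have e : pp (fun l => E l g) Finset.univ =
        E j g * pp (fun l => E l g) (Finset.univ.erase j) := by
      conv_lhs => rw [← Finset.insert_erase (Finset.mem_univ j)]
      rw [pp_insert (fun l m h => hB.comm l m h g g) (fun l => hB.idem l g)]
    rw [e, mul_assoc, hW.tracial]
    exact hB.ind j g _ (Subalgebra.mul_mem _ (q_mem hj g) hCm)
  have e2 : ∀ s : Finset (Fin n), BB E s K * C ^ m =
      (K.card : ℝ)⁻¹ • ∑ g ∈ K, pp (fun l => E l g) s * C ^ m := by
    intro s
    unfold BB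
    rw [smul_mul_assoc, Finset.sum_mul]
  have e3 : C ^ (m + 1) = BB E (Finset.univ.erase j) K * C ^ m := by rw [← hC, pow_succ']
  rw [e3, e2, e2, map_smul, map_smul, map_sum, map_sum, Finset.sum_congr rfl fun g _ => h1 g,
    ← Finset.mul_sum]
  simp only [smul_eq_mul]
  ring

include hB hW in
theorem pow_bound (m : ℕ) (K : Finset G) :
    |n * W (BB E Finset.univ K ^ (m + 1)) -
      t * ∑ j : Fin n, W (BB E (Finset.univ.erase j) K ^ (m + 1))| ≤
      m * (√n * W (BB E Finset.univ K)) := by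
  set B := BB E Finset.univ K with hBdef
  set C : Fin n → M := fun j => BB E (Finset.univ.erase j) K with hC
  have hB0 : 0 ≤ B := hB.BB_nonneg _ K
  have hB1 : B ≤ 1 := hB.BB_le_one _ K
  have hC0 : ∀ j, 0 ≤ C j := fun j => hB.BB_nonneg _ K
  have hC1 : ∀ j, C j ≤ 1 := fun j => hB.BB_le_one _ K
  have hBC : ∀ j, B ≤ C j := fun j => hB.BB_mono (Finset.erase_subset _ _) K
  have hP0 : ∀ j, 0 ≤ C j - B := fun j => sub_nonneg.2 (hBC j)
  have hP1 : ∀ j, C j - B ≤ 1 := fun j => (sub_le_self _ hB0).trans (hC1 j)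
  have h1 : ∀ j, |W (B ^ (m + 1)) - t * W (C j ^ (m + 1))| ≤
      m * (√(W B) * √(W (B * (C j - B)))) := by
    intro j
    have h2 := telescope hW hB0 hB1 (hP0 j) (hP1 j) (hC0 j) (hC1 j) rfl m 0
    rw [zero_add, pow_one, mul_sub, map_sub, hB.ind_pow hW j K m, ← pow_succ'] at h2
    exact h2
  have e : n * W (B ^ (m + 1)) - t * ∑ j : Fin n, W (C j ^ (m + 1)) =
      ∑ j : Fin n, (W (B ^ (m + 1)) - t * W (C j ^ (m + 1))) := by
    rw [Finset.sum_sub_distrib, Finset.mul_sum, Finset.sum_const, Finset.card_univ,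
      Fintype.card_fin, nsmul_eq_mul]
  change |n * W (B ^ (m + 1)) - t * ∑ j : Fin n, W (C j ^ (m + 1))| ≤ _
  rw [e]
  refine (Finset.abs_sum_le_sum_abs _ _).trans ?_
  refine (Finset.sum_le_sum fun j _ => h1 j).trans ?_
  rw [← Finset.mul_sum, ← Finset.mul_sum]
  apply mul_le_mul_of_nonneg_left _ (Nat.cast_nonneg m)
  have hWB : 0 ≤ W B := hW.nonneg hB0
  have h3 : ∑ j : Fin n, √(W (B * (C j - B))) ≤ √n * √(W B) := by
    rw [← Real.sqrt_mul (Nat.cast_nonneg n)]
    apply Real.le_sqrt_of_sq_le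
    have h4 := sq_sum_le_card_mul_sum_sq (s := (Finset.univ : Finset (Fin n)))
      (f := fun j => √(W (B * (C j - B))))
    refine h4.trans ?_
    rw [Finset.card_univ, Fintype.card_fin]
    apply mul_le_mul_of_nonneg_left _ (Nat.cast_nonneg n)
    have h5 : ∀ j, √(W (B * (C j - B))) ^ 2 = W (B * (C j - B)) := fun j =>
      Real.sq_sqrt (hW.nonneg_mul hB0 (hP0 j))
    simp_rw [h5]
    rw [← map_sum, ← Finset.mul_sum]
    exact hW.mul_le_of_le_one hB0 (hB.sum_defect_le_one K)
  calc √(W B) * ∑ j : Fin n, √(W (B * (C j - B))) ≤ √(W B) * (√n * √(W B)) :=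
        mul_le_mul_of_nonneg_left h3 (Real.sqrt_nonneg _)
    _ = √n * (√(W B) * √(W B)) := by ring
    _ = √n * W B := by rw [Real.mul_self_sqrt hWB]

include hB hW in
/-- the mean of the increment is small -/
theorem mean_bound (hn : 0 < n) {K : Finset G} (hK : K.Nonempty) {f : Polynomial ℝ}
    (hf : f.coeff 0 = 0) : |W (DD E K f t)| ≤ polyC f / √n * (t ^ n * W 1) := by
  have hn' : (0 : ℝ) < n := by exact_mod_cast hn
  set B := BB E Finset.univ K with hBdef
  set C : Fin n → M := fun j => BB E (Finset.univ.erase j) K with hC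
  have hWB : W B = t ^ n * W 1 := by
    have := hB.W_BB hW Finset.univ hK
    rwa [Finset.card_univ, Fintype.card_fin] at this
  have hWB0 : 0 ≤ W B := hW.nonneg (hB.BB_nonneg _ K)
  have e1 : ∀ b : M, W (aeval b f) =
      ∑ m ∈ Finset.range (f.natDegree + 1), f.coeff m * W (b ^ m) := by
    intro b
    rw [aeval_eq_sum_range, map_sum]
    exact Finset.sum_congr rfl fun m _ => by rw [map_smul, smul_eq_mul]
  have e2 : n * W (DD E K f t) = ∑ m ∈ Finset.range (f.natDegree + 1),
      f.coeff m * (n * W (B ^ m) - t * ∑ j, W (C j ^ m)) := by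
    unfold DD RR
    rw [map_sub, map_smul, map_sum]
    simp_rw [e1]
    rw [Finset.sum_comm, mul_sub, smul_eq_mul]
    simp_rw [mul_sub]
    rw [Finset.sum_sub_distrib, Finset.mul_sum]
    congr 1
    · exact Finset.sum_congr rfl fun m _ => by ring
    · rw [← mul_assoc, mul_div_cancel₀ _ hn'.ne', Finset.mul_sum]
      refine Finset.sum_congr rfl fun m _ => ?_
      rw [← Finset.mul_sum]
      ring
  have h1 : |(n : ℝ) * W (DD E K f t)| ≤ polyC f * (√n * W B) := by
    rw [e2]
    refine (Finset.abs_sum_le_sum_abs _ _).trans ?_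
    unfold polyC
    rw [Finset.sum_mul]
    refine Finset.sum_le_sum fun m _ => ?_
    rw [abs_mul]
    rcases m with _ | m
    · rw [hf]; simp
    · rw [mul_assoc]
      apply mul_le_mul_of_nonneg_left _ (abs_nonneg _)
      refine (hB.pow_bound hW m K).trans ?_
      apply mul_le_mul_of_nonneg_right _ (by positivity)
      push_cast
      linarith
  rw [abs_mul, abs_of_pos hn', hWB] at h1
  have hs : √(n : ℝ) * √n = n := Real.mul_self_sqrt hn'.le
  have hs0 : 0 < √(n : ℝ) := Real.sqrt_pos.2 hn'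
  rw [div_mul_eq_mul_div, le_div_iff₀ hs0]
  have h2 : √n * (|W (DD E K f t)| * √n) ≤ √n * (polyC f * (t ^ n * W 1)) := by
    calc √n * (|W (DD E K f t)| * √n) = (√(n : ℝ) * √n) * |W (DD E K f t)| := by ring
      _ = n * |W (DD E K f t)| := by rw [hs]
      _ ≤ polyC f * (√n * (t ^ n * W 1)) := h1
      _ = _ := by ring
  exact le_of_mul_le_mul_left h2 hs0

end mean

end Block

end Pool.Agent.Lib.EqGamma
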