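import Pool.Agent.Lib.EqGamma.GPoly
import Pool.Agent.Lib.EqGamma.GStep

/-!
Second moments of the elementary increment.
-/

open Polynomial

namespace Pool.Agent.Lib.EqGamma

section general

variable {M : Type*} [CStarAlgebra M] [PartialOrder M] [StarOrderedRing M]
  {W : M →ₗ[ℝ] ℝ} (hW : RTr W)

open GoodPoly in
include hW in
/-- Powers-Stormer inequality for comparable elements -/
theorem powers_stormer {a c : M} (ha : 0 ≤ a) (hac : a ≤ c) :
    W ((rt c - rt a) * (rt c - rt a)) ≤ W (c - a) := by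
  have hc := ha.trans hac
  have e : (rt c - rt a) * (rt c - rt a) = c + a - rt c * rt a - rt a * rt c := by
    rw [mul_sub, sub_mul, sub_mul, rt_mul_self hc, rt_mul_self ha]
    abel
  rw [e, map_sub, map_sub, map_add, map_sub, hW.tracial (rt c) (rt a)]
  have h1 : W a ≤ W (rt a * rt c) := by
    have := hW.mul_le_mul (rt_nonneg a) (rt_mono ha hac)
    rwa [rt_mul_self ha] at this
  linarith

open GoodPoly in
include hW in
/-- two elements dominated by a common `c` -/
theorem rt_sub_rt_le {a b c : M} (ha : 0 ≤ a) (hb : 0 ≤ b) (hac : a ≤ c) (hbc : b ≤ c) :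
    W ((rt a - rt b) * (rt a - rt b)) ≤ 2 * W (c - a) + 2 * W (c - b) := by
  have h1 := hW.sq_sub_le (rt c - rt b) (rt c - rt a)
  have sa : ∀ x : M, star (rt x) = rt x := fun x => (rt_nonneg x).isSelfAdjoint.star_eq
  simp only [star_sub, sa] at h1
  rw [show rt c - rt b - (rt c - rt a) = rt a - rt b by abel] at h1
  have h2 := powers_stormer hW ha hac
  have h3 := powers_stormer hW hb hbc
  linarith

open GoodPoly in
include hW in
/-- weight of `q r(B)` for a projection `q ≤ k B` -/
theorem W_q_rem {q b : M} (hq1 : star q = q) (hq2 : q * q = q) (hb0 : 0 ≤ b) (hb1 : b ≤ 1)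
    {k : ℝ} (hk : 0 ≤ k) (hqb : q ≤ k • b) {f r : Polynomial ℝ} {κ : ℝ} (hf : GoodPoly f κ)
    (hr : X * r = X - f ^ 2) (hr0 : ∀ x, 0 ≤ x → x ≤ 1 → 0 ≤ r.eval x) :
    W (q * aeval b r) ≤ k * κ * W q := by
  set s : M := cfc (fun x => √(r.eval x)) b with hs
  have hcr : Continuous fun x : ℝ => r.eval x := r.continuous
  have hbs := hb0.isSelfAdjoint
  have hs0 : 0 ≤ s := cfc_nonneg fun x _ => Real.sqrt_nonneg _
  have hss : s * s = aeval b r := by
    rw [hs, ← cfc_mul (fun x => √(r.eval x)) (fun x => √(r.eval x)) b (by fun_prop) (by fun_prop),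
      aeval_eq r hb0]
    apply cfc_congr
    intro x hx
    obtain ⟨h1, h2⟩ := spec_mem hb0 hb1 hx
    exact Real.mul_self_sqrt (hr0 x h1 h2)
  have hsbs : s * b * s = cfc (fun x => x - f.eval x ^ 2) b := by
    have e : s * b * s = cfc (fun x => √(r.eval x) * x * √(r.eval x)) b := by
      rw [cfc_mul (fun x => √(r.eval x) * x) (fun x => √(r.eval x)) b (by fun_prop) (by fun_prop),
        cfc_mul (fun x => √(r.eval x)) (fun x => x) b (by fun_prop) (by fun_prop),
        cfc_id' ℝ b hbs]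
    rw [e]
    apply cfc_congr
    intro x hx
    obtain ⟨h1, h2⟩ := spec_mem hb0 hb1 hx
    have h3 := Real.mul_self_sqrt (hr0 x h1 h2)
    have h4 : x * r.eval x = x - f.eval x ^ 2 := by
      have := congrArg (Polynomial.eval x) hr
      simpa using this
    dsimp only
    rw [← h4]
    calc √(r.eval x) * x * √(r.eval x) = x * (√(r.eval x) * √(r.eval x)) := by ring
      _ = _ := by rw [h3]
  have hn1 : ‖s * b * s‖ ≤ κ := by
    rw [hsbs]
    refine norm_cfc_le hf.kappa_nonneg fun x hx => ?_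
    obtain ⟨h1, h2⟩ := spec_mem hb0 hb1 hx
    rw [Real.norm_eq_abs, abs_of_nonneg (by linarith [hf.sq_le x h1 h2])]
    exact hf.approx x h1 h2
  have hss' : star s = s := hs0.isSelfAdjoint.star_eq
  have hn2 : ‖s * q * s‖ ≤ k * κ := by
    have h1 : 0 ≤ s * q * s := by
      have := star_left_conjugate_nonneg (proj_nonneg hq1 hq2) s
      rwa [hss'] at this
    have h2 : s * q * s ≤ s * (k • b) * s := by
      have := star_left_conjugate_le_conjugate hqb s
      rwa [hss'] at this
    refine (CStarAlgebra.norm_le_norm_of_nonneg_of_le h1 h2).trans ?_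
    rw [mul_smul_comm, smul_mul_assoc, norm_smul, Real.norm_eq_abs, abs_of_nonneg hk]
    exact mul_le_mul_of_nonneg_left hn1 hk
  have hn3 : ‖q * (s * s) * q‖ ≤ k * κ := by
    have e1 : q * (s * s) * q = star (s * q) * (s * q) := by
      rw [star_mul, hq1, hss']; noncomm_ring
    have e2 : s * q * s = (s * q) * star (s * q) := by
      rw [star_mul, hq1, hss']
      rw [show s * q * (q * s) = s * (q * q) * s by noncomm_ring, hq2]
    rw [e1, CStarRing.norm_star_mul_self]
    rw [e2, CStarRing.norm_self_mul_star] at hn2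
    exact hn2
  have hpos : 0 ≤ q * (s * s) * q := by
    have h1 : 0 ≤ s * s := by
      have := star_mul_self_nonneg s
      rwa [hss'] at this
    have := star_left_conjugate_nonneg h1 q
    rwa [hq1] at this
  have hle : q * (s * s) * q ≤ algebraMap ℝ M (k * κ) :=
    (IsSelfAdjoint.le_algebraMap_norm_self hpos.isSelfAdjoint).trans
      (algebraMap_mono M hn3)
  have h5 := hW.conj_le hle q
  rw [hq1, hq2] at h5
  have h6 : W (q * aeval b r) = W (q * (q * (s * s) * q) * q) := by
    have : q * (q * (s * s) * q) * q = (q * (s * s)) * q := by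
      rw [show q * (q * (s * s) * q) * q = (q * q) * (s * s) * (q * q) by noncomm_ring, hq2]
    rw [this, hW.tracial (q * (s * s)) q, ← mul_assoc, hq2, hss]
  rw [h6]
  exact h5

end general

namespace Block

variable {M : Type*} [CStarAlgebra M] [PartialOrder M] [StarOrderedRing M] {G : Type*} {n : ℕ}
  {W : M →ₗ[ℝ] ℝ} {E : Fin n → G → M} {t : ℝ} (hB : Block W E t) (hW : RTr W)
  {f : Polynomial ℝ} {κ : ℝ} (hf : GoodPoly f κ) {K K' : Finset G}

include hB in
theorem q_le_smul (s : Finset (Fin n)) {g : G} (hg : g ∈ K) :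
    pp (fun l => E l g) s ≤ (K.card : ℝ) • BB E s K := by
  have hk : (0 : ℝ) < K.card := by exact_mod_cast Finset.card_pos.2 ⟨g, hg⟩
  unfold BB
  rw [smul_smul, mul_inv_cancel₀ hk.ne', one_smul]
  exact Finset.single_le_sum (f := fun g => pp (fun l => E l g) s)
    (fun g _ => hB.q_nonneg s g) hg

include hB hW hf in
/-- `W (B - f(B)^2) ≤ |K| κ W B` -/
theorem W_rem (s : Finset (Fin n)) (hK : K.Nonempty) :
    W (BB E s K - aeval (BB E s K) f * aeval (BB E s K) f) ≤
      K.card * κ * (t ^ s.card * W 1) := by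
  obtain ⟨r, hr, hr0⟩ := hf.exists_rem
  set B := BB E s K with hBdef
  have hk : (0 : ℝ) < K.card := by exact_mod_cast hK.card_pos
  have e1 : B - aeval B f * aeval B f = B * aeval B r := by
    have := congrArg (fun q => aeval B q) hr
    simp only [map_mul, map_sub, aeval_X, map_pow] at this
    rw [this, sq]
  have e2 : B * aeval B r = (K.card : ℝ)⁻¹ • ∑ g ∈ K, pp (fun l => E l g) s * aeval B r := by
    nth_rewrite 1 [hBdef]
    unfold BB
    rw [smul_mul_assoc, Finset.sum_mul]
  rw [e1, e2, map_smul, map_sum, smul_eq_mul]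
  have h1 : ∀ g ∈ K, W (pp (fun l => E l g) s * aeval B r) ≤
      K.card * κ * (t ^ s.card * W 1) := by
    intro g hg
    rw [← hB.W_q hW s g]
    exact W_q_rem hW (hB.q_star s g) (hB.q_idem s g) (hB.BB_nonneg s K) (hB.BB_le_one s K) hk.le
      (hB.q_le_smul s hg) hf hr hr0
  have h2 := Finset.sum_le_sum h1
  rw [Finset.sum_const, nsmul_eq_mul] at h2
  calc _ ≤ (K.card : ℝ)⁻¹ * (K.card * (K.card * κ * (t ^ s.card * W 1))) :=
        mul_le_mul_of_nonneg_left h2 (by positivity)
    _ = _ := by field_simp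

include hB hW hf in
theorem W_fsq_le (s : Finset (Fin n)) (hK : K.Nonempty) :
    W (aeval (BB E s K) f * aeval (BB E s K) f) ≤ t ^ s.card * W 1 := by
  rw [← hB.W_BB hW s hK]
  exact hW.mono (hf.aeval_sq_le (hB.BB_nonneg s K) (hB.BB_le_one s K))

include hB hW hf in
theorem W_fsq_ge (s : Finset (Fin n)) (hK : K.Nonempty) :
    (1 - K.card * κ) * (t ^ s.card * W 1) ≤ W (aeval (BB E s K) f * aeval (BB E s K) f) := by
  have h1 := hB.W_rem hW hf s hK
  rw [map_sub, hB.W_BB hW s hK] at h1
  linarith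

include hB hf in
theorem aeval_star (s : Finset (Fin n)) (K : Finset G) :
    star (aeval (BB E s K) f) = aeval (BB E s K) f :=
  (hf.aeval_nonneg (hB.BB_nonneg s K) (hB.BB_le_one s K)).isSelfAdjoint.star_eq

include hB hf in
theorem RR_star (K : Finset G) : star (RR E K f t) = RR E K f t := by
  unfold RR
  rw [star_smul, star_sum, star_trivial]
  congr 1
  exact Finset.sum_congr rfl fun j _ => hB.aeval_star hf _ K

include hB hf in
theorem DD_star (K : Finset G) : star (DD E K f t) = DD E K f t := by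
  unfold DD
  rw [star_sub, hB.aeval_star hf, hB.RR_star hf]

include hB hW hf in
theorem W_RR_sq_le (hn : 0 < n) (hK : K.Nonempty) :
    W (RR E K f t * RR E K f t) ≤ t * (t ^ n * W 1) := by
  have hn' : (0 : ℝ) < n := by exact_mod_cast hn
  have e1 : W (RR E K f t * RR E K f t) = (t / n) ^ 2 *
      W (star (∑ j, aeval (BB E (Finset.univ.erase j) K) f) *
        (∑ j, aeval (BB E (Finset.univ.erase j) K) f)) := by
    have e0 : W (RR E K f t * RR E K f t) = W (star (RR E K f t) * RR E K f t) := by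
      rw [hB.RR_star hf K]
    rw [e0]
    unfold RR
    rw [RTr.sq_smul]
  rw [e1]
  have h1 := hW.sq_sum_le Finset.univ
    (fun j : Fin n => aeval (BB E (Finset.univ.erase j) K) f)
  rw [Finset.card_univ, Fintype.card_fin] at h1
  have h2 : ∀ j : Fin n, W (star (aeval (BB E (Finset.univ.erase j) K) f) *
      aeval (BB E (Finset.univ.erase j) K) f) ≤ t ^ (n - 1) * W 1 := by
    intro j
    rw [hB.aeval_star hf]
    have := hB.W_fsq_le hW hf (Finset.univ.erase j) hK
    rwa [Finset.card_erase_of_mem (Finset.mem_univ j), Finset.card_univ, Fintype.card_fin] at this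
  have h3 := Finset.sum_le_sum fun j (_ : j ∈ Finset.univ) => h2 j
  rw [Finset.sum_const, Finset.card_univ, Fintype.card_fin, nsmul_eq_mul] at h3
  have h4 : (t / n) ^ 2 * W (star (∑ j, aeval (BB E (Finset.univ.erase j) K) f) *
        (∑ j, aeval (BB E (Finset.univ.erase j) K) f)) ≤
      (t / n) ^ 2 * (n * (n * (t ^ (n - 1) * W 1))) := by
    apply mul_le_mul_of_nonneg_left _ (sq_nonneg _)
    exact h1.trans (mul_le_mul_of_nonneg_left h3 hn'.le)
  refine h4.trans (le_of_eq ?_)
  have e2 : t ^ n = t ^ (n - 1) * t := by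
    rw [← pow_succ]; congr 1; omega
  rw [e2]
  field_simp

include hB hf in
theorem RR_nonneg (ht : 0 ≤ t) (K : Finset G) : 0 ≤ RR E K f t := by
  unfold RR
  exact smul_nonneg (by positivity) (Finset.sum_nonneg fun j _ =>
    hf.aeval_nonneg (hB.BB_nonneg _ K) (hB.BB_le_one _ K))

include hB hf in
theorem RR_le_one (ht : 0 ≤ t) (ht1 : t ≤ 1) (hn : 0 < n) (K : Finset G) : RR E K f t ≤ 1 := by
  have hn' : (0 : ℝ) < n := by exact_mod_cast hn
  unfold RR
  have h1 : ∑ j, aeval (BB E (Finset.univ.erase j) K) f ≤ (n : ℝ) • (1 : M) := by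
    refine (Finset.sum_le_card_nsmul Finset.univ _ 1 fun g _ =>
      hf.aeval_le_one (hB.BB_nonneg _ K) (hB.BB_le_one _ K)).trans (le_of_eq ?_)
    rw [Finset.card_univ, Fintype.card_fin]
    exact (Nat.cast_smul_eq_nsmul ℝ _ _).symm
  calc (t / n) • ∑ j, aeval (BB E (Finset.univ.erase j) K) f
      ≤ (t / n) • ((n : ℝ) • (1 : M)) := smul_le_smul_of_nonneg_left h1 (by positivity)
    _ = t • (1 : M) := by rw [smul_smul, div_mul_cancel₀ _ hn'.ne']
    _ ≤ (1 : ℝ) • (1 : M) := smul_le_smul_of_nonneg_right ht1 zero_le_one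
    _ = 1 := one_smul _ _

include hB hf in
theorem DD_norm_le (ht : 0 ≤ t) (ht1 : t ≤ 1) (hn : 0 < n) (K : Finset G) :
    ‖DD E K f t‖ ≤ 1 := by
  have h1 := hf.aeval_nonneg (hB.BB_nonneg Finset.univ K) (hB.BB_le_one Finset.univ K)
  have h2 := hf.aeval_le_one (hB.BB_nonneg Finset.univ K) (hB.BB_le_one Finset.univ K)
  have h3 := hB.RR_nonneg hf ht K
  have h4 := hB.RR_le_one hf ht ht1 hn K
  have h5 : DD E K f t ≤ algebraMap ℝ M 1 := by
    rw [map_one]
    exact (sub_le_self _ h3).trans h2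
  have h6 : -algebraMap ℝ M 1 ≤ DD E K f t := by
    rw [map_one]
    calc (-1 : M) ≤ - RR E K f t := neg_le_neg h4
      _ ≤ DD E K f t := by
        unfold DD
        rw [sub_eq_add_neg]
        exact le_add_of_nonneg_left h1
  have hsa : IsSelfAdjoint (DD E K f t) := hB.DD_star hf K
  rw [← map_neg] at h6
  have h7 := (le_algebraMap_iff_spectrum_le (R := ℝ) (a := DD E K f t) (r := 1)).1 h5
  have h8 := (algebraMap_le_iff_le_spectrum (R := ℝ) (a := DD E K f t) (r := -1)).1 h6
  rw [← cfc_id ℝ (DD E K f t) hsa]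
  refine norm_cfc_le zero_le_one fun x hx => ?_
  rw [id, Real.norm_eq_abs, abs_le]
  exact ⟨h8 x hx, h7 x hx⟩

include hB hW hf in
theorem W_DD_sq_le (ht : 0 ≤ t) (ht1 : t ≤ 1 / 8) (hn : 0 < n) (hK : K.Nonempty) :
    W (DD E K f t * DD E K f t) ≤ 3 * (t ^ n * W 1) := by
  have hW1 : 0 ≤ W 1 := hW.nonneg zero_le_one
  have h1 := hW.sq_sub_le (aeval (BB E Finset.univ K) f) (RR E K f t)
  rw [star_sub, hB.aeval_star hf, hB.RR_star hf] at h1
  have h2 := hB.W_fsq_le hW hf Finset.univ hK
  rw [Finset.card_univ, Fintype.card_fin] at h2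
  have h3 := hB.W_RR_sq_le hW hf hn hK
  have h4 : 0 ≤ t ^ n * W 1 := by positivity
  unfold DD
  nlinarith

include hB hW hf in
theorem W_DD_sq_ge (ht : 0 ≤ t) (ht1 : t ≤ 1 / 8) (hn : 0 < n) (hK : K.Nonempty)
    (hκ : K.card * κ ≤ 1 / 4) :
    1 / 4 * (t ^ n * W 1) ≤ W (DD E K f t * DD E K f t) := by
  have hW1 : 0 ≤ W 1 := hW.nonneg zero_le_one
  have h1 := hW.sq_add_le (DD E K f t) (RR E K f t)
  have e : DD E K f t + RR E K f t = aeval (BB E Finset.univ K) f := by
    unfold DD; abel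
  rw [e, hB.aeval_star hf, hB.DD_star hf, hB.RR_star hf] at h1
  have h2 := hB.W_fsq_ge hW hf Finset.univ hK
  rw [Finset.card_univ, Fintype.card_fin] at h2
  have h3 := hB.W_RR_sq_le hW hf hn hK
  have h4 : 0 ≤ t ^ n * W 1 := by positivity
  nlinarith

include hB hW hf in
/-- almost invariance of the increment -/
theorem W_DD_sub_sq_le [DecidableEq G] (ht : 0 ≤ t) (hn : 0 < n) (hK : K.Nonempty)
    (hKK : K'.card = K.card) {ε : ℝ} (h1 : ((K \ K').card : ℝ) ≤ ε * K.card) :
    W ((DD E K f t - DD E K' f t) * (DD E K f t - DD E K' f t)) ≤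
      (16 * (ε + K.card * κ) + 8 * t) * (t ^ n * W 1) := by
  have hW1 : 0 ≤ W 1 := hW.nonneg zero_le_one
  have hk : (0 : ℝ) < K.card := by exact_mod_cast hK.card_pos
  have hK' : K'.Nonempty := by
    rw [← Finset.card_pos, hKK]; exact hK.card_pos
  have h2 : ((K' \ K).card : ℝ) ≤ ε * K.card := by
    have : (K' \ K).card = (K \ K').card := by
      have e1 := Finset.card_sdiff_add_card_inter K K'
      have e2 := Finset.card_sdiff_add_card_inter K' K
      rw [Finset.inter_comm] at e2
      omega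
    rw [this]; exact h1
  set B := BB E Finset.univ K with hBdef
  set B' := BB E Finset.univ K' with hBdef'
  set w := t ^ n * W 1 with hw
  have hw0 : 0 ≤ w := by positivity
  have hB0 : 0 ≤ B := hB.BB_nonneg _ K
  have hB1 : B ≤ 1 := hB.BB_le_one _ K
  have hB0' : 0 ≤ B' := hB.BB_nonneg _ K'
  have hB1' : B' ≤ 1 := hB.BB_le_one _ K'
  set c : M := (K.card : ℝ)⁻¹ • ∑ g ∈ K ∪ K', pp (fun l => E l g) Finset.univ with hc
  have key : ∀ L : Finset G, L ⊆ K ∪ K' → L.card = K.card →
      c - BB E Finset.univ L = (K.card : ℝ)⁻¹ • ∑ g ∈ (K ∪ K') \ L,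
        pp (fun l => E l g) Finset.univ := by
    intro L hL hLc
    unfold BB
    rw [hc, hLc, ← smul_sub]
    congr 1
    rw [sub_eq_iff_eq_add]
    exact (Finset.sum_sdiff hL).symm
  have key2 : ∀ L : Finset G, L ⊆ K ∪ K' → L.card = K.card → BB E Finset.univ L ≤ c := by
    intro L hL hLc
    rw [← sub_nonneg, key L hL hLc]
    exact smul_nonneg (by positivity) (Finset.sum_nonneg fun g _ => hB.q_nonneg _ g)
  have key3 : ∀ L : Finset G, L ⊆ K ∪ K' → L.card = K.card →
      (((K ∪ K') \ L).card : ℝ) ≤ ε * K.card → W (c - BB E Finset.univ L) ≤ ε * w := by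
    intro L hL hLc hLe
    rw [key L hL hLc, map_smul, map_sum, Finset.sum_congr rfl fun g _ => hB.W_q hW _ g,
      Finset.sum_const, Finset.card_univ, Fintype.card_fin, nsmul_eq_mul, smul_eq_mul, ← hw]
    calc (K.card : ℝ)⁻¹ * ((((K ∪ K') \ L).card : ℝ) * w) ≤ (K.card : ℝ)⁻¹ * (ε * K.card * w) :=
          mul_le_mul_of_nonneg_left (mul_le_mul_of_nonneg_right hLe hw0) (by positivity)
      _ = ε * w := by field_simp
  have s1 : (K ∪ K') \ K = K' \ K := by
    rw [Finset.union_sdiff_left]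
  have s2 : (K ∪ K') \ K' = K \ K' := by
    rw [Finset.union_sdiff_right]
  have h3 : W (c - B) ≤ ε * w := key3 K Finset.subset_union_left rfl (by rw [s1]; exact h2)
  have h4 : W (c - B') ≤ ε * w := key3 K' Finset.subset_union_right hKK (by rw [s2]; exact h1)
  have h5 := rt_sub_rt_le hW hB0 hB0' (key2 K Finset.subset_union_left rfl)
    (key2 K' Finset.subset_union_right hKK)
  have h6 : W ((GoodPoly.rt B - aeval B f) * (GoodPoly.rt B - aeval B f)) ≤
      K.card * κ * w := by
    refine (hW.mono (hf.rt_sub_sq_le hB0 hB1)).trans ?_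
    have := hB.W_rem hW hf Finset.univ hK
    rwa [Finset.card_univ, Fintype.card_fin] at this
  have h7 : W ((GoodPoly.rt B' - aeval B' f) * (GoodPoly.rt B' - aeval B' f)) ≤
      K.card * κ * w := by
    refine (hW.mono (hf.rt_sub_sq_le hB0' hB1')).trans ?_
    have := hB.W_rem hW hf Finset.univ hK'
    rwa [Finset.card_univ, Fintype.card_fin, hKK] at this
  have sa : ∀ x : M, star (GoodPoly.rt x) = GoodPoly.rt x := fun x =>
    (GoodPoly.rt_nonneg x).isSelfAdjoint.star_eq
  have sf : star (aeval B f) = aeval B f := hB.aeval_star hf _ K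
  have sf' : star (aeval B' f) = aeval B' f := hB.aeval_star hf _ K'
  have h8 := hW.sq_sub_le (GoodPoly.rt B - aeval B f) (GoodPoly.rt B' - aeval B' f)
  rw [star_sub, star_sub, star_sub, sa, sa, sf, sf'] at h8
  have h9 := hW.sq_sub_le (GoodPoly.rt B - GoodPoly.rt B')
    (GoodPoly.rt B - aeval B f - (GoodPoly.rt B' - aeval B' f))
  have e9 : GoodPoly.rt B - GoodPoly.rt B' -
      (GoodPoly.rt B - aeval B f - (GoodPoly.rt B' - aeval B' f)) =
      aeval B f - aeval B' f := by abel
  rw [e9] at h9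
  simp only [star_sub, sa, sf, sf'] at h9
  have h10 := hB.W_RR_sq_le hW hf hn hK
  have h11 := hB.W_RR_sq_le hW hf hn hK'
  have h12 := hW.sq_sub_le (RR E K f t) (RR E K' f t)
  simp only [star_sub, hB.RR_star hf] at h12
  have h13 := hW.sq_sub_le (aeval B f - aeval B' f) (RR E K f t - RR E K' f t)
  simp only [star_sub, sf, sf', hB.RR_star hf] at h13
  have e13 : aeval B f - aeval B' f - (RR E K f t - RR E K' f t) =
      DD E K f t - DD E K' f t := by
    unfold DD; rw [← hBdef, ← hBdef']; abel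
  rw [e13] at h13
  nlinarith

end Block

end Pool.Agent.Lib.EqGamma
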