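import Pool.Agent.Lib.EqGamma.GMart
import Pool.Agent.Lib.EqGamma.GSecond

/-!
From a system of fresh copies to increments.
-/

open Polynomial

namespace Pool.Agent.Lib.EqGamma

section naturality

variable {M N : Type*} [Ring M] [Algebra ℝ M] [Ring N] [Algebra ℝ N] {G : Type*} {n : ℕ}

theorem map_BB (φ : M →ₐ[ℝ] N) (E : Fin n → G → M) (s : Finset (Fin n)) (K : Finset G) :
    φ (BB E s K) = BB (fun l g => φ (E l g)) s K := by
  unfold BB
  rw [map_smul, map_sum]
  congr 1
  exact Finset.sum_congr rfl fun g _ => map_pp φ _ s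

theorem map_DD (φ : M →ₐ[ℝ] N) (E : Fin n → G → M) (K : Finset G) (f : Polynomial ℝ) (t : ℝ) :
    φ (DD E K f t) = DD (fun l g => φ (E l g)) K f t := by
  unfold DD RR
  rw [map_sub, map_smul, map_sum, ← aeval_algHom_apply, map_BB]
  congr 2
  refine Finset.sum_congr rfl fun j _ => ?_
  rw [← aeval_algHom_apply, map_BB]

theorem BB_shift [DecidableEq G] [Group G] (h : G) (E : Fin n → G → M) (s : Finset (Fin n))
    (K : Finset G) : BB (fun l g => E l (h * g)) s K = BB E s (K.image fun g => h * g) := by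
  unfold BB
  have hinj : Function.Injective fun g : G => h * g := mul_right_injective h
  rw [Finset.card_image_of_injective _ hinj, Finset.sum_image (fun x _ y _ hxy => hinj hxy)]

theorem DD_shift [DecidableEq G] [Group G] (h : G) (E : Fin n → G → M) (K : Finset G)
    (f : Polynomial ℝ) (t : ℝ) :
    DD (fun l g => E l (h * g)) K f t = DD E (K.image fun g => h * g) f t := by
  unfold DD RR
  simp_rw [BB_shift]

end naturality

section mem

variable {M : Type*} [CStarAlgebra M] {G : Type*} {n : ℕ}

/-- the inclusion of a star subalgebra as a real algebra hom -/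
noncomputable def subR (S : StarSubalgebra ℂ M) : S →ₐ[ℝ] M :=
  (S.subtype.toAlgHom).restrictScalars ℝ

theorem subR_apply (S : StarSubalgebra ℂ M) (x : S) : subR S x = (x : M) := rfl

theorem DD_mem (S : StarSubalgebra ℂ M) {E : Fin n → G → M} (hE : ∀ l g, E l g ∈ S)
    (K : Finset G) (f : Polynomial ℝ) (t : ℝ) : DD E K f t ∈ S := by
  have h1 := map_DD (subR S) (fun l g => (⟨E l g, hE l g⟩ : S)) K f t
  rw [subR_apply] at h1
  have h2 : DD E K f t = ((DD (fun l g => (⟨E l g, hE l g⟩ : S)) K f t : S) : M) := by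
    rw [h1]
    rfl
  rw [h2]
  exact SetLike.coe_mem _

end mem

section orderfree

variable {M : Type*} [CStarAlgebra M] {G : Type*} {n : ℕ}
  {W : M →ₗ[ℝ] ℝ} {E : Fin n → G → M} {t : ℝ} (hB : Block W E t) (hW : RTr W)
  {f : Polynomial ℝ} {κ : ℝ} (hf : GoodPoly f κ) {K K' : Finset G}

include hB hW in
theorem Block.mean_bound' (hn : 0 < n) (hK : K.Nonempty) (hf : f.coeff 0 = 0) :
    |W (DD E K f t)| ≤ polyC f / √n * (t ^ n * W 1) := by
  let _ := CStarAlgebra.spectralOrder M
  have := CStarAlgebra.spectralOrderedRing M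
  exact hB.mean_bound hW hn hK hf

include hB hf in
theorem Block.DD_star' : star (DD E K f t) = DD E K f t := by
  let _ := CStarAlgebra.spectralOrder M
  have := CStarAlgebra.spectralOrderedRing M
  exact hB.DD_star hf K

include hB hf in
theorem Block.DD_norm_le' (ht : 0 ≤ t) (ht1 : t ≤ 1) (hn : 0 < n) (K : Finset G) :
    ‖DD E K f t‖ ≤ 1 := by
  let _ := CStarAlgebra.spectralOrder M
  have := CStarAlgebra.spectralOrderedRing M
  exact hB.DD_norm_le hf ht ht1 hn K

include hB hW hf in
theorem Block.W_DD_sq_le' (ht : 0 ≤ t) (ht1 : t ≤ 1 / 8) (hn : 0 < n) (hK : K.Nonempty) :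
    W (DD E K f t * DD E K f t) ≤ 3 * (t ^ n * W 1) := by
  let _ := CStarAlgebra.spectralOrder M
  have := CStarAlgebra.spectralOrderedRing M
  exact hB.W_DD_sq_le hW hf ht ht1 hn hK

include hB hW hf in
theorem Block.W_DD_sq_ge' (ht : 0 ≤ t) (ht1 : t ≤ 1 / 8) (hn : 0 < n) (hK : K.Nonempty)
    (hκ : K.card * κ ≤ 1 / 4) :
    1 / 4 * (t ^ n * W 1) ≤ W (DD E K f t * DD E K f t) := by
  let _ := CStarAlgebra.spectralOrder M
  have := CStarAlgebra.spectralOrderedRing M
  exact hB.W_DD_sq_ge hW hf ht ht1 hn hK hκ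

include hB hW hf in
theorem Block.W_DD_sub_sq_le' [DecidableEq G] (ht : 0 ≤ t) (hn : 0 < n) (hK : K.Nonempty)
    (hKK : K'.card = K.card) {ε : ℝ} (h1 : ((K \ K').card : ℝ) ≤ ε * K.card) :
    W ((DD E K f t - DD E K' f t) * (DD E K f t - DD E K' f t)) ≤
      (16 * (ε + K.card * κ) + 8 * t) * (t ^ n * W 1) := by
  let _ := CStarAlgebra.spectralOrder M
  have := CStarAlgebra.spectralOrderedRing M
  exact hB.W_DD_sub_sq_le hW hf ht hn hK hKK h1

end orderfree

/-- a block of copies which is fresh with respect to the algebra `P` -/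
structure FreshBlock {M : Type*} [CStarAlgebra M] {G : Type*} {n : ℕ} (T : M →ₗ[ℝ] ℝ)
    (P : StarSubalgebra ℂ M) (E : Fin n → G → M) (t : ℝ) : Prop where
  idem : ∀ l g, E l g * E l g = E l g
  star_eq : ∀ l g, star (E l g) = E l g
  comm : ∀ l m, l ≠ m → ∀ g k, Commute (E l g) (E m k)
  commP : ∀ z ∈ P, ∀ l g, Commute z (E l g)
  ind : ∀ j g, ∀ x ∈ StarAlgebra.adjoin ℂ ((P : Set M) ∪ {y | ∃ l k, l ≠ j ∧ y = E l k}),
    T (x * E j g) = t * T x

section weight

variable {M : Type*} [CStarAlgebra M] {G : Type*} {n : ℕ}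

/-- the commutant of `z` -/
abbrev cent (z : M) : StarSubalgebra ℂ M := StarSubalgebra.centralizer ℂ {z}

instance isClosed_cent (z : M) : IsClosed ((cent z : StarSubalgebra ℂ M) : Set M) := by
  unfold cent
  rw [StarSubalgebra.coe_centralizer]
  exact Set.isClosed_centralizer _

theorem mem_cent {z x : M} (h1 : Commute z x) (h2 : Commute (star z) x) : x ∈ cent z := by
  unfold cent
  rw [StarSubalgebra.mem_centralizer_iff]
  intro g hg
  rw [Set.mem_singleton_iff] at hg
  subst hg
  exact ⟨h1.eq, h2.eq⟩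

theorem commute_of_mem_cent {z x : M} (h : x ∈ cent z) : Commute z x := by
  unfold cent at h
  rw [StarSubalgebra.mem_centralizer_iff] at h
  exact (h z rfl).1

theorem commute_star_of_mem_cent {z x : M} (h : x ∈ cent z) : Commute (star z) x := by
  unfold cent at h
  rw [StarSubalgebra.mem_centralizer_iff] at h
  exact (h z rfl).2

/-- the weighted functional on the commutant of `z` -/
noncomputable def wt (T : M →ₗ[ℝ] ℝ) (z : M) : cent z →ₗ[ℝ] ℝ where
  toFun x := T (star z * x * z)
  map_add' x y := by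
    rw [← map_add]; congr 1
    push_cast
    noncomm_ring
  map_smul' c x := by
    have : ((c • x : cent z) : M) = c • (x : M) := rfl
    rw [this, mul_smul_comm, smul_mul_assoc, map_smul]
    rfl

theorem wt_apply (T : M →ₗ[ℝ] ℝ) (z : M) (x : cent z) : wt T z x = T (star z * x * z) := rfl

theorem wt_rtr {T : M →ₗ[ℝ] ℝ} (hT : RTr T) (z : M) : RTr (wt T z) where
  nonneg' x := by
    rw [wt_apply]
    have : star z * ((star x * x : cent z) : M) * z = star ((x : M) * z) * (x * z) := by
      push_cast
      rw [star_mul]; noncomm_ring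
    rw [this]
    exact hT.nonneg' _
  tracial x y := by
    rw [wt_apply, wt_apply]
    have hx := commute_of_mem_cent x.2
    have hx' := commute_star_of_mem_cent x.2
    push_cast
    calc T (star z * ((x : M) * y) * z) = T ((x : M) * (star z * y * z)) := by
          congr 1
          rw [← mul_assoc, hx'.eq]
          noncomm_ring
      _ = T (star z * y * z * x) := hT.tracial _ _
      _ = T (star z * ((y : M) * x) * z) := by
          congr 1
          rw [mul_assoc, hx.eq]
          noncomm_ring
  map_star x := by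
    rw [wt_apply, wt_apply, ← hT.map_star]
    congr 1
    have : ((star x : cent z) : M) = star (x : M) := rfl
    rw [star_mul, star_mul, star_star, this, star_star, mul_assoc]

theorem star_mem_adjoin_aux {P : StarSubalgebra ℂ M} {S : Set M} {z : M} (hz : z ∈ P) :
    z ∈ StarAlgebra.adjoin ℂ ((P : Set M) ∪ S) :=
  StarAlgebra.subset_adjoin ℂ _ (Or.inl hz)

theorem FreshBlock.block {T : M →ₗ[ℝ] ℝ} (hT : RTr T) {P : StarSubalgebra ℂ M}
    {E : Fin n → G → M} {t : ℝ} (hF : FreshBlock T P E t) {z : M} (hz : z ∈ P) :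
    Block (wt T z) (fun l g => (⟨E l g, mem_cent (hF.commP z hz l g)
      (hF.commP (star z) (star_mem hz) l g)⟩ : cent z)) t where
  idem l g := Subtype.ext (hF.idem l g)
  star_eq l g := Subtype.ext (hF.star_eq l g)
  comm l m h g k := Subtype.ext (hF.comm l m h g k)
  ind j g x hx := by
    set Q := StarAlgebra.adjoin ℂ ((P : Set M) ∪ {y | ∃ l k, l ≠ j ∧ y = E l k}) with hQ
    have hxQ : (x : M) ∈ Q := by
      induction hx using Algebra.adjoin_induction with
      | mem y hy =>
        obtain ⟨l, k, hl, rfl⟩ := hy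
        exact StarAlgebra.subset_adjoin ℂ _ (Or.inr ⟨l, k, hl, rfl⟩)
      | algebraMap r =>
        have : ((algebraMap ℝ (cent z) r : cent z) : M) = r • (1 : M) := by
          rw [Algebra.algebraMap_eq_smul_one]
          rfl
        rw [this]
        exact StarSubalgebra.real_smul_mem _ (one_mem _) _
      | add y y' _ _ h1 h2 => exact add_mem h1 h2
      | mul y y' _ _ h1 h2 => exact mul_mem h1 h2
    have hzQ : z ∈ Q := star_mem_adjoin_aux hz
    rw [wt_apply, wt_apply]
    have h1 : T (star z * ((x : M) * E j g) * z) = T ((x * z * star z) * E j g) := by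
      have c1 := hF.commP z hz j g
      have c2 := hF.commP (star z) (star_mem hz) j g
      calc T (star z * ((x : M) * E j g) * z) = T (star z * (x * E j g * z)) := by
            congr 1; noncomm_ring
        _ = T ((x * E j g * z) * star z) := hT.tracial _ _
        _ = T ((x * z * star z) * E j g) := by
            congr 1
            rw [mul_assoc (x : M) (E j g) z, ← c1.eq]
            rw [show (x : M) * (z * E j g) * star z = x * z * (E j g * star z) by noncomm_ring]
            rw [← c2.eq]
            noncomm_ring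
    have h2 : T (star z * (x : M) * z) = T (x * z * star z) := by
      rw [mul_assoc, hT.tracial]
    have h3 : T (star z * ((x * ⟨E j g, mem_cent (hF.commP z hz j g)
      (hF.commP (star z) (star_mem hz) j g)⟩ : cent z) : M) * z) =
        T (star z * ((x : M) * E j g) * z) := rfl
    rw [h3, h1, h2]
    exact hF.ind j g _ (mul_mem (mul_mem hxQ hzQ) (star_mem hzQ))

/-- the block in the big algebra -/
theorem FreshBlock.blockT {T : M →ₗ[ℝ] ℝ} {P : StarSubalgebra ℂ M}
    {E : Fin n → G → M} {t : ℝ} (hF : FreshBlock T P E t) : Block T E t where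
  idem := hF.idem
  star_eq := hF.star_eq
  comm := hF.comm
  ind j g x hx := by
    refine hF.ind j g x ?_
    induction hx using Algebra.adjoin_induction with
    | mem y hy =>
      obtain ⟨l, k, hl, rfl⟩ := hy
      exact StarAlgebra.subset_adjoin ℂ _ (Or.inr ⟨l, k, hl, rfl⟩)
    | algebraMap r =>
      rw [Algebra.algebraMap_eq_smul_one]
      exact StarSubalgebra.real_smul_mem _ (one_mem _) _
    | add y y' _ _ h1 h2 => exact add_mem h1 h2
    | mul y y' _ _ h1 h2 => exact mul_mem h1 h2

theorem FreshBlock.incr [DecidableEq G] {T : M →ₗ[ℝ] ℝ} (hT : RTr T) {P : StarSubalgebra ℂ M}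
    {E : Fin n → G → M} {t : ℝ} (hF : FreshBlock T P E t) (ht : 0 ≤ t) (ht1 : t ≤ 1 / 8)
    (hn : 0 < n) {f : Polynomial ℝ} {κ : ℝ} (hf : GoodPoly f κ) {K K' : Finset G}
    (hK : K.Nonempty) (hKK : K'.card = K.card) {ε : ℝ} (hε : ((K \ K').card : ℝ) ≤ ε * K.card)
    (hκ : K.card * κ ≤ 1 / 4) :
    Incr T P (DD E K f t) (DD E K' f t) (t ^ n) (polyC f / √n * t ^ n)
      (16 * (ε + K.card * κ) + 8 * t) := by
  have hK' : K'.Nonempty := by
    rw [← Finset.card_pos, hKK]; exact hK.card_pos
  -- the element of the commutant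
  have hcoe : ∀ z (hz : z ∈ P) (L : Finset G),
      ((DD (fun l g => (⟨E l g, mem_cent (hF.commP z hz l g)
        (hF.commP (star z) (star_mem hz) l g)⟩ : cent z)) L f t : cent z) : M) =
        DD E L f t := by
    intro z hz L
    have := map_DD (subR (cent z)) (fun l g => (⟨E l g, mem_cent (hF.commP z hz l g)
        (hF.commP (star z) (star_mem hz) l g)⟩ : cent z)) L f t
    rw [subR_apply] at this
    rw [this]
    rfl
  have hone : ∀ z : M, wt T z 1 = T (star z * z) := by
    intro z
    rw [wt_apply]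
    simp
  have hmean : ∀ z ∈ P, ∀ L : Finset G, L.Nonempty →
      |T (star z * DD E L f t * z)| ≤ polyC f / √n * t ^ n * T (star z * z) := by
    intro z hz L hL
    have h1 := (hF.block hT hz).mean_bound' (wt_rtr hT z) hn hL hf.coeff_zero
    rw [wt_apply, hcoe z hz, hone] at h1
    exact h1.trans (le_of_eq (by ring))
  have hcm : ∀ z ∈ P, ∀ L : Finset G, Commute z (DD E L f t) := by
    intro z hz L
    rw [← hcoe z hz L]
    exact commute_of_mem_cent (SetLike.coe_mem _)
  refine ⟨hF.blockT.DD_star' hf, hF.blockT.DD_star' hf,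
    hF.blockT.DD_norm_le' hf ht (by linarith) hn K,
    hF.blockT.DD_norm_le' hf ht (by linarith) hn K', fun z hz => hcm z hz K,
    fun z hz => hcm z hz K', fun z hz => hmean z hz K hK, fun z hz => hmean z hz K' hK',
    ?_, ?_, ?_⟩
  · intro z hz
    have h1 := (hF.block hT hz).W_DD_sq_ge' (wt_rtr hT z) hf ht ht1 hn hK hκ
    rw [hone, wt_apply] at h1
    push_cast at h1
    rw [hcoe z hz] at h1
    exact le_trans (le_of_eq (by ring)) h1
  · intro z hz
    have h1 := (hF.block hT hz).W_DD_sq_le' (wt_rtr hT z) hf ht ht1 hn hK'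
    rw [wt_apply, hone] at h1
    push_cast at h1
    rw [hcoe z hz] at h1
    exact h1.trans (le_of_eq (by ring))
  · intro z hz
    have h1 := (hF.block hT hz).W_DD_sub_sq_le' (wt_rtr hT z) hf ht hn hK hKK hε
    rw [wt_apply, hone] at h1
    push_cast at h1
    rw [hcoe z hz, hcoe z hz] at h1
    exact h1.trans (le_of_eq (by ring))

end weight

end Pool.Agent.Lib.EqGamma
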