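import Pool.Agent.Lib.EqGamma.GUlt

/-!
Independence of the copies of a central family along iterated ultrafilters.
-/

open scoped ComplexOrder BoundedContinuousFunction
open Filter Topology

namespace Pool.Agent.Lib.EqGamma

variable {I A G : Type*} [CStarAlgebra A]

/-- families of asymptotically central projections of trace `t l` -/
structure Fam (U : Ultrafilter I) (e : ℕ → G → I → A) (t : ℕ → ℝ) : Prop where
  bdd : ∀ l g i, ‖e l g i‖ ≤ 1
  star_eq : ∀ l g i, star (e l g i) = e l g i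
  proj : ∀ l g, ∀ ε : ℝ, 0 < ε → ∀ᶠ i in (U : Filter I), ∀ τ : A →ₗ[ℂ] ℂ, TracialState τ →
    reT τ (star (e l g i * e l g i - e l g i) * (e l g i * e l g i - e l g i)) ≤ ε
  cen : ∀ l g, ∀ a : A, ∀ ε : ℝ, 0 < ε → ∀ᶠ i in (U : Filter I), ∀ τ : A →ₗ[ℂ] ℂ,
    TracialState τ → reT τ (star (a * e l g i - e l g i * a) * (a * e l g i - e l g i * a)) ≤ ε
  ind : ∀ l g, ∀ a : A, ∀ ε : ℝ, 0 < ε → ∀ᶠ i in (U : Filter I), ∀ τ : A →ₗ[ℂ] ℂ,
    TracialState τ → ‖τ (a * e l g i) - t l * τ a‖ ≤ ε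

theorem Fam.shift {U : Ultrafilter I} {e : ℕ → G → I → A} {t : ℕ → ℝ} (h : Fam U e t) :
    Fam U (fun l => e (l + 1)) (fun l => t (l + 1)) :=
  ⟨fun l => h.bdd (l + 1), fun l => h.star_eq (l + 1), fun l => h.proj (l + 1),
    fun l => h.cen (l + 1), fun l => h.ind (l + 1)⟩

open Classical in
/-- the `l`-th copy as a bounded family on `Fin m → I` -/
noncomputable def hat (m : ℕ) (e : ℕ → G → I → A) (hb : ∀ l g i, ‖e l g i‖ ≤ 1) (l : ℕ) (g : G) :
    BF (Fin m → I) A :=
  if h : l < m then BF.mk (fun ν => e l g (ν ⟨l, h⟩)) 1 (fun _ => hb l g _) else 0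

variable {U : Ultrafilter I} {e : ℕ → G → I → A} {t : ℕ → ℝ}

theorem ev_hat {m : ℕ} (hb : ∀ l g i, ‖e l g i‖ ≤ 1) {l : ℕ} (h : l < m) (g : G)
    (ν : Fin m → I) : BF.ev ν (hat m e hb l g) = e l g (ν ⟨l, h⟩) := by
  unfold hat
  rw [dif_pos h]
  rfl

theorem hat_of_ge {m : ℕ} (hb : ∀ l g i, ‖e l g i‖ ≤ 1) {l : ℕ} (h : ¬ l < m) (g : G) :
    hat m e hb l g = 0 := by
  unfold hat
  rw [dif_neg h]

theorem star_hat {m : ℕ} (hF : Fam U e t) (l : ℕ) (g : G) :
    star (hat m e hF.bdd l g) = hat m e hF.bdd l g := by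
  by_cases h : l < m
  · apply BF.ext
    intro ν
    rw [map_star, ev_hat hF.bdd h, hF.star_eq]
  · rw [hat_of_ge hF.bdd h, star_zero]

theorem comp_hat_succ {m : ℕ} (hb : ∀ l g i, ‖e l g i‖ ≤ 1) (i : I) (l : ℕ) (g : G) :
    BF.comp (cn i) (hat (m + 1) e hb (l + 1) g) =
      hat m (fun l => e (l + 1)) (fun l => hb (l + 1)) l g := by
  apply BF.ext
  intro ν
  rw [BF.ev_comp]
  by_cases h : l < m
  · rw [ev_hat hb (by omega : l + 1 < m + 1), ev_hat _ h]
    rfl
  · rw [hat_of_ge hb (by omega), hat_of_ge _ h, map_zero, map_zero]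

theorem comp_hat_zero {m : ℕ} (hb : ∀ l g i, ‖e l g i‖ ≤ 1) (i : I) (g : G) :
    BF.comp (cn i) (hat (m + 1) e hb 0 g) = (BF.cst (e 0 g i) : BF (Fin m → I) A) := by
  apply BF.ext
  intro ν
  rw [BF.ev_comp, ev_hat hb (Nat.succ_pos m), BF.ev_cst]
  rfl

/-- the tail map -/
def tl {m : ℕ} (ν : Fin (m + 1) → I) : Fin m → I := fun l => ν l.succ

theorem hat_succ_eq {m : ℕ} (hb : ∀ l g i, ‖e l g i‖ ≤ 1) (l : ℕ) (g : G) :
    hat (m + 1) e hb (l + 1) g =
      BF.comp tl (hat m (fun l => e (l + 1)) (fun l => hb (l + 1)) l g) := by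
  apply BF.ext
  intro ν
  rw [BF.ev_comp]
  by_cases h : l < m
  · rw [ev_hat hb (by omega : l + 1 < m + 1), ev_hat _ h]
    rfl
  · rw [hat_of_ge hb (by omega), hat_of_ge _ h, map_zero, map_zero]

theorem comp_cn_tl {m : ℕ} (i : I) (x : BF (Fin m → I) A) :
    BF.comp (cn i) (BF.comp tl x) = x := by
  apply BF.ext
  intro ν
  rfl

theorem hat_cen {m : ℕ} (hF : Fam U e t) (l : ℕ) (g : G) :
    Cen (UP U m : Filter (Fin m → I)) (hat m e hF.bdd l g) := by
  intro a
  by_cases h : l < m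
  · intro ε hε
    have := eventually_marginal U (hF.cen l g a ε hε) (⟨l, h⟩ : Fin m)
    filter_upwards [this] with ν hν τ hτ
    have h1 := hν τ hτ
    simp only [map_sub, map_mul (BF.ev ν), BF.ev_cst, ev_hat hF.bdd h]
    simpa only [map_sub] using h1
  · rw [hat_of_ge hF.bdd h, mul_zero, zero_mul, sub_self]
    exact Nul.zero

theorem hat_proj {m : ℕ} (hF : Fam U e t) (l : ℕ) (g : G) :
    Nul (UP U m : Filter (Fin m → I))
      (hat m e hF.bdd l g * hat m e hF.bdd l g - hat m e hF.bdd l g) := by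
  by_cases h : l < m
  · intro ε hε
    have := eventually_marginal U (hF.proj l g ε hε) (⟨l, h⟩ : Fin m)
    filter_upwards [this] with ν hν τ hτ
    have h1 := hν τ hτ
    have e1 : BF.ev ν (hat m e hF.bdd l g * hat m e hF.bdd l g - hat m e hF.bdd l g) =
        e l g (ν ⟨l, h⟩) * e l g (ν ⟨l, h⟩) - e l g (ν ⟨l, h⟩) := by
      rw [map_sub, map_mul, ev_hat hF.bdd h]
    rw [e1]
    exact h1
  · rw [hat_of_ge hF.bdd h, mul_zero, sub_self]
    exact Nul.zero

theorem hat_comm_aux {m : ℕ} (hF : Fam U e t) {l k : ℕ} (hlk : l < k) (g g' : G) :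
    Nul (UP U m : Filter (Fin m → I))
      (hat m e hF.bdd l g * hat m e hF.bdd k g' - hat m e hF.bdd k g' * hat m e hF.bdd l g) := by
  by_cases h : k < m
  · have h' : l < m := hlk.trans h
    intro ε hε
    have := eventually_pair U (P := fun i i' => ∀ τ : A →ₗ[ℂ] ℂ, TracialState τ →
      reT τ (star (e l g i * e k g' i' - e k g' i' * e l g i) *
        (e l g i * e k g' i' - e k g' i' * e l g i)) ≤ ε)
      (fun i => hF.cen k g' (e l g i) ε hε) (⟨l, h'⟩ : Fin m) ⟨k, h⟩ hlk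
    filter_upwards [this] with ν hν τ hτ
    have h1 := hν τ hτ
    have e1 : BF.ev ν (hat m e hF.bdd l g * hat m e hF.bdd k g' -
        hat m e hF.bdd k g' * hat m e hF.bdd l g) =
        e l g (ν ⟨l, h'⟩) * e k g' (ν ⟨k, h⟩) - e k g' (ν ⟨k, h⟩) * e l g (ν ⟨l, h'⟩) := by
      rw [map_sub, map_mul, map_mul, ev_hat hF.bdd h, ev_hat hF.bdd h']
    rw [e1]
    exact h1
  · rw [hat_of_ge hF.bdd h, mul_zero, zero_mul, sub_self]
    exact Nul.zero

theorem hat_comm {m : ℕ} (hF : Fam U e t) {l k : ℕ} (hlk : l ≠ k) (g g' : G) :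
    Nul (UP U m : Filter (Fin m → I))
      (hat m e hF.bdd l g * hat m e hF.bdd k g' - hat m e hF.bdd k g' * hat m e hF.bdd l g) := by
  rcases lt_or_gt_of_ne hlk with h | h
  · exact hat_comm_aux hF h g g'
  · have := (hat_comm_aux (m := m) hF h g' g).neg
    rwa [neg_sub] at this

section dec

variable {J : Type*}

/-- linear span of products constant times central, plus null families -/
noncomputable def Dec (V : Filter J) (A : Type*) [CStarAlgebra A] : Submodule ℂ (BF J A) :=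
  Submodule.span ℂ {z | ∃ (a : A) (y : BF J A), Cen V y ∧ z = BF.cst a * y} ⊔ nulSub V A

theorem dec_of_nul {V : Filter J} {x : BF J A} (hx : Nul V x) : x ∈ Dec V A :=
  Submodule.mem_sup_right hx

theorem dec_of_cen {V : Filter J} (a : A) {y : BF J A} (hy : Cen V y) :
    BF.cst a * y ∈ Dec V A :=
  Submodule.mem_sup_left (Submodule.subset_span ⟨a, y, hy, rfl⟩)

theorem dec_one (V : Filter J) : (1 : BF J A) ∈ Dec V A := by
  have := dec_of_cen (V := V) (1 : A) Cen.one
  rwa [mul_one, BF.cst_one] at this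

theorem dec_mul_right {V : Filter J} {x : BF J A} (hx : x ∈ Dec V A) {y : BF J A}
    (hy : (∃ b, y = BF.cst b) ∨ Cen V y) : x * y ∈ Dec V A := by
  obtain ⟨s, hs, n, hn, rfl⟩ := Submodule.mem_sup.1 hx
  rw [add_mul]
  refine add_mem ?_ (dec_of_nul (Nul.mul_right hn y))
  clear hx
  induction hs using Submodule.span_induction with
  | mem z hz =>
    obtain ⟨a, y0, hy0, rfl⟩ := hz
    rcases hy with ⟨b, rfl⟩ | hy
    · have e : BF.cst a * y0 * BF.cst b = BF.cst (a * b) * y0 -
          BF.cst a * (BF.cst b * y0 - y0 * BF.cst b) := by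
        rw [BF.cst_mul]; noncomm_ring
      rw [e]
      exact sub_mem (dec_of_cen _ hy0) (dec_of_nul ((hy0 b).mul_left _))
    · rw [mul_assoc]
      exact dec_of_cen _ (hy0.mul hy)
  | zero => rw [zero_mul]; exact zero_mem _
  | add u v _ _ hu hv => rw [add_mul]; exact add_mem hu hv
  | smul c u _ hu => rw [smul_mul_assoc]; exact Submodule.smul_mem _ _ hu

theorem adjoin_le_dec {V : Filter J} {S : Set (BF J A)}
    (hS : ∀ y ∈ S, (∃ b, y = BF.cst b) ∨ Cen V y) {x : BF J A} (hx : x ∈ Algebra.adjoin ℂ S) :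
    x ∈ Dec V A := by
  have key : ∀ z ∈ Dec V A, z * x ∈ Dec V A := by
    induction hx using Algebra.adjoin_induction with
    | mem y hy => exact fun z hz => dec_mul_right hz (hS y hy)
    | algebraMap r =>
      intro z hz
      rw [Algebra.algebraMap_eq_smul_one, mul_smul_comm, mul_one]
      exact Submodule.smul_mem _ _ hz
    | add u v _ _ hu hv =>
      intro z hz
      rw [mul_add]
      exact add_mem (hu z hz) (hv z hz)
    | mul u v _ _ hu hv =>
      intro z hz
      rw [← mul_assoc]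
      exact hv _ (hu z hz)
  have := key 1 (dec_one V)
  rwa [one_mul] at this

theorem polar (y : BF J A) : y = (1 / 4 : ℂ) • (star (y + 1) * (y + 1) - star (y - 1) * (y - 1) +
    Complex.I • (star (y + Complex.I • 1) * (y + Complex.I • 1)) -
    Complex.I • (star (y - Complex.I • 1) * (y - Complex.I • 1))) := by
  have h1 : star (y + 1) * (y + 1) = star y * y + star y + y + 1 := by
    rw [star_add, star_one]
    noncomm_ring
  have h2 : star (y - 1) * (y - 1) = star y * y - star y - y + 1 := by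
    rw [star_sub, star_one]
    noncomm_ring
  have h3 : star (y + Complex.I • 1) * (y + Complex.I • 1) =
      star y * y + Complex.I • star y - Complex.I • y + 1 := by
    rw [star_add, star_smul, star_one, Complex.star_def, Complex.conj_I]
    simp only [add_mul, mul_add, smul_mul_assoc, mul_smul_comm, one_mul, mul_one, smul_add,
      smul_smul, Complex.I_mul_I, one_smul, neg_smul, neg_mul, mul_neg, smul_neg, neg_neg]
    abel
  have h4 : star (y - Complex.I • 1) * (y - Complex.I • 1) =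
      star y * y - Complex.I • star y + Complex.I • y + 1 := by
    rw [star_sub, star_smul, star_one, Complex.star_def, Complex.conj_I]
    simp only [sub_mul, mul_sub, smul_mul_assoc, mul_smul_comm, one_mul, mul_one, smul_sub,
      smul_smul, Complex.I_mul_I, one_smul, neg_smul, neg_mul, mul_neg, smul_neg, neg_neg]
    abel
  rw [h1, h2, h3, h4]
  have i3 : Complex.I * Complex.I = -1 := Complex.I_mul_I
  have e : (star y * y + star y + y + 1 - (star y * y - star y - y + 1) +
      Complex.I • (star y * y + Complex.I • star y - Complex.I • y + 1) -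
      Complex.I • (star y * y - Complex.I • star y + Complex.I • y + 1)) = (4 : ℂ) • y := by
    simp only [smul_add, smul_sub, smul_smul, i3, neg_smul, one_smul]
    rw [show (4 : ℂ) = 1 + 1 + 1 + 1 by norm_num]
    simp only [add_smul, one_smul]
    abel
  rw [e, smul_smul]
  norm_num

end dec

section key

variable {J : Type*} (V : Ultrafilter J) {e0 : I → A} {t0 : ℝ}
  (hind : ∀ a : A, ∀ ε : ℝ, 0 < ε → ∀ᶠ i in (U : Filter I), ∀ τ : A →ₗ[ℂ] ℂ,
    TracialState τ → ‖τ (a * e0 i) - t0 * τ a‖ ≤ ε)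

theorem T_mul_eq_zero {B : Type*} [CStarAlgebra B] {T : B →ₗ[ℂ] ℂ} (hT : TracialState T) {z : B}
    (hz : (T (star z * z)).re = 0) (x : B) : T (x * z) = 0 := by
  let _ := CStarAlgebra.spectralOrder B
  have := CStarAlgebra.spectralOrderedRing B
  have h1 := hT.sq_norm_le (x * z)
  have h2 := hT.rtr.sq_mul_le x z
  rw [reT_apply T (star z * z), hz, mul_zero] at h2
  have h3 : ‖T (x * z)‖ = 0 := by nlinarith [norm_nonneg (T (x * z))]
  exact norm_eq_zero.1 h3

/-- the functional on `A` weighted by a central positive family -/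
noncomputable def rho (τ : J → A →ₗ[ℂ] ℂ) (hτ : ∀ j, TracialState (τ j)) (z : BF J A) :
    A →ₗ[ℂ] ℂ where
  toFun b := Tlim V τ hτ (BF.cst b * (star z * z))
  map_add' b c := by rw [BF.cst_add, add_mul, map_add]
  map_smul' c b := by rw [BF.cst_smul, smul_mul_assoc, map_smul]; rfl

theorem rho_apply (τ : J → A →ₗ[ℂ] ℂ) (hτ : ∀ j, TracialState (τ j)) (z : BF J A) (b : A) :
    rho V τ hτ z b = Tlim V τ hτ (BF.cst b * (star z * z)) := rfl

theorem rho_nonneg (τ : J → A →ₗ[ℂ] ℂ) (hτ : ∀ j, TracialState (τ j)) (z : BF J A) (b : A) :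
    0 ≤ rho V τ hτ z (star b * b) := by
  have hT := Tlim_tracialState V τ hτ
  rw [rho_apply, BF.cst_mul, BF.cst_star]
  have e : Tlim V τ hτ (star (BF.cst b) * BF.cst b * (star z * z)) =
      Tlim V τ hτ (star (BF.cst b * star z) * (BF.cst b * star z)) := by
    rw [star_mul, star_star]
    rw [show star (BF.cst b) * BF.cst b * (star z * z) =
      (star (BF.cst b) * BF.cst b * star z) * z by noncomm_ring]
    rw [hT.tracial]
    congr 1
    noncomm_ring
  rw [e]
  exact hT.nonneg _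

theorem rho_tracial (τ : J → A →ₗ[ℂ] ℂ) (hτ : ∀ j, TracialState (τ j)) {z : BF J A}
    (hz : Cen (V : Filter J) z) (b c : A) : rho V τ hτ z (b * c) = rho V τ hτ z (c * b) := by
  have hT := Tlim_tracialState V τ hτ
  have hw : Cen (V : Filter J) (star z * z) := hz.star.mul hz
  rw [rho_apply, rho_apply, BF.cst_mul, BF.cst_mul]
  have h1 := ((hw b).mul_left (BF.cst c)).Tlim_zero V τ hτ
  generalize star z * z = w at h1 ⊢
  have e : Tlim V τ hτ (BF.cst b * BF.cst c * w) =
      Tlim V τ hτ (BF.cst c * w * BF.cst b) := by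
    rw [mul_assoc, hT.tracial]
  rw [mul_sub, map_sub, sub_eq_zero, ← mul_assoc, ← mul_assoc] at h1
  rw [e, h1]

include hind in
theorem key_pos (a : A) {z : BF J A} (hz : Cen (V : Filter J) z) {ε : ℝ} (hε : 0 < ε) :
    ∀ᶠ i in (U : Filter I), ∀ (τ : J → A →ₗ[ℂ] ℂ) (hτ : ∀ j, TracialState (τ j)),
      ‖Tlim V τ hτ (BF.cst a * (star z * z) * BF.cst (e0 i)) -
        t0 * Tlim V τ hτ (BF.cst a * (star z * z))‖ ≤ ε := by
  filter_upwards [hind a (ε / (‖z‖ ^ 2 + 1)) (by positivity)] with i hi τ hτ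
  have hT := Tlim_tracialState V τ hτ
  have hw : Cen (V : Filter J) (star z * z) := hz.star.mul hz
  have e1 : Tlim V τ hτ (BF.cst a * (star z * z) * BF.cst (e0 i)) =
      rho V τ hτ z (a * e0 i) := by
    have h1 := ((hw (e0 i)).mul_left (BF.cst a)).Tlim_zero V τ hτ
    rw [rho_apply, BF.cst_mul]
    generalize star z * z = w at h1 ⊢
    rw [mul_sub, map_sub, sub_eq_zero, ← mul_assoc, ← mul_assoc] at h1
    rw [h1]
  rw [e1, ← rho_apply]
  obtain ⟨hc1, hc2⟩ := Complex.nonneg_iff.1 (hT.nonneg z)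
  set c : ℝ := (Tlim V τ hτ (star z * z)).re with hc
  have hρ1 : rho V τ hτ z 1 = (c : ℂ) := by
    rw [rho_apply, BF.cst_one, one_mul]
    apply Complex.ext
    · rw [Complex.ofReal_re]
    · rw [Complex.ofReal_im, ← hc2]
  have hcz : c ≤ ‖z‖ ^ 2 := by
    have h2 := hT.norm_le (star z * z)
    rw [CStarRing.norm_star_mul_self, ← sq] at h2
    exact (Complex.re_le_norm _).trans h2
  rcases hc1.eq_or_lt with h0 | hpos
  · have hz0 : ∀ b, rho V τ hτ z b = 0 := by
      intro b
      rw [rho_apply, ← mul_assoc]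
      exact T_mul_eq_zero hT h0.symm _
    rw [hz0, hz0, mul_zero, sub_zero, norm_zero]
    exact hε.le
  · have hcne : (c : ℂ) ≠ 0 := by exact_mod_cast hpos.ne'
    have htr : TracialState ((c⁻¹ : ℂ) • rho V τ hτ z) := by
      refine ⟨?_, ?_, ?_⟩
      · rw [LinearMap.smul_apply, hρ1, smul_eq_mul, inv_mul_cancel₀ hcne]
      · intro x
        rw [LinearMap.smul_apply, smul_eq_mul]
        apply mul_nonneg _ (rho_nonneg V τ hτ z x)
        rw [← Complex.ofReal_inv]
        exact_mod_cast (inv_pos.2 hpos).le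
      · intro x y
        rw [LinearMap.smul_apply, LinearMap.smul_apply, rho_tracial V τ hτ hz]
    have h3 := hi _ htr
    rw [LinearMap.smul_apply, LinearMap.smul_apply, smul_eq_mul, smul_eq_mul] at h3
    have e2 : rho V τ hτ z (a * e0 i) - t0 * rho V τ hτ z a =
        c * ((c⁻¹ : ℂ) * rho V τ hτ z (a * e0 i) - t0 * ((c⁻¹ : ℂ) * rho V τ hτ z a)) := by
      field_simp
    rw [e2, norm_mul, Complex.norm_real, Real.norm_eq_abs, abs_of_pos hpos]
    calc c * ‖(c⁻¹ : ℂ) * rho V τ hτ z (a * e0 i) - t0 * ((c⁻¹ : ℂ) * rho V τ hτ z a)‖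
        ≤ (‖z‖ ^ 2 + 1) * (ε / (‖z‖ ^ 2 + 1)) :=
          mul_le_mul (by linarith) h3 (norm_nonneg _) (by positivity)
      _ = ε := by field_simp

/-- the asymptotic independence property of a family -/
def QQ (V : Ultrafilter J) (U : Ultrafilter I) (e0 : I → A) (t0 : ℝ) (x : BF J A) : Prop :=
  ∀ ε : ℝ, 0 < ε → ∀ᶠ i in (U : Filter I), ∀ (τ : J → A →ₗ[ℂ] ℂ) (hτ : ∀ j, TracialState (τ j)),
      ‖Tlim V τ hτ (x * BF.cst (e0 i)) - t0 * Tlim V τ hτ x‖ ≤ ε

theorem QQ.add {x y : BF J A} (hx : QQ V U e0 t0 x) (hy : QQ V U e0 t0 y) :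
    QQ V U e0 t0 (x + y) := by
  intro ε hε
  filter_upwards [hx (ε / 2) (by positivity), hy (ε / 2) (by positivity)] with i h1 h2 τ hτ
  have h3 := h1 τ hτ
  have h4 := h2 τ hτ
  rw [add_mul, map_add, map_add]
  calc _ = ‖(Tlim V τ hτ (x * BF.cst (e0 i)) - t0 * Tlim V τ hτ x) +
        (Tlim V τ hτ (y * BF.cst (e0 i)) - t0 * Tlim V τ hτ y)‖ := by congr 1; ring
    _ ≤ _ := norm_add_le _ _
    _ ≤ ε := by linarith

theorem QQ.smul {x : BF J A} (hx : QQ V U e0 t0 x) (c : ℂ) : QQ V U e0 t0 (c • x) := by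
  intro ε hε
  filter_upwards [hx (ε / (‖c‖ + 1)) (by positivity)] with i h1 τ hτ
  have h3 := h1 τ hτ
  rw [smul_mul_assoc, map_smul, map_smul, smul_eq_mul, smul_eq_mul]
  calc _ = ‖c * (Tlim V τ hτ (x * BF.cst (e0 i)) - t0 * Tlim V τ hτ x)‖ := by congr 1; ring
    _ = ‖c‖ * ‖Tlim V τ hτ (x * BF.cst (e0 i)) - t0 * Tlim V τ hτ x‖ := norm_mul _ _
    _ ≤ (‖c‖ + 1) * (ε / (‖c‖ + 1)) := mul_le_mul (by linarith) h3 (norm_nonneg _) (by positivity)
    _ = ε := by field_simp

theorem QQ.nul {x : BF J A} (hx : Nul (V : Filter J) x) : QQ V U e0 t0 x := by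
  intro ε hε
  refine Eventually.of_forall fun i τ hτ => ?_
  rw [(hx.mul_right _).Tlim_zero V τ hτ, hx.Tlim_zero V τ hτ, mul_zero, sub_zero, norm_zero]
  exact hε.le

include hind in
theorem QQ.cen (a : A) {y : BF J A} (hy : Cen (V : Filter J) y) :
    QQ V U e0 t0 (BF.cst a * y) := by
  have hp : ∀ z : BF J A, Cen (V : Filter J) z → QQ V U e0 t0 (BF.cst a * (star z * z)) :=
    fun z hz ε hε => key_pos V hind a hz hε
  have h1 : ∀ c : ℂ, Cen (V : Filter J) (c • (1 : BF J A)) := fun c => Cen.one.smul c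
  have hm1 : Cen (V : Filter J) (y - 1) := by
    rw [sub_eq_add_neg]
    have := h1 (-1)
    rw [neg_smul, one_smul] at this
    exact hy.add this
  have hp1 : Cen (V : Filter J) (y + 1) := hy.add Cen.one
  have hpI : Cen (V : Filter J) (y + Complex.I • 1) := hy.add (h1 _)
  have hmI : Cen (V : Filter J) (y - Complex.I • 1) := by
    rw [sub_eq_add_neg, ← neg_smul]
    exact hy.add (h1 _)
  have e : BF.cst a * y = (1 / 4 : ℂ) • (BF.cst a * (star (y + 1) * (y + 1)) +
      (-1 : ℂ) • (BF.cst a * (star (y - 1) * (y - 1))) +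
    Complex.I • (BF.cst a * (star (y + Complex.I • 1) * (y + Complex.I • 1))) +
    (-Complex.I) • (BF.cst a * (star (y - Complex.I • 1) * (y - Complex.I • 1)))) := by
    conv_lhs => rw [polar y]
    rw [mul_smul_comm, mul_sub, mul_add, mul_sub, mul_smul_comm, mul_smul_comm, neg_smul,
      neg_smul, one_smul]
    congr 1
    abel
  rw [e]
  exact ((((hp _ hp1).add V ((hp _ hm1).smul V _)).add V ((hp _ hpI).smul V _)).add V
    ((hp _ hmI).smul V _)).smul V _

include hind in
theorem QQ.dec {x : BF J A} (hx : x ∈ Dec (V : Filter J) A) : QQ V U e0 t0 x := by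
  obtain ⟨s, hs, n, hn, rfl⟩ := Submodule.mem_sup.1 hx
  refine QQ.add V ?_ (QQ.nul V hn)
  clear hx
  induction hs using Submodule.span_induction with
  | mem z hz =>
    obtain ⟨a, y0, hy0, rfl⟩ := hz
    exact QQ.cen V hind a hy0
  | zero => exact QQ.nul V Nul.zero
  | add u v _ _ hu hv => exact hu.add V hv
  | smul c u _ hu => exact hu.smul V c

end key

section ind

/-- the generators other than the `j`-th copy -/
def gens (m : ℕ) (e : ℕ → G → I → A) (hb : ∀ l g i, ‖e l g i‖ ≤ 1) (j : ℕ) :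
    Set (BF (Fin m → I) A) :=
  {x | (∃ a, x = BF.cst a) ∨ ∃ l g, l ≠ j ∧ x = hat m e hb l g}

/-- all generators -/
def gensAll (m : ℕ) (e : ℕ → G → I → A) (hb : ∀ l g i, ‖e l g i‖ ≤ 1) :
    Set (BF (Fin m → I) A) :=
  {x | (∃ a, x = BF.cst a) ∨ ∃ l g, x = hat m e hb l g}

theorem ind_hat : ∀ (m : ℕ) {e : ℕ → G → I → A} {t : ℕ → ℝ} (hF : Fam U e t) (j : ℕ) (_ : j < m)
    (g : G) (x : BF (Fin m → I) A) (_ : x ∈ Algebra.adjoin ℂ (gens m e hF.bdd j))
    (τ : (Fin m → I) → A →ₗ[ℂ] ℂ) (hτ : ∀ ν, TracialState (τ ν)),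
    Tlim (UP U m) τ hτ (x * hat m e hF.bdd j g) = t j * Tlim (UP U m) τ hτ x := by
  intro m
  induction m with
  | zero => intro e t hF j hj; exact absurd hj (Nat.not_lt_zero j)
  | succ m ih =>
    intro e t hF j hj g x hx τ hτ
    rcases j with _ | j
    · -- the outermost copy
      obtain ⟨x', hx', rfl⟩ : ∃ x' ∈ Algebra.adjoin ℂ (gensAll m (fun l => e (l + 1))
          hF.shift.bdd), BF.comp tl x' = x := by
        have h1 : Algebra.adjoin ℂ (gens (m + 1) e hF.bdd 0) ≤
            (Algebra.adjoin ℂ (gensAll m (fun l => e (l + 1)) hF.shift.bdd)).map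
              (BF.comp (A := A) (tl : (Fin (m + 1) → I) → (Fin m → I))).toAlgHom := by
          apply Algebra.adjoin_le
          rintro y (⟨a, rfl⟩ | ⟨l, g', hl, rfl⟩)
          · exact ⟨BF.cst a, Algebra.subset_adjoin (Or.inl ⟨a, rfl⟩), rfl⟩
          · obtain ⟨l', rfl⟩ : ∃ l', l = l' + 1 := ⟨l - 1, by omega⟩
            exact ⟨hat m (fun l => e (l + 1)) hF.shift.bdd l' g',
              Algebra.subset_adjoin (Or.inr ⟨l', g', rfl⟩), (hat_succ_eq hF.bdd l' g').symm⟩
        exact h1 hx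
      have hdec : x' ∈ Dec (UP U m : Filter (Fin m → I)) A := by
        refine adjoin_le_dec ?_ hx'
        rintro y (⟨a, rfl⟩ | ⟨l, g', rfl⟩)
        · exact Or.inl ⟨a, rfl⟩
        · exact Or.inr (hat_cen hF.shift l g')
      have hQ := QQ.dec (UP U m) (hF.ind 0 g) hdec
      have e1 : ∀ i, BF.comp (cn i) (BF.comp tl x' * hat (m + 1) e hF.bdd 0 g) =
          x' * BF.cst (e 0 g i) := by
        intro i
        rw [map_mul, comp_cn_tl, comp_hat_zero]
      have t1 := tendsto_Tlim_succ U τ hτ (BF.comp tl x' * hat (m + 1) e hF.bdd 0 g)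
      have t2 := tendsto_Tlim_succ U τ hτ (BF.comp tl x')
      have t3 := t1.sub (t2.const_mul (t 0 : ℂ))
      have t4 : Tendsto (fun i => Tlim (UP U m) (fun ν => τ (cn i ν)) (fun ν => hτ (cn i ν))
          (BF.comp (cn i) (BF.comp tl x' * hat (m + 1) e hF.bdd 0 g)) -
          (t 0 : ℂ) * Tlim (UP U m) (fun ν => τ (cn i ν)) (fun ν => hτ (cn i ν))
            (BF.comp (cn i) (BF.comp tl x'))) (U : Filter I) (𝓝 0) := by
        rw [Metric.tendsto_nhds]
        intro ε hε
        filter_upwards [hQ (ε / 2) (by positivity)] with i hi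
        have h5 := hi (fun ν => τ (cn i ν)) (fun ν => hτ (cn i ν))
        rw [dist_zero_right, e1, comp_cn_tl]
        linarith
      have h6 := tendsto_nhds_unique t3 t4
      exact sub_eq_zero.1 h6
    · apply Tlim_succ_congr U hτ
      intro i
      rw [map_mul, comp_hat_succ]
      refine ih hF.shift j (by omega) g _ ?_ _ _
      have h1 : Algebra.adjoin ℂ (gens (m + 1) e hF.bdd (j + 1)) ≤
          (Algebra.adjoin ℂ (gens m (fun l => e (l + 1)) hF.shift.bdd j)).comap
            (BF.comp (A := A) (cn (m := m) i)).toAlgHom := by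
        apply Algebra.adjoin_le
        rintro y (⟨a, rfl⟩ | ⟨l, g', hl, rfl⟩)
        · exact Algebra.subset_adjoin (Or.inl ⟨a, rfl⟩)
        · rcases l with _ | l
          · change BF.comp (cn i) (hat (m + 1) e hF.bdd 0 g') ∈
              Algebra.adjoin ℂ (gens m (fun l => e (l + 1)) hF.shift.bdd j)
            rw [comp_hat_zero]
            exact Algebra.subset_adjoin (Or.inl ⟨_, rfl⟩)
          · change BF.comp (cn i) (hat (m + 1) e hF.bdd (l + 1) g') ∈
              Algebra.adjoin ℂ (gens m (fun l => e (l + 1)) hF.shift.bdd j)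
            rw [comp_hat_succ]
            exact Algebra.subset_adjoin (Or.inr ⟨l, g', by omega, rfl⟩)
      exact h1 hx

end ind

end Pool.Agent.Lib.EqGamma
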