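import Pool.Agent.Lib.EqGamma.GGns
import Pool.Agent.Lib.EqGamma.GInd
import Pool.Agent.Lib.EqGamma.GSys

/-!
The limit C-star algebra attached to a central family.
-/

open scoped ComplexOrder BoundedContinuousFunction
open Filter Topology

namespace Pool.Agent.Lib.EqGamma

universe u v

variable {I : Type u} {A : Type v} {G : Type*} [CStarAlgebra A]

theorem exists_limit {U : Ultrafilter I} {e : ℕ → G → I → A} {t : ℕ → ℝ} (hF : Fam U e t)
    (m : ℕ) (τ : (Fin m → I) → A →ₗ[ℂ] ℂ) (hτ : ∀ ν, TracialState (τ ν)) :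
    ∃ (M : Type (max u v)) (_ : CStarAlgebra M) (π : BF (Fin m → I) A →⋆ₐ[ℂ] M)
      (T : M →ₗ[ℝ] ℝ), RTr T ∧ T 1 = 1 ∧
      (∀ x, T (π x) = (Tlim (UP U m) τ hτ x).re) ∧
      (∀ x, Nul (UP U m : Filter (Fin m → I)) x → π x = 0) ∧
      (∀ l g, star (π (hat m e hF.bdd l g)) = π (hat m e hF.bdd l g)) ∧
      (∀ l g, π (hat m e hF.bdd l g) * π (hat m e hF.bdd l g) = π (hat m e hF.bdd l g)) ∧
      (∀ l k g g', l ≠ k → Commute (π (hat m e hF.bdd l g)) (π (hat m e hF.bdd k g'))) ∧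
      (∀ a l g, Commute (π (BF.cst a)) (π (hat m e hF.bdd l g))) ∧
      (∀ j, j < m → ∀ g, ∀ x ∈ StarAlgebra.adjoin ℂ
        (((π.comp (BF.cstHom (Fin m → I) A)).range : Set M) ∪
          {y | ∃ l k, l < m ∧ l ≠ j ∧ y = π (hat m e hF.bdd l k)}),
        T (x * π (hat m e hF.bdd j g)) = t j * T x) := by
  obtain ⟨M, inst, π, T, h1, h2, h3, h4⟩ := exists_quotient (Tlim_tracialState (UP U m) τ hτ)
  have hnul : ∀ x, Nul (UP U m : Filter (Fin m → I)) x → π x = 0 := fun x hx =>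
    h4 x (hx.Tlim_eq (UP U m) τ hτ)
  refine ⟨M, inst, π, T, h1, h2, h3, hnul, ?_, ?_, ?_, ?_, ?_⟩
  · intro l g
    rw [← map_star, star_hat hF]
  · intro l g
    have := hnul _ (hat_proj (m := m) hF l g)
    rw [map_sub, map_mul, sub_eq_zero] at this
    exact this
  · intro l k g g' hlk
    have := hnul _ (hat_comm (m := m) hF hlk g g')
    rw [map_sub, map_mul, map_mul, sub_eq_zero] at this
    exact this
  · intro a l g
    have := hnul _ (hat_cen (m := m) hF l g a)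
    rw [map_sub, map_mul, map_mul, sub_eq_zero] at this
    exact this
  · intro j hj g x hx
    obtain ⟨x', hx', rfl⟩ : ∃ x' ∈ Algebra.adjoin ℂ (gens m e hF.bdd j), π x' = x := by
      have h5 : Algebra.adjoin ℂ ((((π.comp (BF.cstHom (Fin m → I) A)).range : Set M) ∪
          {y | ∃ l k, l < m ∧ l ≠ j ∧ y = π (hat m e hF.bdd l k)}) ∪
          star (((π.comp (BF.cstHom (Fin m → I) A)).range : Set M) ∪
          {y | ∃ l k, l < m ∧ l ≠ j ∧ y = π (hat m e hF.bdd l k)})) ≤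
          (Algebra.adjoin ℂ (gens m e hF.bdd j)).map π.toAlgHom := by
        apply Algebra.adjoin_le
        rintro y (hy | hy)
        · rcases hy with ⟨a, rfl⟩ | ⟨l, k, _, hl, rfl⟩
          · exact ⟨BF.cst a, Algebra.subset_adjoin (Or.inl ⟨a, rfl⟩), rfl⟩
          · exact ⟨_, Algebra.subset_adjoin (Or.inr ⟨l, k, hl, rfl⟩), rfl⟩
        · rcases hy with ⟨a, ha⟩ | ⟨l, k, _, hl, hk⟩
          · refine ⟨BF.cst (star a), Algebra.subset_adjoin (Or.inl ⟨star a, rfl⟩), ?_⟩
            have : y = star (π (BF.cst a)) := by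
              rw [← star_star y]
              exact congrArg star ha.symm
            rw [this]
            change π (BF.cst (star a)) = _
            rw [BF.cst_star, map_star]
          · refine ⟨_, Algebra.subset_adjoin (Or.inr ⟨l, k, hl, rfl⟩), ?_⟩
            have : y = star (π (hat m e hF.bdd l k)) := by
              rw [← star_star y, hk]
            rw [this, ← map_star, star_hat hF]
            rfl
      exact h5 hx
    rw [← map_mul, h3, h3, ind_hat m hF j hj g x' hx' τ hτ, Complex.re_ofReal_mul]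

theorem exists_fresh {U : Ultrafilter I} {e : ℕ → G → I → A} {t : ℝ}
    (hF : Fam U e (fun _ => t))
    (m : ℕ) (τ : (Fin m → I) → A →ₗ[ℂ] ℂ) (hτ : ∀ ν, TracialState (τ ν)) :
    ∃ (M : Type (max u v)) (_ : CStarAlgebra M) (π : BF (Fin m → I) A →⋆ₐ[ℂ] M)
      (T : M →ₗ[ℝ] ℝ), RTr T ∧ T 1 = 1 ∧
      (∀ x, T (π x) = (Tlim (UP U m) τ hτ x).re) ∧
      Fresh T (π.comp (BF.cstHom (Fin m → I) A)).range
        (fun l g => π (hat m e hF.bdd l g)) m t := by
  obtain ⟨M, inst, π, T, h1, h2, h3, h4, h5, h6, h7, h8, h9⟩ := exists_limit hF m τ hτ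
  refine ⟨M, inst, π, T, h1, h2, h3, ?_⟩
  refine ⟨fun l _ g => h6 l g, fun l _ g => h5 l g, fun l _ k _ hlk g g' => h7 l k g g' hlk, ?_,
    fun j hj g x hx => h9 j hj g x hx⟩
  rintro _ ⟨a, rfl⟩ l _ g
  exact h8 a l g

end Pool.Agent.Lib.EqGamma
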