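import Mathlib

/-!
Functional calculus of a finite combination of orthogonal projections.
-/

open Polynomial

namespace Pool.Agent.Lib.EqGamma

section

variable {M : Type*} [CStarAlgebra M] {ι : Type*} [Fintype ι] [DecidableEq ι] {R : ι → M}
  {c : ι → ℝ} (hsum : ∑ i, R i = 1) (horth : ∀ i j, i ≠ j → R i * R j = 0)
  (hidem : ∀ i, R i * R i = R i)

include horth hidem in
theorem comb_mul (a b : ι → ℝ) :
    (∑ i, a i • R i) * (∑ i, b i • R i) = ∑ i, (a i * b i) • R i := by
  rw [Finset.sum_mul_sum]
  refine Finset.sum_congr rfl fun i _ => ?_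
  rw [Finset.sum_eq_single i]
  · rw [smul_mul_smul_comm, hidem]
  · intro j _ hj
    rw [smul_mul_smul_comm, horth i j hj.symm, smul_zero]
  · intro h; exact absurd (Finset.mem_univ i) h

include hsum horth hidem in
theorem comb_pow (k : ℕ) : (∑ i, c i • R i) ^ k = ∑ i, (c i ^ k) • R i := by
  induction k with
  | zero => simp [hsum]
  | succ k ih =>
    rw [pow_succ, ih, comb_mul horth hidem]
    simp_rw [pow_succ]

include hsum horth hidem in
theorem comb_aeval (q : Polynomial ℝ) :
    aeval (∑ i, c i • R i) q = ∑ i, (q.eval (c i)) • R i := by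
  rw [aeval_eq_sum_range]
  simp_rw [comb_pow hsum horth hidem, Finset.smul_sum]
  rw [Finset.sum_comm]
  refine Finset.sum_congr rfl fun i _ => ?_
  rw [eval_eq_sum_range, Finset.sum_smul]
  refine Finset.sum_congr rfl fun k _ => ?_
  rw [smul_smul]

include hsum horth hidem in
theorem comb_spectrum {s : ℝ} (hs : s ∈ spectrum ℝ (∑ i, c i • R i)) : ∃ i, s = c i := by
  by_contra hcon
  push Not at hcon
  apply hs
  have e : algebraMap ℝ M s - ∑ i, c i • R i = ∑ i, (s - c i) • R i := by
    rw [Algebra.algebraMap_eq_smul_one, ← hsum, Finset.smul_sum, ← Finset.sum_sub_distrib]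
    simp_rw [sub_smul]
  have h1 : (∑ i, (s - c i) • R i) * (∑ i, (s - c i)⁻¹ • R i) = 1 := by
    rw [comb_mul horth hidem, ← hsum]
    refine Finset.sum_congr rfl fun i _ => ?_
    rw [mul_inv_cancel₀ (sub_ne_zero.2 (hcon i)), one_smul]
  have h2 : (∑ i, (s - c i)⁻¹ • R i) * (∑ i, (s - c i) • R i) = 1 := by
    rw [comb_mul horth hidem, ← hsum]
    refine Finset.sum_congr rfl fun i _ => ?_
    rw [inv_mul_cancel₀ (sub_ne_zero.2 (hcon i)), one_smul]
  rw [spectrum.mem_resolventSet_iff, e]
  exact ⟨⟨_, _, h1, h2⟩, rfl⟩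

include hsum horth hidem in
theorem comb_cfc (hstar : ∀ i, star (R i) = R i) (hc : Function.Injective c) (h : ℝ → ℝ) :
    cfc h (∑ i, c i • R i) = ∑ i, h (c i) • R i := by
  have hsa : IsSelfAdjoint (∑ i, c i • R i) := by
    rw [isSelfAdjoint_iff, star_sum]
    refine Finset.sum_congr rfl fun i _ => ?_
    rw [star_smul, star_trivial, hstar]
  set q := Lagrange.interpolate Finset.univ c (fun i => h (c i)) with hq
  have hqe : ∀ i, q.eval (c i) = h (c i) := fun i =>
    Lagrange.eval_interpolate_at_node _ (hc.injOn) (Finset.mem_univ i)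
  have h1 : cfc h (∑ i, c i • R i) = cfc q.eval (∑ i, c i • R i) := by
    apply cfc_congr
    intro s hs
    obtain ⟨i, rfl⟩ := comb_spectrum hsum horth hidem hs
    exact (hqe i).symm
  rw [h1, cfc_polynomial q _ hsa, comb_aeval hsum horth hidem]
  simp_rw [hqe]

end

section seq

variable {M : Type*} [Ring M]

/-- complement products -/
def cc (P : ℕ → M) : ℕ → M
  | 0 => 1
  | j + 1 => cc P j * (1 - P j)

/-- the `j`-th piece -/
def pc (P : ℕ → M) (n : ℕ) (j : ℕ) : M := if j < n then cc P j * P j else cc P n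

theorem map_cc {N F : Type*} [Ring N] [FunLike F M N] [RingHomClass F M N] (φ : F) (P : ℕ → M)
    (j : ℕ) : φ (cc P j) = cc (fun l => φ (P l)) j := by
  induction j with
  | zero => simp [cc]
  | succ j ih => simp [cc, ih]

theorem map_pc {N F : Type*} [Ring N] [FunLike F M N] [RingHomClass F M N] (φ : F) (P : ℕ → M)
    (n j : ℕ) : φ (pc P n j) = pc (fun l => φ (P l)) n j := by
  unfold pc
  split_ifs
  · rw [map_mul, map_cc]
  · rw [map_cc]

theorem sum_pc (P : ℕ → M) (n : ℕ) : ∑ j : Fin (n + 1), pc P n j = 1 := by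
  rw [Fin.sum_univ_eq_sum_range (fun j => pc P n j), Finset.sum_range_succ]
  have h1 : ∑ j ∈ Finset.range n, pc P n j = ∑ j ∈ Finset.range n, cc P j * P j := by
    refine Finset.sum_congr rfl fun j hj => ?_
    unfold pc
    rw [if_pos (Finset.mem_range.1 hj)]
  have h2 : pc P n n = cc P n := by
    unfold pc
    rw [if_neg (lt_irrefl n)]
  rw [h1, h2]
  induction n with
  | zero => simp [cc]
  | succ n ih =>
    rw [Finset.sum_range_succ]
    have : cc P (n + 1) = cc P n - cc P n * P n := by
      rw [cc, mul_sub, mul_one]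
    rw [this]
    have ih' : ∑ j ∈ Finset.range n, cc P j * P j + cc P n = 1 := by
      apply ih
      · refine Finset.sum_congr rfl fun j hj => ?_
        unfold pc
        rw [if_pos (Finset.mem_range.1 hj)]
      · unfold pc
        rw [if_neg (lt_irrefl n)]
    rw [← ih']
    abel

variable {P : ℕ → M} (hcomm : ∀ l k, Commute (P l) (P k)) (hid : ∀ l, P l * P l = P l)

include hcomm in
theorem commute_cc (x : M) (hx : ∀ l, Commute x (P l)) (j : ℕ) : Commute x (cc P j) := by
  induction j with
  | zero => exact Commute.one_right x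
  | succ j ih => exact ih.mul_right ((Commute.one_right x).sub_right (hx j))

include hcomm hid in
theorem cc_mul_of_lt {i j : ℕ} (h : i < j) : cc P j * P i = 0 := by
  induction j with
  | zero => exact absurd h (Nat.not_lt_zero i)
  | succ j ih =>
    rcases Nat.lt_succ_iff_lt_or_eq.1 h with h' | rfl
    · rw [cc, mul_assoc, sub_mul, one_mul, (hcomm j i).eq, ← mul_one_sub, ← mul_assoc, ih h',
        zero_mul]
    · rw [cc, mul_assoc, sub_mul, one_mul, hid, sub_self, mul_zero]

include hcomm hid in
theorem cc_idem (j : ℕ) : cc P j * cc P j = cc P j := by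
  induction j with
  | zero => simp [cc]
  | succ j ih =>
    have h1 : Commute (1 - P j) (cc P j) :=
      commute_cc hcomm _ (fun l => (Commute.one_left _).sub_left (hcomm j l)) j
    have h2 : (1 - P j) * (1 - P j) = 1 - P j := by
      have : (1 - P j) * (1 - P j) = 1 - P j - P j + P j * P j := by noncomm_ring
      rw [this, hid]; abel
    rw [cc]
    calc cc P j * (1 - P j) * (cc P j * (1 - P j))
        = cc P j * ((1 - P j) * cc P j) * (1 - P j) := by noncomm_ring
      _ = cc P j * (cc P j * (1 - P j)) * (1 - P j) := by rw [h1.eq]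
      _ = (cc P j * cc P j) * ((1 - P j) * (1 - P j)) := by noncomm_ring
      _ = _ := by rw [ih, h2]

include hcomm hid in
theorem cc_mul_cc {i j : ℕ} (h : i ≤ j) : cc P j * cc P i = cc P j := by
  induction h with
  | refl => exact cc_idem hcomm hid i
  | step h ih =>
    rename_i m
    have h1 : Commute (1 - P m) (cc P i) :=
      commute_cc hcomm _ (fun l => (Commute.one_left _).sub_left (hcomm m l)) i
    rw [cc, mul_assoc, h1.eq, ← mul_assoc, ih]

include hcomm hid in
theorem pc_orth_aux {n i j : ℕ} (h : i < j) (hj : j ≤ n) : pc P n j * pc P n i = 0 := by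
  have hi : i < n := lt_of_lt_of_le h hj
  have hPc : Commute (P j) (cc P i * P i) :=
    (commute_cc hcomm _ (fun l => hcomm j l) i).mul_right (hcomm j i)
  have key : cc P j * (cc P i * P i) = 0 := by
    rw [← mul_assoc, cc_mul_cc hcomm hid h.le, cc_mul_of_lt hcomm hid h]
  unfold pc
  rw [if_pos hi]
  split_ifs with h1
  · rw [mul_assoc, hPc.eq, ← mul_assoc, key, zero_mul]
  · have : j = n := le_antisymm hj (not_lt.1 h1)
    subst this
    exact key

include hcomm in
theorem pc_comm (n i j : ℕ) : Commute (pc P n i) (pc P n j) := by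
  have h1 : ∀ l k, Commute (P l) (cc P k) := fun l k => commute_cc hcomm _ (fun m => hcomm l m) k
  have h2 : ∀ l k, Commute (cc P l) (cc P k) := fun l k =>
    commute_cc hcomm _ (fun m => (h1 m l).symm) k
  unfold pc
  split_ifs
  · exact ((h2 i j).mul_left (h1 i j)).mul_right (((h1 j i).symm).mul_left (hcomm i j))
  · exact (h2 i n).mul_left (h1 i n)
  · exact (h2 n j).mul_right ((h1 j n).symm)
  · exact Commute.refl _

include hcomm hid in
theorem pc_orth {n i j : ℕ} (h : i ≠ j) (hi : i ≤ n) (hj : j ≤ n) : pc P n i * pc P n j = 0 := by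
  rcases lt_or_gt_of_ne h with h' | h'
  · rw [(pc_comm hcomm n i j).eq]
    exact pc_orth_aux hcomm hid h' hj
  · exact pc_orth_aux hcomm hid h' hi

include hcomm hid in
theorem pc_idem (n j : ℕ) : pc P n j * pc P n j = pc P n j := by
  have h1 : Commute (P j) (cc P j) := commute_cc hcomm _ (fun m => hcomm j m) j
  unfold pc
  split_ifs
  · calc cc P j * P j * (cc P j * P j) = cc P j * (P j * cc P j) * P j := by noncomm_ring
      _ = cc P j * (cc P j * P j) * P j := by rw [h1.eq]
      _ = (cc P j * cc P j) * (P j * P j) := by noncomm_ring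
      _ = _ := by rw [cc_idem hcomm hid, hid]
  · exact cc_idem hcomm hid n

theorem cc_star [StarRing M] (hcomm : ∀ l k, Commute (P l) (P k)) (hs : ∀ l, star (P l) = P l)
    (j : ℕ) : star (cc P j) = cc P j := by
  induction j with
  | zero => simp [cc]
  | succ j ih =>
    rw [cc, star_mul, ih, star_sub, star_one, hs]
    exact (commute_cc hcomm _ (fun l => (Commute.one_left _).sub_left (hcomm j l)) j).eq

theorem pc_star [StarRing M] (hcomm : ∀ l k, Commute (P l) (P k)) (hs : ∀ l, star (P l) = P l)
    (n j : ℕ) : star (pc P n j) = pc P n j := by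
  unfold pc
  split_ifs
  · rw [star_mul, hs, cc_star hcomm hs]
    exact (commute_cc hcomm _ (fun m => hcomm j m) j).eq
  · exact cc_star hcomm hs n

end seq

end Pool.Agent.Lib.EqGamma
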