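import Pool.Agent.Lib.EqGamma.GLim

/-!
The quotient by the null ideal of a tracial state, through the GNS representation.
-/

open scoped ComplexOrder InnerProductSpace
open Filter Topology UniformSpace

namespace Pool.Agent.Lib.EqGamma

universe u

theorem exists_quotient {B : Type u} [CStarAlgebra B] {T : B →ₗ[ℂ] ℂ} (hT : TracialState T) :
    ∃ (M : Type u) (_ : CStarAlgebra M) (π : B →⋆ₐ[ℂ] M) (T' : M →ₗ[ℝ] ℝ), RTr T' ∧ T' 1 = 1 ∧
      (∀ x, T' (π x) = (T x).re) ∧ (∀ x, T (star x * x) = 0 → π x = 0) := by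
  let _ := CStarAlgebra.spectralOrder B
  have := CStarAlgebra.spectralOrderedRing B
  let f : B →ₚ[ℂ] ℂ := PositiveLinearMap.mk₀ T (fun a ha => by
    obtain ⟨y, rfl⟩ := CStarAlgebra.nonneg_iff_eq_star_mul_self.1 ha
    exact hT.nonneg y)
  have hf : ∀ x, f x = T x := fun _ => rfl
  let H := f.GNS
  let π₀ : B →⋆ₐ[ℂ] (H →L[ℂ] H) := f.gnsStarAlgHom
  let S : StarSubalgebra ℂ (H →L[ℂ] H) := π₀.range.topologicalClosure
  have hcl : IsClosed (S : Set (H →L[ℂ] H)) := StarSubalgebra.isClosed_topologicalClosure _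
  have hπ₀ : ∀ (x : B) (b : f.PreGNS), π₀ x (b : H) =
      ((f.toPreGNS (x * f.ofPreGNS b) : f.PreGNS) : H) := by
    intro x b
    change f.gnsStarAlgHom x (b : H) = _
    rw [PositiveLinearMap.gnsStarAlgHom_apply]
    exact PositiveLinearMap.gnsNonUnitalStarAlgHom_apply_coe f
  let ξ : H := ((f.toPreGNS 1 : f.PreGNS) : H)
  have hinner : ∀ x, ⟪ξ, π₀ x ξ⟫_ℂ = T x := by
    intro x
    rw [hπ₀, Completion.inner_coe, PositiveLinearMap.preGNS_inner_def]
    simp [hf]
  let π : B →⋆ₐ[ℂ] S := π₀.codRestrict S (fun x =>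
    StarSubalgebra.le_topologicalClosure _ ⟨x, rfl⟩)
  have hπ : ∀ x, ((π x : S) : H →L[ℂ] H) = π₀ x := fun _ => rfl
  let T' : S →ₗ[ℝ] ℝ :=
    { toFun := fun a => (⟪ξ, (a : H →L[ℂ] H) ξ⟫_ℂ).re
      map_add' := fun a b => by
        rw [show ((a + b : S) : H →L[ℂ] H) = (a : H →L[ℂ] H) + b from rfl,
          ContinuousLinearMap.add_apply, inner_add_right, Complex.add_re]
      map_smul' := fun c a => by
        rw [show ((c • a : S) : H →L[ℂ] H) = (c : ℂ) • (a : H →L[ℂ] H) from rfl,
          ContinuousLinearMap.smul_apply, inner_smul_right, Complex.re_ofReal_mul]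
        rfl }
  have hT' : ∀ a : S, T' a = (⟪ξ, (a : H →L[ℂ] H) ξ⟫_ℂ).re := fun _ => rfl
  have hT'π : ∀ x, T' (π x) = (T x).re := by
    intro x
    rw [hT', hπ, hinner]
  have hT'c : Continuous T' := by
    have h1 : Continuous fun a : S => (a : H →L[ℂ] H) ξ :=
      (ContinuousLinearMap.apply ℂ H ξ).continuous.comp continuous_subtype_val
    exact Complex.continuous_re.comp (continuous_const.inner h1)
  have hdense : DenseRange π := by
    intro a
    rw [closure_subtype]
    have h2 : Subtype.val '' (Set.range π) = (π₀.range : Set (H →L[ℂ] H)) := by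
      ext b
      constructor
      · rintro ⟨_, ⟨x, rfl⟩, rfl⟩
        exact ⟨x, rfl⟩
      · rintro ⟨x, rfl⟩
        exact ⟨π x, ⟨x, rfl⟩, rfl⟩
    rw [h2, ← StarSubalgebra.topologicalClosure_coe]
    exact a.2
  refine ⟨S, inferInstance, π, T', ⟨?_, ?_, ?_⟩, ?_, hT'π, ?_⟩
  · intro a
    rw [hT', show ((star a * a : S) : H →L[ℂ] H) = star (a : H →L[ℂ] H) * a from rfl,
      ContinuousLinearMap.mul_apply, ContinuousLinearMap.star_eq_adjoint,
      ContinuousLinearMap.adjoint_inner_right]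
    exact inner_self_nonneg (𝕜 := ℂ)
  · intro a b
    refine hdense.induction_on₂ (p := fun a b => T' (a * b) = T' (b * a)) ?_ (fun x y => ?_) a b
    · exact isClosed_eq (hT'c.comp continuous_mul)
        (hT'c.comp (continuous_snd.mul continuous_fst))
    · rw [← map_mul, ← map_mul, hT'π, hT'π, hT.tracial]
  · intro a
    rw [hT', hT', show ((star a : S) : H →L[ℂ] H) = star (a : H →L[ℂ] H) from rfl,
      ContinuousLinearMap.star_eq_adjoint, ContinuousLinearMap.adjoint_inner_right,
      ← inner_conj_symm, Complex.conj_re]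
  · rw [← map_one π, hT'π, hT.map_one, Complex.one_re]
  · intro x hx
    apply Subtype.ext
    rw [hπ]
    change π₀ x = 0
    ext b
    induction b using Completion.induction_on with
    | hp => exact isClosed_eq (π₀ x).continuous (0 : H →L[ℂ] H).continuous
    | ih b =>
      rw [hπ₀]
      change ((f.toPreGNS (x * f.ofPreGNS b) : f.PreGNS) : H) = 0
      rw [← norm_eq_zero, Completion.norm_coe]
      have h1 : ‖f.toPreGNS (x * f.ofPreGNS b)‖ ^ 2 = reT T (star (x * f.ofPreGNS b) *
          (x * f.ofPreGNS b)) := by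
        have := PositiveLinearMap.preGNS_norm_sq f (f.toPreGNS (x * f.ofPreGNS b))
        rw [PositiveLinearMap.ofPreGNS_toPreGNS, hf] at this
        rw [reT_apply, ← this]
        rw [← Complex.ofReal_pow, Complex.ofReal_re]
      have h2 := hT.rtr.sq_mul_le' x (f.ofPreGNS b)
      rw [reT_apply T (star x * x), hx, Complex.zero_re, mul_zero] at h2
      have h3 : ‖f.toPreGNS (x * f.ofPreGNS b)‖ ^ 2 ≤ 0 := by rw [h1]; exact h2
      nlinarith [norm_nonneg (f.toPreGNS (x * f.ofPreGNS b))]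

end Pool.Agent.Lib.EqGamma
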