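import Pool.Agent.Lib.EqGamma.GTr

/-!
The martingale built from small increments.
-/

namespace Pool.Agent.Lib.EqGamma

section recursion

variable {M : Type*} [Ring M] [Algebra ℝ M]

/-- the martingale -/
noncomputable def XX (x0 : ℝ) (D : ℕ → M) : ℕ → M
  | 0 => algebraMap ℝ M x0
  | k + 1 => XX x0 D k + (1 / 2 : ℝ) • ((1 - XX x0 D k * XX x0 D k) * D k)

theorem map_XX {N F : Type*} [Ring N] [Algebra ℝ N] [FunLike F M N] [AlgHomClass F ℝ M N] (φ : F)
    (x0 : ℝ) (D : ℕ → M) (k : ℕ) : φ (XX x0 D k) = XX x0 (fun i => φ (D i)) k := by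
  induction k with
  | zero => exact AlgHomClass.commutes φ x0
  | succ k ih => simp [XX, ih]

end recursion

/-- an increment relative to a past algebra -/
structure Incr {M : Type*} [CStarAlgebra M] (T : M →ₗ[ℝ] ℝ) (P : StarSubalgebra ℂ M) (D D' : M)
    (w d η : ℝ) : Prop where
  star_eq : star D = D
  star_eq' : star D' = D'
  norm_le : ‖D‖ ≤ 1
  norm_le' : ‖D'‖ ≤ 1
  comm : ∀ z ∈ P, Commute z D
  comm' : ∀ z ∈ P, Commute z D'
  mean : ∀ z ∈ P, |T (star z * D * z)| ≤ d * T (star z * z)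
  mean' : ∀ z ∈ P, |T (star z * D' * z)| ≤ d * T (star z * z)
  low : ∀ z ∈ P, 1 / 4 * w * T (star z * z) ≤ T (star z * (D * D) * z)
  up' : ∀ z ∈ P, T (star z * (D' * D') * z) ≤ 3 * w * T (star z * z)
  inv : ∀ z ∈ P, T (star z * ((D - D') * (D - D')) * z) ≤ η * w * T (star z * z)

theorem StarSubalgebra.real_smul_mem {M : Type*} [CStarAlgebra M] (P : StarSubalgebra ℂ M) {x : M}
    (hx : x ∈ P) (r : ℝ) : r • x ∈ P := by
  rw [← Complex.coe_smul]
  exact SMulMemClass.smul_mem _ hx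

section

variable {M : Type*} [CStarAlgebra M] [PartialOrder M] [StarOrderedRing M]
  {T : M →ₗ[ℝ] ℝ} (hT : RTr T) (h1 : T 1 = 1)

include hT h1 in
theorem T_sq_le (y : M) : T (star y * y) ≤ ‖y‖ ^ 2 := by
  have := hT.mono (CStarAlgebra.star_mul_le_algebraMap_norm_sq (a := y))
  rwa [RTr.algebraMap_apply, h1, mul_one] at this

include hT h1 in
/-- from weights to general elements of the past -/
theorem mean_general {P : StarSubalgebra ℂ M} {D : M} {d : ℝ} (hD : star D = D)
    (hc : ∀ z ∈ P, Commute z D) (hm : ∀ z ∈ P, |T (star z * D * z)| ≤ d * T (star z * z))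
    (hd : 0 ≤ d) {y : M} (hy : y ∈ P) : |T (y * D)| ≤ d / 2 * (‖y‖ ^ 2 + 1) := by
  set a : M := (1 / 2 : ℝ) • (y + star y) with ha
  have haP : a ∈ P := StarSubalgebra.real_smul_mem P (add_mem hy (star_mem hy)) _
  have hsa : star a = a := by
    rw [ha, star_smul, star_add, star_star, star_trivial, add_comm]
  have e1 : T (y * D) = T (a * D) := by
    have h2 : T (star y * D) = T (y * D) := by
      rw [← hT.map_star, star_mul, star_star, hD]
      rw [(hc y hy).eq]
    rw [ha, smul_mul_assoc, map_smul, add_mul, map_add, h2, smul_eq_mul]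
    ring
  have hna : ‖a‖ ≤ ‖y‖ := by
    rw [ha, norm_smul]
    have h3 := norm_add_le y (star y)
    rw [norm_star] at h3
    rw [Real.norm_eq_abs, abs_of_pos (by norm_num : (0 : ℝ) < 1 / 2)]
    linarith
  have e2 : T (a * D) = 1 / 4 * (T (star (a + 1) * D * (a + 1)) -
      T (star (a - 1) * D * (a - 1))) := by
    have e3 : star (a + 1) * D * (a + 1) - star (a - 1) * D * (a - 1) = (4 : ℝ) • (a * D) := by
      rw [star_add, star_sub, star_one, hsa]
      have h4 : (a + 1) * D * (a + 1) - (a - 1) * D * (a - 1) =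
          2 * (a * D) + 2 * (D * a) := by noncomm_ring
      rw [h4, ← (hc a haP).eq, ← two_mul, ← mul_assoc]
      rw [show (4 : ℝ) • (a * D) = (4 : M) * (a * D) by
        rw [Algebra.smul_def, map_ofNat]]
      norm_num
    rw [← map_sub, e3, map_smul, smul_eq_mul]
    ring
  have h5 := hm (a + 1) (add_mem haP (one_mem P))
  have h6 := hm (a - 1) (sub_mem haP (one_mem P))
  have e4 : T (star (a + 1) * (a + 1)) + T (star (a - 1) * (a - 1)) =
      2 * T (star a * a) + 2 := by
    rw [star_add, star_sub, star_one, ← map_add]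
    have : (star a + 1) * (a + 1) + (star a - 1) * (a - 1) = (2 : ℝ) • (star a * a) + (2 : ℝ) • 1 := by
      rw [two_smul, two_smul]
      noncomm_ring
    rw [this, map_add, map_smul, map_smul, h1]
    simp
  have h7 : T (star a * a) ≤ ‖y‖ ^ 2 :=
    (T_sq_le hT h1 a).trans (pow_le_pow_left₀ (norm_nonneg _) hna 2)
  rw [e1, e2, abs_mul, abs_of_pos (by norm_num : (0 : ℝ) < 1 / 4)]
  have h8 := abs_sub (T (star (a + 1) * D * (a + 1))) (T (star (a - 1) * D * (a - 1)))
  nlinarith

end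

section real

theorem decay_lemma {u : ℕ → ℝ} {N : ℕ} {ρ s ν : ℝ} (hs : 0 ≤ s) (hρ : 0 ≤ ρ) (hν : 0 < ν)
    (hu : ∀ k, k < N → u (k + 1) ≤ u k + ρ - s * u k ^ 2) (hu1 : u 0 ≤ 1)
    (h1 : 1 ≤ N * (s * ν ^ 2 - ρ)) (h2 : N * ρ ≤ ν) : u N ≤ 2 * ν := by
  by_contra hcon
  push Not at hcon
  have h3 : ∀ j, j ≤ N → u N ≤ u (N - j) + j * ρ := by
    intro j
    induction j with
    | zero => intro _; simp
    | succ j ih =>
      intro hj
      have h4 := ih (by omega)
      have h5 := hu (N - (j + 1)) (by omega)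
      have e : N - (j + 1) + 1 = N - j := by omega
      rw [e] at h5
      push_cast
      nlinarith [mul_nonneg hs (sq_nonneg (u (N - (j + 1))))]
  have h4 : ∀ k, k ≤ N → ν < u k := by
    intro k hk
    have h5 := h3 (N - k) (by omega)
    have e : N - (N - k) = k := by omega
    rw [e] at h5
    have h6 : ((N - k : ℕ) : ℝ) * ρ ≤ N * ρ := by
      apply mul_le_mul_of_nonneg_right _ hρ
      exact_mod_cast Nat.sub_le N k
    linarith
  have h5 : ∀ k, k ≤ N → u k ≤ 1 - k * (s * ν ^ 2 - ρ) := by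
    intro k
    induction k with
    | zero => intro _; simpa using hu1
    | succ k ih =>
      intro hk
      have h6 := ih (by omega)
      have h7 := hu k (by omega)
      have h8 := h4 k (by omega)
      have h9 : ν ^ 2 ≤ u k ^ 2 := pow_le_pow_left₀ hν.le h8.le 2
      have h10 : s * ν ^ 2 ≤ s * u k ^ 2 := mul_le_mul_of_nonneg_left h9 hs
      push_cast
      linarith
  have h6 := h5 N le_rfl
  linarith

theorem gronwall_lemma {v : ℕ → ℝ} {N : ℕ} {a b : ℝ} (ha : 0 ≤ a) (hb : 0 ≤ b)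
    (hv : ∀ k, k < N → v (k + 1) ≤ (1 + a) * v k + b) (hv0 : v 0 ≤ 0) :
    ∀ k, k ≤ N → v k ≤ Real.exp (a * k) * (k * b) := by
  intro k
  induction k with
  | zero => intro _; simpa using hv0
  | succ k ih =>
    intro hk
    have h1 := ih (by omega)
    have h2 := hv k (by omega)
    have h3 : 1 + a ≤ Real.exp a := by
      have := Real.add_one_le_exp a
      linarith
    have h4 : Real.exp (a * ((k + 1 : ℕ) : ℝ)) = Real.exp a * Real.exp (a * k) := by
      rw [← Real.exp_add]; congr 1; push_cast; ring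
    have h5 : 1 ≤ Real.exp a * Real.exp (a * k) := by
      rw [← Real.exp_add]
      apply Real.one_le_exp
      positivity
    rw [h4]
    push_cast
    have h6 : (1 + a) * v k ≤ Real.exp a * (Real.exp (a * k) * (k * b)) := by
      calc (1 + a) * v k ≤ (1 + a) * (Real.exp (a * k) * (k * b)) :=
            mul_le_mul_of_nonneg_left h1 (by linarith)
        _ ≤ _ := mul_le_mul_of_nonneg_right h3 (by positivity)
    nlinarith

end real

section mart

variable {M : Type*} [CStarAlgebra M] [PartialOrder M] [StarOrderedRing M]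
  {T : M →ₗ[ℝ] ℝ} (hT : RTr T) (h1 : T 1 = 1)
  {P : ℕ → StarSubalgebra ℂ M} {D D' : ℕ → M} {N : ℕ} {w d η x0 : ℝ}

theorem XX_mem (hmono : ∀ k, k < N → P k ≤ P (k + 1)) (hDP : ∀ k, k < N → D k ∈ P (k + 1)) :
    ∀ k, k ≤ N → XX x0 D k ∈ P k := by
  intro k
  induction k with
  | zero =>
    intro _
    rw [XX, Algebra.algebraMap_eq_smul_one]
    exact StarSubalgebra.real_smul_mem _ (one_mem _) _
  | succ k ih =>
    intro hk
    have h1 := hmono k (by omega) (ih (by omega))
    rw [XX]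
    exact add_mem h1 (StarSubalgebra.real_smul_mem _ (mul_mem (sub_mem (one_mem _)
      (mul_mem h1 h1)) (hDP k (by omega))) _)

theorem XX_star_comm (hmono : ∀ k, k < N → P k ≤ P (k + 1)) (hDP : ∀ k, k < N → D k ∈ P (k + 1))
    (hs : ∀ k, k < N → star (D k) = D k) (hc : ∀ k, k < N → ∀ z ∈ P k, Commute z (D k)) :
    ∀ k, k ≤ N → star (XX x0 D k) = XX x0 D k := by
  intro k
  induction k with
  | zero => intro _; rw [XX, ← algebraMap_star_comm, star_trivial]
  | succ k ih =>
    intro hk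
    have h2 := ih (by omega)
    have h3 := hc k (by omega) _ (XX_mem (x0 := x0) hmono hDP k (by omega))
    rw [XX, star_add, h2, star_smul, star_mul, star_sub, star_one, star_mul, h2, hs k (by omega),
      star_trivial]
    congr 2
    exact (((Commute.one_left _).sub_left (h3.mul_left h3)).eq).symm

theorem norm_le_one_of {x : M} (hx : star x = x) (h : ‖x‖ ≤ 1) : -1 ≤ x ∧ x ≤ 1 := by
  have hsa : IsSelfAdjoint x := hx
  have h2 := (IsSelfAdjoint.le_algebraMap_norm_self hsa).trans (algebraMap_mono M h)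
  have h3 := (neg_le_neg (algebraMap_mono M h)).trans
    (IsSelfAdjoint.neg_algebraMap_norm_le_self hsa)
  rw [map_one] at h2 h3
  exact ⟨h3, h2⟩

theorem norm_le_one_of_le {x : M} (h2 : -1 ≤ x) (h1 : x ≤ 1) : ‖x‖ ≤ 1 := by
  have hsa : IsSelfAdjoint x := by
    have h3 : 0 ≤ x + 1 := by
      have := add_le_add_left h2 1
      simpa [add_comm] using this
    have h4 : IsSelfAdjoint (x + 1) := h3.isSelfAdjoint
    have h5 : x = (x + 1) - 1 := by abel
    rw [h5]
    exact h4.sub (IsSelfAdjoint.one M)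
  have h5 : x ≤ algebraMap ℝ M 1 := by rwa [map_one]
  have h6 : algebraMap ℝ M (-1) ≤ x := by rwa [map_neg, map_one]
  have h7 := (le_algebraMap_iff_spectrum_le (R := ℝ) (a := x) (r := 1)).1 h5
  have h8 := (algebraMap_le_iff_le_spectrum (R := ℝ) (a := x) (r := -1)).1 h6
  rw [← cfc_id ℝ x hsa]
  refine norm_cfc_le zero_le_one fun y hy => ?_
  rw [id, Real.norm_eq_abs, abs_le]
  exact ⟨h8 y hy, h7 y hy⟩

theorem step_bound {X Y : M} (hX : star X = X) (hX1 : ‖X‖ ≤ 1) (hY : star Y = Y)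
    (hY1 : ‖Y‖ ≤ 1) (hc : Commute X Y) : ‖X + (1 / 2 : ℝ) • ((1 - X * X) * Y)‖ ≤ 1 := by
  obtain ⟨hX2, hX3⟩ := norm_le_one_of hX hX1
  have hp : 0 ≤ 1 + X := by
    have := add_le_add_right hX2 1
    simpa using this
  have hm : 0 ≤ 1 - X := sub_nonneg.2 hX3
  have aux : ∀ Z : M, star Z = Z → ‖Z‖ ≤ 2 → Commute Z Y →
      0 ≤ 1 + (1 / 2 : ℝ) • (Z * Y) ∧ 0 ≤ 1 - (1 / 2 : ℝ) • (Z * Y) := by
    intro Z hZ hZ2 hZY
    have h2 : star ((1 / 2 : ℝ) • (Z * Y)) = (1 / 2 : ℝ) • (Z * Y) := by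
      rw [star_smul, star_mul, hZ, hY, star_trivial, hZY.eq]
    have h3 : ‖(1 / 2 : ℝ) • (Z * Y)‖ ≤ 1 := by
      rw [norm_smul, Real.norm_eq_abs, abs_of_pos (by norm_num : (0 : ℝ) < 1 / 2)]
      have := norm_mul_le Z Y
      have h4 : ‖Z‖ * ‖Y‖ ≤ 2 * 1 := mul_le_mul hZ2 hY1 (norm_nonneg _) (by norm_num)
      linarith
    obtain ⟨h5, h6⟩ := norm_le_one_of h2 h3
    refine ⟨?_, sub_nonneg.2 h6⟩
    have := add_le_add_right h5 1
    simpa using this
  have n1 : ‖(1 : M)‖ ≤ 1 := by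
    rcases subsingleton_or_nontrivial M with h | h
    · rw [Subsingleton.elim (1 : M) 0]; simp
    · exact (norm_one (α := M)).le
  have hnp : ‖1 + X‖ ≤ 2 := by
    have := norm_add_le (1 : M) X
    linarith
  have hnm : ‖1 - X‖ ≤ 2 := by
    have := norm_sub_le (1 : M) X
    linarith
  have c1 : Commute (1 + X) Y := (Commute.one_left _).add_left hc
  have c2 : Commute (1 - X) Y := (Commute.one_left _).sub_left hc
  have h4 := (aux (1 + X) (by rw [star_add, star_one, hX]) hnp c1).2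
  have h5 := (aux (1 - X) (by rw [star_sub, star_one, hX]) hnm c2).1
  have cXX : Commute (1 - X) (1 + X) := by
    change (1 - X) * (1 + X) = (1 + X) * (1 - X)
    noncomm_ring
  apply norm_le_one_of_le
  · -- 1 + X_{k+1} = (1 + X) (1 + (1/2)(1 - X) Y)
    have h6 : 0 ≤ (1 + X) * (1 + (1 / 2 : ℝ) • ((1 - X) * Y)) := by
      apply Commute.mul_nonneg hp h5
      exact (Commute.one_right _).add_right ((cXX.symm.mul_right c1).smul_right _)
    have e : (1 + X) * (1 + (1 / 2 : ℝ) • ((1 - X) * Y)) =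
        X + (1 / 2 : ℝ) • ((1 - X * X) * Y) - (-1) := by
      rw [mul_add, mul_one, mul_smul_comm, ← mul_assoc]
      rw [show (1 + X) * (1 - X) = 1 - X * X by noncomm_ring]
      abel
    rw [e] at h6
    exact sub_nonneg.1 h6
  · have h6 : 0 ≤ (1 - X) * (1 - (1 / 2 : ℝ) • ((1 + X) * Y)) := by
      apply Commute.mul_nonneg hm h4
      exact (Commute.one_right _).sub_right ((cXX.mul_right c2).smul_right _)
    have e : (1 - X) * (1 - (1 / 2 : ℝ) • ((1 + X) * Y)) =
        1 - (X + (1 / 2 : ℝ) • ((1 - X * X) * Y)) := by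
      rw [mul_sub, mul_one, mul_smul_comm, ← mul_assoc]
      rw [show (1 - X) * (1 + X) = 1 - X * X by noncomm_ring]
      abel
    rw [e] at h6
    exact sub_nonneg.1 h6

end mart

end Pool.Agent.Lib.EqGamma
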