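import Pool.Agent.Lib.EqGamma.GMart

/-!
Estimates for the martingale.
-/

namespace Pool.Agent.Lib.EqGamma

section

variable {M : Type*} [CStarAlgebra M] [PartialOrder M] [StarOrderedRing M]

theorem norm_one_sub_sq_le {X : M} (hX : star X = X) (hX1 : ‖X‖ ≤ 1) : ‖1 - X * X‖ ≤ 1 := by
  have h0 : 0 ≤ X * X := by
    have := star_mul_self_nonneg X
    rwa [hX] at this
  have h1 : X * X ≤ 1 := by
    have h2 := CStarAlgebra.star_mul_le_algebraMap_norm_sq (a := X)
    rw [hX] at h2
    refine h2.trans ?_
    rw [← map_one (algebraMap ℝ M)]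
    apply algebraMap_mono
    nlinarith [norm_nonneg X]
  apply norm_le_one_of_le
  · exact le_trans (by simp) (sub_nonneg.2 h1)
  · exact sub_le_self _ h0

end

section mart

variable {M : Type*} [CStarAlgebra M] [PartialOrder M] [StarOrderedRing M]
  {T : M →ₗ[ℝ] ℝ} (hT : RTr T) (h1 : T 1 = 1)
  {P : ℕ → StarSubalgebra ℂ M} {D D' : ℕ → M} {N : ℕ} {w d η x0 : ℝ}

theorem XX_norm (hmono : ∀ k, k < N → P k ≤ P (k + 1)) (hDP : ∀ k, k < N → D k ∈ P (k + 1))
    (hs : ∀ k, k < N → star (D k) = D k) (hc : ∀ k, k < N → ∀ z ∈ P k, Commute z (D k))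
    (hn : ∀ k, k < N → ‖D k‖ ≤ 1) (hx : |x0| ≤ 1) :
    ∀ k, k ≤ N → ‖XX x0 D k‖ ≤ 1 := by
  intro k
  induction k with
  | zero =>
    intro _
    rw [XX]
    rw [Algebra.algebraMap_eq_smul_one, norm_smul, Real.norm_eq_abs]
    have n1 : ‖(1 : M)‖ ≤ 1 := by
      rcases subsingleton_or_nontrivial M with h | h
      · rw [Subsingleton.elim (1 : M) 0]; simp
      · exact (norm_one (α := M)).le
    calc |x0| * ‖(1 : M)‖ ≤ 1 * 1 := mul_le_mul hx n1 (norm_nonneg _) zero_le_one
      _ = 1 := one_mul 1
  | succ k ih =>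
    intro hk
    rw [XX]
    exact step_bound (XX_star_comm hmono hDP hs hc k (by omega)) (ih (by omega))
      (hs k (by omega)) (hn k (by omega))
      (hc k (by omega) _ (XX_mem hmono hDP k (by omega)))

include hT h1 in
/-- decay of `T (1 - X²)` -/
theorem XX_decay (hd : 0 ≤ d) (hw : 0 ≤ w) (hmono : ∀ k, k < N → P k ≤ P (k + 1))
    (hDP : ∀ k, k < N → D k ∈ P (k + 1)) (hI : ∀ k, k < N → Incr T (P k) (D k) (D' k) w d η)
    (hx : |x0| ≤ 1) {ν : ℝ} (hν : 0 < ν) (hN1 : 1 ≤ N * (w / 16 * ν ^ 2 - d))
    (hN2 : N * d ≤ ν) : T (1 - XX x0 D N * XX x0 D N) ≤ 2 * ν := by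
  refine decay_lemma (u := fun k => T (1 - XX x0 D k * XX x0 D k)) (s := w / 16) (by positivity)
    hd hν ?_ ?_ hN1 hN2
  · intro k hk

    set X := XX x0 D k with hX
    have hXP : X ∈ P k := XX_mem hmono hDP k hk.le
    have hXs : star X = X := XX_star_comm hmono hDP (fun k hk => (hI k hk).star_eq)
      (fun k hk => (hI k hk).comm) k hk.le
    have hX1 : ‖X‖ ≤ 1 := XX_norm hmono hDP (fun k hk => (hI k hk).star_eq)
      (fun k hk => (hI k hk).comm) (fun k hk => (hI k hk).norm_le) hx k hk.le
    have hI' := hI k hk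
    have hXD : Commute X (D k) := hI'.comm X hXP
    set u : M := 1 - X * X with hu
    have huP : u ∈ P k := sub_mem (one_mem _) (mul_mem hXP hXP)
    have hus : star u = u := by rw [hu, star_sub, star_one, star_mul, hXs]
    have hun : ‖u‖ ≤ 1 := norm_one_sub_sq_le hXs hX1
    have huD : Commute u (D k) := hI'.comm u huP
    have hXu : Commute X u := by
      change X * u = u * X
      rw [hu]; noncomm_ring
    have e1 : 1 - XX x0 D (k + 1) * XX x0 D (k + 1) =
        u - (X * u) * D k - (1 / 4 : ℝ) • (u * (D k * D k) * u) := by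
      rw [XX, ← hX, ← hu]
      have h2 : (X + (1 / 2 : ℝ) • (u * D k)) * (X + (1 / 2 : ℝ) • (u * D k)) =
          X * X + (1 / 2 : ℝ) • (X * (u * D k) + u * D k * X) +
            (1 / 4 : ℝ) • (u * D k * (u * D k)) := by
        simp only [add_mul, mul_add, smul_mul_assoc, mul_smul_comm, smul_smul, smul_add]
        norm_num
        abel
      have h3 : u * D k * X = X * u * D k := by
        rw [mul_assoc, ← hXD.eq, ← mul_assoc, ← hXu.eq]
      have h4 : u * D k * (u * D k) = u * (D k * D k) * u := by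
        calc u * D k * (u * D k) = u * D k * (D k * u) := by rw [huD.eq]
          _ = _ := by noncomm_ring
      rw [h2, h3, h4, ← mul_assoc, ← two_smul ℝ (X * u * D k), smul_smul]
      rw [show (1 / 2 : ℝ) * 2 = 1 by norm_num, one_smul, hu]
      abel
    have hXun : ‖X * u‖ ≤ 1 := by
      refine (norm_mul_le _ _).trans ?_
      calc ‖X‖ * ‖u‖ ≤ 1 * 1 := mul_le_mul hX1 hun (norm_nonneg _) zero_le_one
        _ = 1 := one_mul 1
    have h5 : |T (X * u * D k)| ≤ d := by
      refine (mean_general hT h1 hI'.star_eq hI'.comm hI'.mean hd (mul_mem hXP huP)).trans ?_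
      have : ‖X * u‖ ^ 2 ≤ 1 := by nlinarith [norm_nonneg (X * u)]
      nlinarith
    have h6 := hI'.low u huP
    rw [hus] at h6
    have h7 : T u ^ 2 ≤ T (u * u) := by
      have := hT.cs 1 u
      rw [star_one, one_mul, one_mul, h1, one_mul, hus] at this
      exact this
    rw [e1, map_sub, map_sub, map_smul, smul_eq_mul]
    have h8 := (abs_le.1 h5).1
    nlinarith
  · skip
    have hXs : star (XX x0 D 0) = XX x0 D 0 := XX_star_comm (P := P) (N := N) hmono hDP
      (fun k hk => (hI k hk).star_eq) (fun k hk => (hI k hk).comm) 0 (Nat.zero_le _)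
    have h2 := hT.nonneg' (XX x0 D 0)
    rw [hXs] at h2
    rw [map_sub, h1]
    linarith

include hT h1 in
/-- the mean of the martingale is constant up to small errors -/
theorem XX_mean (hd : 0 ≤ d) (hmono : ∀ k, k < N → P k ≤ P (k + 1))
    (hDP : ∀ k, k < N → D k ∈ P (k + 1)) (hI : ∀ k, k < N → Incr T (P k) (D k) (D' k) w d η)
    (hx : |x0| ≤ 1) {y : M} (hy : y ∈ P 0) :
    |T (y * XX x0 D N) - x0 * T y| ≤ N * (d / 4 * (‖y‖ ^ 2 + 1)) := by
  have key : ∀ k, k ≤ N → |T (y * XX x0 D k) - x0 * T y| ≤ k * (d / 4 * (‖y‖ ^ 2 + 1)) := by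
    intro k
    induction k with
    | zero =>
      intro _
      rw [XX, Algebra.algebraMap_eq_smul_one, mul_smul_comm, mul_one, map_smul, smul_eq_mul]
      simp
    | succ k ih =>
      intro hk
      have h2 := ih (by omega)
      set X := XX x0 D k with hX
      have hk' : k < N := by omega
      have hXP : X ∈ P k := XX_mem hmono hDP k hk'.le
      have hXs : star X = X := XX_star_comm hmono hDP (fun k hk => (hI k hk).star_eq)
        (fun k hk => (hI k hk).comm) k hk'.le
      have hX1 : ‖X‖ ≤ 1 := XX_norm hmono hDP (fun k hk => (hI k hk).star_eq)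
        (fun k hk => (hI k hk).comm) (fun k hk => (hI k hk).norm_le) hx k hk'.le
      have hI' := hI k hk'
      have hun : ‖1 - X * X‖ ≤ 1 := norm_one_sub_sq_le hXs hX1
      have hyP : y ∈ P k := by
        have : ∀ j, j ≤ N → P 0 ≤ P j := by
          intro j
          induction j with
          | zero => intro _; exact le_rfl
          | succ j ih2 => intro hj; exact (ih2 (by omega)).trans (hmono j (by omega))
        exact this k hk'.le hy
      have h3 := mean_general hT h1 hI'.star_eq hI'.comm hI'.mean hd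
        (mul_mem hyP (sub_mem (one_mem _) (mul_mem hXP hXP) : 1 - X * X ∈ P k))
      have h4 : ‖y * (1 - X * X)‖ ^ 2 ≤ ‖y‖ ^ 2 := by
        apply pow_le_pow_left₀ (norm_nonneg _)
        refine (norm_mul_le _ _).trans ?_
        calc ‖y‖ * ‖1 - X * X‖ ≤ ‖y‖ * 1 := mul_le_mul_of_nonneg_left hun (norm_nonneg _)
          _ = ‖y‖ := mul_one _
      have e : T (y * XX x0 D (k + 1)) - x0 * T y =
          (T (y * X) - x0 * T y) + 1 / 2 * T (y * (1 - X * X) * D k) := by
        rw [XX, ← hX, mul_add, map_add, mul_smul_comm, map_smul, smul_eq_mul, ← mul_assoc]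
        ring
      rw [e]
      refine (abs_add_le _ _).trans ?_
      rw [abs_mul, abs_of_pos (by norm_num : (0 : ℝ) < 1 / 2)]
      push_cast
      have h5 : d / 2 * (‖y * (1 - X * X)‖ ^ 2 + 1) ≤ d / 2 * (‖y‖ ^ 2 + 1) :=
        mul_le_mul_of_nonneg_left (by linarith) (by positivity)
      linarith
  exact key N le_rfl

include hT h1 in
/-- almost invariance -/
theorem XX_inv (hd : 0 ≤ d) (hw : 0 ≤ w) (hη : 0 ≤ η) (hmono : ∀ k, k < N → P k ≤ P (k + 1))
    (hDP : ∀ k, k < N → D k ∈ P (k + 1)) (hDP' : ∀ k, k < N → D' k ∈ P (k + 1))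
    (hI : ∀ k, k < N → Incr T (P k) (D k) (D' k) w d η) (hx : |x0| ≤ 1) :
    T ((XX x0 D N - XX x0 D' N) * (XX x0 D N - XX x0 D' N)) ≤
      Real.exp (6 * w * N) * (N * (5 * d + η * w / 2)) := by
  refine gronwall_lemma (v := fun k => T ((XX x0 D k - XX x0 D' k) * (XX x0 D k - XX x0 D' k)))
    (N := N) (by positivity) (by positivity) ?_ ?_ N le_rfl
  · intro k hk

    set X := XX x0 D k with hX
    set X' := XX x0 D' k with hX'
    have hI' := hI k hk
    have hXP : X ∈ P k := XX_mem hmono hDP k hk.le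
    have hXs : star X = X := XX_star_comm hmono hDP (fun k hk => (hI k hk).star_eq)
      (fun k hk => (hI k hk).comm) k hk.le
    have hX1 : ‖X‖ ≤ 1 := XX_norm hmono hDP (fun k hk => (hI k hk).star_eq)
      (fun k hk => (hI k hk).comm) (fun k hk => (hI k hk).norm_le) hx k hk.le
    have hXP' : X' ∈ P k := XX_mem hmono hDP' k hk.le
    have hXs' : star X' = X' := XX_star_comm hmono hDP' (fun k hk => (hI k hk).star_eq')
      (fun k hk => (hI k hk).comm') k hk.le
    have hX1' : ‖X'‖ ≤ 1 := XX_norm hmono hDP' (fun k hk => (hI k hk).star_eq')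
      (fun k hk => (hI k hk).comm') (fun k hk => (hI k hk).norm_le') hx k hk.le
    set u : M := 1 - X * X with hu
    set u' : M := 1 - X' * X' with hu'
    have huP : u ∈ P k := sub_mem (one_mem _) (mul_mem hXP hXP)
    have huP' : u' ∈ P k := sub_mem (one_mem _) (mul_mem hXP' hXP')
    have hus : star u = u := by rw [hu, star_sub, star_one, star_mul, hXs]
    have hus' : star u' = u' := by rw [hu', star_sub, star_one, star_mul, hXs']
    have hun : ‖u‖ ≤ 1 := norm_one_sub_sq_le hXs hX1
    have hun' : ‖u'‖ ≤ 1 := norm_one_sub_sq_le hXs' hX1'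
    set E := X - X' with hE
    have hEs : star E = E := by rw [hE, star_sub, hXs, hXs']
    have hEP : E ∈ P k := sub_mem hXP hXP'
    have hEn : ‖E‖ ≤ 2 := by
      have := norm_sub_le X X'
      linarith
    set Z := u * D k - u' * D' k with hZ
    have huD : Commute u (D k) := hI'.comm u huP
    have huD' : Commute u' (D' k) := hI'.comm' u' huP'
    have hZs : star Z = Z := by
      rw [hZ, star_sub, star_mul, star_mul, hus, hus', hI'.star_eq, hI'.star_eq', huD.eq,
        huD'.eq]
    have e1 : XX x0 D (k + 1) - XX x0 D' (k + 1) = E + (1 / 2 : ℝ) • Z := by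
      rw [XX, XX, ← hX, ← hX', hE, hZ, smul_sub]
      abel
    have e2 : T ((E + (1 / 2 : ℝ) • Z) * (E + (1 / 2 : ℝ) • Z)) =
        T (E * E) + T (E * Z) + 1 / 4 * T (Z * Z) := by
      simp only [add_mul, mul_add, smul_mul_assoc, mul_smul_comm, map_add, map_smul, smul_eq_mul]
      rw [hT.tracial Z E]
      ring
    have h2 : T (E * Z) ≤ 5 * d := by
      have e3 : T (E * Z) = T (E * u * D k) - T (E * u' * D' k) := by
        rw [hZ, mul_sub, map_sub, mul_assoc, mul_assoc]
      have nE : ∀ v : M, ‖v‖ ≤ 1 → ‖E * v‖ ^ 2 ≤ 4 := by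
        intro v hv
        have h3 : ‖E * v‖ ≤ 2 := by
          refine (norm_mul_le _ _).trans ?_
          calc ‖E‖ * ‖v‖ ≤ 2 * 1 := mul_le_mul hEn hv (norm_nonneg _) (by norm_num)
            _ = 2 := mul_one 2
        nlinarith [norm_nonneg (E * v)]
      have h4 := mean_general hT h1 hI'.star_eq hI'.comm hI'.mean hd (mul_mem hEP huP)
      have h5 := mean_general hT h1 hI'.star_eq' hI'.comm' hI'.mean' hd (mul_mem hEP huP')
      have h6 := nE u hun
      have h7 := nE u' hun'
      have h8 : d / 2 * (‖E * u‖ ^ 2 + 1) ≤ d / 2 * 5 :=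
        mul_le_mul_of_nonneg_left (by linarith) (by positivity)
      have h9 : d / 2 * (‖E * u'‖ ^ 2 + 1) ≤ d / 2 * 5 :=
        mul_le_mul_of_nonneg_left (by linarith) (by positivity)
      rw [e3]
      have h10 := (abs_le.1 (h4.trans h8)).2
      have h11 := (abs_le.1 (h5.trans h9)).1
      linarith
    have h3 : T (Z * Z) ≤ 2 * (η * w) + 24 * w * T (E * E) := by
      set Y1 := u * (D k - D' k) with hY1
      set U := X' * X' - X * X with hU
      have hUP : U ∈ P k := sub_mem (mul_mem hXP' hXP') (mul_mem hXP hXP)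
      have hUs : star U = U := by rw [hU, star_sub, star_mul, star_mul, hXs, hXs']
      set Y2 := U * D' k with hY2
      have eZ : Z = Y1 + Y2 := by
        rw [hZ, hY1, hY2, hU, hu, hu']
        noncomm_ring
      have h4 := hT.sq_add_le Y1 Y2
      rw [← eZ, hZs] at h4
      have h5 : T (star Y1 * Y1) ≤ η * w := by
        have e5 : T (star Y1 * Y1) = T (star u * ((D k - D' k) * (D k - D' k)) * u) := by
          have hcu : Commute u (D k - D' k) := huD.sub_right (hI'.comm' u huP)
          rw [hY1, star_mul, hus, star_sub, hI'.star_eq, hI'.star_eq']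
          congr 1
          calc (D k - D' k) * u * (u * (D k - D' k))
              = (u * (D k - D' k)) * ((D k - D' k) * u) := by rw [hcu.eq]
            _ = _ := by noncomm_ring
        rw [e5]
        refine (hI'.inv u huP).trans ?_
        have h6 : T (star u * u) ≤ 1 := by
          refine (T_sq_le hT h1 u).trans ?_
          nlinarith [norm_nonneg u]
        have : 0 ≤ η * w := by positivity
        nlinarith
      have h6 : T (star Y2 * Y2) ≤ 12 * w * T (E * E) := by
        have e6 : T (star Y2 * Y2) = T (star U * (D' k * D' k) * U) := by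
          have hcU : Commute U (D' k) := hI'.comm' U hUP
          rw [hY2, star_mul, hUs, hI'.star_eq']
          congr 1
          calc D' k * U * (U * D' k) = (U * D' k) * (D' k * U) := by rw [hcU.eq]
            _ = _ := by noncomm_ring
        rw [e6]
        refine (hI'.up' U hUP).trans ?_
        have h7 : T (star U * U) ≤ 4 * T (E * E) := by
          have eU : U = -(X * E) - E * X' := by
            rw [hU, hE]; noncomm_ring
          have h8 := hT.sq_sub_le (-(X * E)) (E * X')
          rw [← eU, star_neg, neg_mul_neg] at h8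
          have h9 := hT.sq_mul_le X E
          have h10 := hT.sq_mul_le' E X'
          rw [hEs] at h9 h10
          have h11 : 0 ≤ T (E * E) := by
            have := hT.nonneg' E
            rwa [hEs] at this
          have h12 : ‖X‖ ^ 2 ≤ 1 := by nlinarith [norm_nonneg X]
          have h13 : ‖X'‖ ^ 2 ≤ 1 := by nlinarith [norm_nonneg X']
          nlinarith
        nlinarith
      nlinarith
    rw [e1, e2]
    nlinarith
  · skip
    rw [XX, XX]
    simp

end mart

end Pool.Agent.Lib.EqGamma
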