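import Pool.Agent.Lib.EqGamma.GBuild
import Pool.Agent.Lib.EqGamma.GGood

/-!
Stage one: almost invariant, asymptotically central, approximate symmetries with prescribed mean.
-/

open scoped ComplexOrder BoundedContinuousFunction
open Filter Topology

namespace Pool.Agent.Lib.EqGamma

universe u v

section

variable {A B : Type*} [CStarAlgebra A] [CStarAlgebra B]

/-- selfadjoint part -/
noncomputable def rp (x : A) : A := (1 / 2 : ℝ) • (x + star x)

theorem rp_isSelfAdjoint (x : A) : IsSelfAdjoint (rp x) := by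
  unfold rp
  rw [isSelfAdjoint_iff, star_smul, star_add, star_star, star_trivial, add_comm]

theorem rp_of_star_eq {x : A} (h : star x = x) : rp x = x := by
  unfold rp
  rw [h, ← two_smul ℝ x, smul_smul]
  norm_num

theorem map_real_smul (φ : A →⋆ₐ[ℂ] B) (r : ℝ) (x : A) : φ (r • x) = r • φ x := by
  rw [← Complex.coe_smul, map_smul, Complex.coe_smul]

theorem map_rp (φ : A →⋆ₐ[ℂ] B) (x : A) : φ (rp x) = rp (φ x) := by
  unfold rp
  rw [map_real_smul, map_add, map_star]

/-- truncation -/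
noncomputable def trunc (s : ℝ) : ℝ := max (-1) (min 1 s)

theorem continuous_trunc : Continuous trunc := by
  unfold trunc
  fun_prop

/-- the truncated selfadjoint part -/
noncomputable def tr (x : A) : A := cfc trunc (rp x)

theorem tr_isSelfAdjoint (x : A) : IsSelfAdjoint (tr x) := cfc_predicate _ _

theorem norm_tr_le (x : A) : ‖tr x‖ ≤ 1 := by
  unfold tr
  refine norm_cfc_le zero_le_one fun s _ => ?_
  unfold trunc
  rw [Real.norm_eq_abs, abs_le]
  exact ⟨le_max_left _ _, max_le (by norm_num) (min_le_left _ _)⟩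

theorem map_tr (φ : A →⋆ₐ[ℂ] B) (x : A) : φ (tr x) = tr (φ x) := by
  unfold tr
  rw [← map_rp φ x]
  have hφ : Continuous φ :=
    AddMonoidHomClass.continuous_of_bound φ 1 (fun a => by
      rw [one_mul]; exact NonUnitalStarAlgHom.norm_apply_le φ a)
  exact StarAlgHomClass.map_cfc φ trunc (rp x) continuous_trunc.continuousOn hφ
    (rp_isSelfAdjoint x) (by rw [map_rp]; exact rp_isSelfAdjoint _)

theorem tr_of_star_eq {x : A} (h : star x = x) (h1 : ‖x‖ ≤ 1) : tr x = x := by
  unfold tr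
  rw [rp_of_star_eq h]
  have hsa : IsSelfAdjoint x := h
  conv_rhs => rw [← cfc_id ℝ x hsa]
  apply cfc_congr
  intro s hs
  have h2 : |s| ≤ 1 := by
    rcases subsingleton_or_nontrivial A with hA | hA
    · rw [spectrum.of_subsingleton] at hs
      exact absurd hs (Set.notMem_empty s)
    · have := spectrum.norm_le_norm_of_mem hs
      rw [Real.norm_eq_abs] at this
      exact this.trans h1
  rw [abs_le] at h2
  unfold trunc
  rw [min_eq_right h2.2, max_eq_right h2.1, id]

end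

namespace BF

variable {J A : Type*} [CStarAlgebra A]

/-- pointwise application of an automorphism -/
noncomputable def app (φ : A →⋆ₐ[ℂ] A) : BF J A →⋆ₐ[ℂ] BF J A where
  toFun x := mk (fun j => φ (ev j x)) ‖x‖ (fun j =>
    (NonUnitalStarAlgHom.norm_apply_le φ _).trans (norm_ev_le x j))
  map_one' := ext fun j => by simp
  map_mul' x y := ext fun j => by simp
  map_zero' := ext fun j => by simp
  map_add' x y := ext fun j => by simp
  commutes' r := ext fun j => by
    rw [ev_mk, AlgHomClass.commutes (ev j), AlgHomClass.commutes φ]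
  map_star' x := ext fun j => by
    rw [ev_mk, map_star (ev j), map_star φ, map_star (ev j)]
    rfl

theorem ev_app (φ : A →⋆ₐ[ℂ] A) (x : BF J A) (j : J) : ev j (app φ x) = φ (ev j x) := rfl

end BF

/-- the weak form of uniform property Gamma: approximately central approximate projections of
trace `1 / m` -/
def WeakGamma (A : Type*) [CStarAlgebra A] : Prop :=
  ∀ m : ℕ, 0 < m → ∀ (F : Finset A) (ε : ℝ), 0 < ε → ∃ e : A, star e = e ∧ ‖e‖ ≤ 1 ∧
    ∀ τ : A →ₗ[ℂ] ℂ, TracialState τ →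
      reT τ (star (e * e - e) * (e * e - e)) ≤ ε ∧
      ∀ a ∈ F, reT τ (star (a * e - e * a) * (a * e - e * a)) ≤ ε ∧
        ‖τ (a * e) - ((1 / m : ℝ) : ℂ) * τ a‖ ≤ ε

section stage

variable {A : Type v} [CStarAlgebra A] {G : Type*} [Group G]

/-- an automorphism as a star algebra hom -/
noncomputable def au (φ : A ≃⋆ₐ[ℂ] A) : A →⋆ₐ[ℂ] A := (φ : A →⋆ₐ[ℂ] A)

theorem au_apply (φ : A ≃⋆ₐ[ℂ] A) (x : A) : au φ x = φ x := rfl

/-- composition of a tracial state with an automorphism -/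
noncomputable def pull (τ : A →ₗ[ℂ] ℂ) (φ : A ≃⋆ₐ[ℂ] A) : A →ₗ[ℂ] ℂ :=
  τ ∘ₗ (au φ).toAlgHom.toLinearMap

theorem pull_apply (τ : A →ₗ[ℂ] ℂ) (φ : A ≃⋆ₐ[ℂ] A) (x : A) : pull τ φ x = τ (au φ x) := rfl

theorem TracialState.pull {τ : A →ₗ[ℂ] ℂ} (h : TracialState τ) (φ : A ≃⋆ₐ[ℂ] A) :
    TracialState (pull τ φ) where
  map_one := by rw [pull_apply, _root_.map_one (au φ), h.map_one]
  nonneg x := by
    rw [pull_apply, map_mul (au φ), StarHomClass.map_star (au φ)]
    exact h.nonneg _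
  tracial x y := by
    rw [pull_apply, pull_apply, map_mul (au φ), map_mul (au φ), h.tracial]

/-- the almost invariant central sequence of approximate symmetries with mean `x0` -/
def EqSym (α : G →* (A ≃⋆ₐ[ℂ] A)) (x0 : ℝ) : Prop :=
  ∀ (H : Finset G) (F : Finset A) (δ : ℝ), 0 < δ → ∃ x : A, star x = x ∧ ‖x‖ ≤ 1 ∧
    ∀ τ : A →ₗ[ℂ] ℂ, TracialState τ →
      reT τ (1 - x * x) ≤ δ ∧
      (∀ h ∈ H, reT τ (star (α h x - x) * (α h x - x)) ≤ δ) ∧
      ∀ a ∈ F, reT τ (star (a * x - x * a) * (a * x - x * a)) ≤ δ ∧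
        ‖τ (a * x) - (x0 : ℂ) * τ a‖ ≤ δ

/-- the translated family is a central family -/
theorem fam_of_weakGamma (hA : WeakGamma A) (α : G →* (A ≃⋆ₐ[ℂ] A)) {m : ℕ} (hm : 0 < m) :
    ∃ (I : Type v) (U : Ultrafilter I) (e : I → A),
      Fam U (fun (_ : ℕ) (g : G) i => α g (e i)) (fun _ => (1 / m : ℝ)) := by
  classical
  choose e he1 he2 he3 using fun (i : Finset A × ℕ) => hA m hm i.1 (1 / ((i.2 : ℝ) + 1))
    (by positivity)
  let U : Ultrafilter (Finset A × ℕ) := Ultrafilter.of atTop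
  have hU : (U : Filter (Finset A × ℕ)) ≤ atTop := Ultrafilter.of_le _
  -- eventually `a ∈ i.1` and `1 / (i.2 + 1) ≤ ε`
  have hev : ∀ (a : A) (ε : ℝ), 0 < ε → ∀ᶠ i in (U : Filter (Finset A × ℕ)),
      a ∈ i.1 ∧ 1 / ((i.2 : ℝ) + 1) ≤ ε := by
    intro a ε hε
    apply hU
    obtain ⟨n, hn⟩ := exists_nat_gt (1 / ε)
    rw [mem_atTop_sets]
    refine ⟨({a}, n), fun i hi => ?_⟩
    refine ⟨hi.1 (Finset.mem_singleton_self a), ?_⟩
    have h1 : (n : ℝ) ≤ i.2 := by exact_mod_cast hi.2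
    rw [div_le_iff₀ (by positivity)]
    rw [div_lt_iff₀ hε] at hn
    nlinarith
  have hα : ∀ (g : G) (x : A), au (α g) ((α g)⁻¹ x) = x := by
    intro g x
    rw [au_apply, ← StarAlgEquiv.mul_apply, mul_inv_cancel, StarAlgEquiv.one_apply]
  refine ⟨Finset A × ℕ, U, e, ⟨?_, ?_, ?_, ?_, ?_⟩⟩
  · intro l g i
    rw [← au_apply]
    exact (NonUnitalStarAlgHom.norm_apply_le (au (α g)) _).trans (he2 i)
  · intro l g i
    rw [← au_apply, ← map_star (au (α g)), he1]
  · intro l g ε hε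
    filter_upwards [hev 0 ε hε] with i hi τ hτ
    have h1 := (he3 i _ (hτ.pull (α g))).1
    refine le_trans (le_of_eq ?_) (h1.trans hi.2)
    rw [reT_apply, reT_apply, pull_apply, map_mul (au (α g)), map_star (au (α g)),
      map_sub (au (α g)), map_mul (au (α g))]
    rfl
  · intro l g a ε hε
    filter_upwards [hev ((α g)⁻¹ a) ε hε] with i hi τ hτ
    have h1 := ((he3 i _ (hτ.pull (α g))).2 _ hi.1).1
    refine le_trans (le_of_eq ?_) (h1.trans hi.2)
    rw [reT_apply, reT_apply, pull_apply, map_mul (au (α g)), map_star (au (α g)),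
      map_sub (au (α g)), map_mul (au (α g)), map_mul (au (α g)), hα]
    rfl
  · intro l g a ε hε
    filter_upwards [hev ((α g)⁻¹ a) ε hε] with i hi τ hτ
    have h1 := ((he3 i _ (hτ.pull (α g))).2 _ hi.1).2
    refine le_trans (le_of_eq ?_) (h1.trans hi.2)
    rw [pull_apply, pull_apply, map_mul (au (α g)), hα]
    rfl

/-- real restriction of a star algebra hom -/
noncomputable def rh {B C : Type*} [CStarAlgebra B] [CStarAlgebra C] (φ : B →⋆ₐ[ℂ] C) :
    B →ₐ[ℝ] C := φ.toAlgHom.restrictScalars ℝ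

theorem rh_apply {B C : Type*} [CStarAlgebra B] [CStarAlgebra C] (φ : B →⋆ₐ[ℂ] C) (x : B) :
    rh φ x = φ x := rfl

theorem eqSym_of_weakGamma (hG : FolnerCond G) (hA : WeakGamma A)
    (α : G →* (A ≃⋆ₐ[ℂ] A)) {x0 : ℝ} (hx0 : |x0| ≤ 1) : EqSym α x0 := by
  intro H F δ hδ
  classical
  by_contra hcon
  push Not at hcon
  -- constants
  set Cn : ℝ := ∑ a ∈ F, (‖a‖ ^ 2 + 1) with hCn
  have hCn0 : 0 ≤ Cn := Finset.sum_nonneg fun a _ => by positivity
  have hCna : ∀ a ∈ F, ‖a‖ ^ 2 + 1 ≤ Cn := fun a ha =>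
    Finset.single_le_sum (f := fun a => ‖a‖ ^ 2 + 1) (fun a _ => by positivity) ha
  set δ' : ℝ := min (δ / 2) (δ / (4 * (Cn + 1))) with hδ'
  have hδ'0 : 0 < δ' := lt_min (by positivity) (by positivity)
  obtain ⟨t0, ht0, hgood⟩ := exists_good.{v} hG H hδ'0
  obtain ⟨m, hm⟩ := exists_nat_gt (1 / t0)
  have hm0 : 0 < m := by
    have : (0 : ℝ) < m := lt_trans (by positivity) hm
    exact_mod_cast this
  have hm' : (0 : ℝ) < m := by exact_mod_cast hm0
  have htm : (1 / m : ℝ) ≤ t0 := by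
    rw [div_le_iff₀ hm']
    rw [div_lt_iff₀ ht0] at hm
    linarith
  obtain ⟨K, f, n, N, hmain⟩ := hgood (1 / m) (by positivity) htm
  obtain ⟨I, U, e, hF⟩ := fam_of_weakGamma hA α hm0
  -- the candidate
  set R := N * n with hR
  set E : ℕ → G → BF (Fin R → I) A := hat R _ hF.bdd with hE
  set xs : BF (Fin R → I) A := XF E K f (1 / m) n N x0 with hxs
  have hx1 : ∀ ν, star (BF.ev ν (tr xs)) = BF.ev ν (tr xs) := by
    intro ν
    rw [← map_star, (tr_isSelfAdjoint xs).star_eq]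
  have hx2 : ∀ ν, ‖BF.ev ν (tr xs)‖ ≤ 1 := fun ν => (BF.norm_ev_le _ ν).trans (norm_tr_le xs)
  choose τ hτ hbad using fun ν => hcon (BF.ev ν (tr xs)) (hx1 ν) (hx2 ν)
  obtain ⟨M, inst, π, T, hT, hT1, hTπ, hFr⟩ := exists_fresh hF R τ hτ
  obtain ⟨g1, g2, g3, g4, g5, g6⟩ := hmain M T hT hT1 _ _ hFr x0 hx0
  set X : M := XF (fun l g => π (E l g)) K f (1 / m) n N x0 with hX
  have hπx : π xs = X := by
    rw [← rh_apply, hxs, map_XF]
    rfl
  have hπt : π (tr xs) = X := by
    rw [map_tr, hπx]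
    exact tr_of_star_eq g1 g2
  -- each condition holds eventually
  have hlim : ∀ z : BF (Fin R → I) A, ∀ c : ℝ, T (π z) < c →
      ∀ᶠ ν in (UP U R : Filter (Fin R → I)), reT (τ ν) (BF.ev ν z) < c := by
    intro z c hz
    have h1 := (Complex.continuous_re.tendsto _).comp (tendsto_Tlim (UP U R) τ hτ z)
    rw [hTπ] at hz
    exact h1.eventually (gt_mem_nhds hz)
  have c1 : ∀ᶠ ν in (UP U R : Filter (Fin R → I)),
      reT (τ ν) (1 - BF.ev ν (tr xs) * BF.ev ν (tr xs)) ≤ δ := by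
    have h1 : T (π (1 - tr xs * tr xs)) < δ := by
      rw [map_sub, map_mul, map_one, hπt]
      refine g3.trans_lt ?_
      have := min_le_left (δ / 2) (δ / (4 * (Cn + 1)))
      linarith
    filter_upwards [hlim _ _ h1] with ν hν
    rw [map_sub, map_mul, map_one] at hν
    exact hν.le
  have c2 : ∀ h ∈ H, ∀ᶠ ν in (UP U R : Filter (Fin R → I)),
      reT (τ ν) (star (α h (BF.ev ν (tr xs)) - BF.ev ν (tr xs)) *
        (α h (BF.ev ν (tr xs)) - BF.ev ν (tr xs))) ≤ δ := by
    intro h hh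
    obtain ⟨s1, s2, s3⟩ := g6 h hh
    set X' : M := XF (fun l g => π (E l (h * g))) K f (1 / m) n N x0 with hX'
    have e1 : BF.app (au (α h)) xs = XF (fun l g => E l (h * g)) K f (1 / m) n N x0 := by
      rw [← rh_apply, hxs, map_XF]
      congr 1
      funext l g
      rw [rh_apply]
      apply BF.ext
      intro ν
      rw [BF.ev_app]
      by_cases hl : l < R
      · rw [hE, ev_hat hF.bdd hl, ev_hat hF.bdd hl, au_apply, ← StarAlgEquiv.mul_apply, ← map_mul]
      · rw [hE, hat_of_ge hF.bdd hl, hat_of_ge hF.bdd hl, map_zero, map_zero]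
    have e2 : π (BF.app (au (α h)) (tr xs)) = X' := by
      rw [map_tr, map_tr, e1, ← rh_apply, map_XF]
      exact tr_of_star_eq s1 s2
    have h1 : T (π (star (BF.app (au (α h)) (tr xs) - tr xs) *
        (BF.app (au (α h)) (tr xs) - tr xs))) < δ := by
      rw [map_mul, map_star, map_sub, e2, hπt, star_sub, s1, g1]
      have e3 : (X' - X) * (X' - X) = (X - X') * (X - X') := by noncomm_ring
      rw [e3]
      refine s3.trans_lt ?_
      have := min_le_left (δ / 2) (δ / (4 * (Cn + 1)))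
      linarith
    filter_upwards [hlim _ _ h1] with ν hν
    rw [map_mul, map_star, map_sub, BF.ev_app] at hν
    exact hν.le
  have c3 : ∀ a ∈ F, ∀ᶠ ν in (UP U R : Filter (Fin R → I)),
      reT (τ ν) (star (a * BF.ev ν (tr xs) - BF.ev ν (tr xs) * a) *
        (a * BF.ev ν (tr xs) - BF.ev ν (tr xs) * a)) ≤ δ := by
    intro a _
    have h1 : T (π (star (BF.cst a * tr xs - tr xs * BF.cst a) *
        (BF.cst a * tr xs - tr xs * BF.cst a))) < δ := by
      have h2 : Commute (π (BF.cst a)) X := g5 _ ⟨a, rfl⟩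
      rw [map_mul π, map_sub π, map_mul π, map_mul π, hπt, h2.eq, sub_self, mul_zero, map_zero]
      exact hδ
    filter_upwards [hlim _ _ h1] with ν hν
    rw [map_mul (BF.ev ν), map_star (BF.ev ν), map_sub (BF.ev ν), map_mul (BF.ev ν),
      map_mul (BF.ev ν), BF.ev_cst] at hν
    exact hν.le
  have c4 : ∀ a ∈ F, ∀ᶠ ν in (UP U R : Filter (Fin R → I)),
      ‖(τ ν) (a * BF.ev ν (tr xs)) - (x0 : ℂ) * (τ ν) a‖ ≤ δ := by
    intro a ha
    set z : BF (Fin R → I) A := BF.cst a * tr xs - (x0 : ℂ) • BF.cst a with hz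
    have hre : ∀ b : A, T (π (BF.cst b * tr xs - (x0 : ℂ) • BF.cst b)) =
        T (π (BF.cst b) * X) - x0 * T (π (BF.cst b)) := by
      intro b
      rw [map_sub, map_sub, map_mul, hπt, map_smul, Complex.coe_smul, map_smul, smul_eq_mul]
    have hbd : ∀ b : A, |T (π (BF.cst b * tr xs - (x0 : ℂ) • BF.cst b))| ≤
        δ' * (‖b‖ ^ 2 + 1) := by
      intro b
      rw [hre b]
      refine (g4 _ ⟨b, rfl⟩).trans ?_
      apply mul_le_mul_of_nonneg_left _ hδ'0.le
      have h3 : ‖π (BF.cst b)‖ ≤ ‖b‖ := by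
        refine (NonUnitalStarAlgHom.norm_apply_le π _).trans ?_
        exact (BoundedContinuousFunction.norm_le (norm_nonneg b)).2 fun ν => le_rfl
      have h4 : ‖π (BF.cst b)‖ ^ 2 ≤ ‖b‖ ^ 2 := pow_le_pow_left₀ (norm_nonneg _) h3 2
      change ‖π (BF.cst b)‖ ^ 2 + 1 ≤ _
      linarith
    have h5 : ‖Tlim (UP U R) τ hτ z‖ < δ := by
      have h6 := hbd a
      rw [hTπ] at h6
      have h7 := hbd (-Complex.I • a)
      have e7 : BF.cst (-Complex.I • a) * tr xs - (x0 : ℂ) • BF.cst (-Complex.I • a) =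
          -Complex.I • z := by
        rw [BF.cst_smul, hz, smul_mul_assoc, smul_sub, smul_comm]
      rw [e7, hTπ, map_smul, smul_eq_mul] at h7
      have e8 : (-Complex.I * Tlim (UP U R) τ hτ z).re = (Tlim (UP U R) τ hτ z).im := by
        simp
      rw [e8] at h7
      have e9 : ‖-Complex.I • a‖ = ‖a‖ := by
        rw [norm_smul, norm_neg, Complex.norm_I, one_mul]
      rw [e9] at h7
      have h8 := Complex.norm_le_abs_re_add_abs_im (Tlim (UP U R) τ hτ z)
      have h9 : δ' * (‖a‖ ^ 2 + 1) ≤ δ / 4 := by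
        have h10 : δ' ≤ δ / (4 * (Cn + 1)) := min_le_right _ _
        calc δ' * (‖a‖ ^ 2 + 1) ≤ δ / (4 * (Cn + 1)) * (Cn + 1) := by
              apply mul_le_mul h10 _ (by positivity) (by positivity)
              have := hCna a ha
              linarith
          _ = δ / 4 := by field_simp
      linarith
    have h10 := (tendsto_Tlim (UP U R) τ hτ z).norm.eventually (gt_mem_nhds h5)
    filter_upwards [h10] with ν hν
    rw [hz, map_sub, map_mul, BF.ev_cst, map_smul, BF.ev_cst, map_sub, map_smul,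
      smul_eq_mul] at hν
    exact hν.le
  have hall : ∀ᶠ ν in (UP U R : Filter (Fin R → I)), False := by
    filter_upwards [c1, (Finset.eventually_all H).2 c2, (Finset.eventually_all F).2 c3,
      (Finset.eventually_all F).2 c4] with ν k1 k2 k3 k4
    obtain ⟨a, ha, k5⟩ := hbad ν k1 k2
    exact absurd (k4 a ha) (not_le.2 (k5 (k3 a ha)))
  obtain ⟨ν, hν⟩ := hall.exists
  exact hν

end stage

end Pool.Agent.Lib.EqGamma
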