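import Mathlib

/-!
Polynomials approximating the square root, applied to positive contractions.
-/

open Polynomial

namespace Pool.Agent.Lib.EqGamma

/-- the classical iteration for the square root -/
noncomputable def sqp : ℕ → Polynomial ℝ
  | 0 => 0
  | m + 1 => sqp m + C (1 / 2) * (X - sqp m ^ 2)

theorem sqp_coeff_zero (m : ℕ) : (sqp m).coeff 0 = 0 := by
  rw [coeff_zero_eq_eval_zero]
  induction m with
  | zero => simp [sqp]
  | succ m ih => simp [sqp, ih]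

theorem sqp_bounds (m : ℕ) {s : ℝ} (h0 : 0 ≤ s) (h1 : s ≤ 1) :
    0 ≤ (sqp m).eval (s ^ 2) ∧ (sqp m).eval (s ^ 2) ≤ s ∧
      (1 + m * s / 2) * (s - (sqp m).eval (s ^ 2)) ≤ s := by
  induction m with
  | zero => simp [sqp, h0]
  | succ m ih =>
    obtain ⟨h2, h3, h4⟩ := ih
    set f := (sqp m).eval (s ^ 2) with hf
    have e : (sqp (m + 1)).eval (s ^ 2) = f + 1 / 2 * (s ^ 2 - f ^ 2) := by
      simp [sqp, hf]
    have hd : s - (sqp (m + 1)).eval (s ^ 2) = (s - f) * (1 - (s + f) / 2) := by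
      rw [e]; ring
    have h5 : 0 ≤ s - f := by linarith
    have h6 : 0 ≤ 1 - (s + f) / 2 := by linarith
    refine ⟨?_, ?_, ?_⟩
    · rw [e]
      nlinarith
    · have := mul_nonneg h5 h6
      linarith
    · rw [hd]
      push_cast
      have h7 : (1 + (m + 1) * s / 2) * (1 - (s + f) / 2) ≤ 1 + m * s / 2 := by
        have h8 : (1 + (m + 1) * s / 2) * (1 - (s + f) / 2) ≤
            (1 + (m + 1) * s / 2) * (1 - s / 2) := by
          apply mul_le_mul_of_nonneg_left (by linarith)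
          positivity
        have h9 : 0 ≤ ((m : ℝ) + 1) * s ^ 2 := by positivity
        nlinarith
      calc (1 + (m + 1) * s / 2) * ((s - f) * (1 - (s + f) / 2))
          = (1 + (m + 1) * s / 2) * (1 - (s + f) / 2) * (s - f) := by ring
        _ ≤ (1 + m * s / 2) * (s - f) := mul_le_mul_of_nonneg_right h7 h5
        _ ≤ s := h4

/-- a polynomial is a good approximation of the square root with error `κ` -/
structure GoodPoly (f : Polynomial ℝ) (κ : ℝ) : Prop where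
  coeff_zero : f.coeff 0 = 0
  nonneg : ∀ x, 0 ≤ x → x ≤ 1 → 0 ≤ f.eval x
  sq_le : ∀ x, 0 ≤ x → x ≤ 1 → f.eval x ^ 2 ≤ x
  approx : ∀ x, 0 ≤ x → x ≤ 1 → x - f.eval x ^ 2 ≤ κ

theorem exists_goodPoly {κ : ℝ} (hκ : 0 < κ) : ∃ f, GoodPoly f κ := by
  obtain ⟨m, hm⟩ := exists_nat_gt (4 / κ)
  have hm0 : (0 : ℝ) < m := lt_trans (by positivity) hm
  have key : ∀ x : ℝ, 0 ≤ x → x ≤ 1 → ∃ s : ℝ, 0 ≤ s ∧ s ≤ 1 ∧ x = s ^ 2 := fun x h0 h1 =>
    ⟨√x, Real.sqrt_nonneg x, Real.sqrt_le_one.2 h1, (Real.sq_sqrt h0).symm⟩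
  refine ⟨sqp m, sqp_coeff_zero m, ?_, ?_, ?_⟩
  · intro x h0 h1
    obtain ⟨s, hs0, hs1, rfl⟩ := key x h0 h1
    exact (sqp_bounds m hs0 hs1).1
  · intro x h0 h1
    obtain ⟨s, hs0, hs1, rfl⟩ := key x h0 h1
    obtain ⟨h2, h3, h4⟩ := sqp_bounds m hs0 hs1
    exact pow_le_pow_left₀ h2 h3 2
  · intro x h0 h1
    obtain ⟨s, hs0, hs1, rfl⟩ := key x h0 h1
    obtain ⟨h2, h3, h4⟩ := sqp_bounds m hs0 hs1
    set f := (sqp m).eval (s ^ 2) with hf
    have h5 : m * (s * (s - f)) ≤ 2 := by nlinarith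
    have h6 : s ^ 2 - f ^ 2 ≤ 2 * (s * (s - f)) := by nlinarith
    have h7 : 4 < κ * m := by
      rw [div_lt_iff₀ hκ] at hm
      linarith
    have h8 : s * (s - f) ≤ κ / 2 := by
      by_contra hcon
      push Not at hcon
      nlinarith
    linarith

namespace GoodPoly

variable {f : Polynomial ℝ} {κ : ℝ} (h : GoodPoly f κ)

include h in
theorem kappa_nonneg : 0 ≤ κ := by
  have h1 := h.approx 0 le_rfl zero_le_one
  have h2 := h.sq_le 0 le_rfl zero_le_one
  linarith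

include h in
theorem le_sqrt {x : ℝ} (h0 : 0 ≤ x) (h1 : x ≤ 1) : f.eval x ≤ √x := by
  apply Real.le_sqrt_of_sq_le
  exact h.sq_le x h0 h1

include h in
/-- the remainder `x - f(x)^2 = x r(x)` with `r ≥ 0` on the unit interval -/
theorem exists_rem : ∃ r : Polynomial ℝ, X * r = X - f ^ 2 ∧
    ∀ x, 0 ≤ x → x ≤ 1 → 0 ≤ r.eval x := by
  obtain ⟨g, hg⟩ : X ∣ f := X_dvd_iff.2 h.coeff_zero
  refine ⟨1 - X * g ^ 2, by rw [hg]; ring, ?_⟩
  intro x h0 h1
  rcases h0.eq_or_lt with rfl | h0'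
  · simp
  · have h2 := h.sq_le x h0 h1
    have h3 : x * (1 - X * g ^ 2 : Polynomial ℝ).eval x = x - f.eval x ^ 2 := by
      rw [hg]
      simp
      ring
    have h4 : 0 ≤ x * (1 - X * g ^ 2 : Polynomial ℝ).eval x := by
      rw [h3]; linarith
    exact nonneg_of_mul_nonneg_right h4 h0'

section cstar

variable {M : Type*} [CStarAlgebra M] [PartialOrder M] [StarOrderedRing M] {b : M}

theorem spec_mem (h0 : 0 ≤ b) (h1 : b ≤ 1) {x : ℝ} (hx : x ∈ spectrum ℝ b) : 0 ≤ x ∧ x ≤ 1 :=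
  ⟨spectrum_nonneg_of_nonneg h0 hx, (CFC.le_one_iff (R := ℝ) b h0.isSelfAdjoint).1 h1 x hx⟩

theorem aeval_eq (q : Polynomial ℝ) (h0 : 0 ≤ b) : aeval b q = cfc q.eval b :=
  (cfc_polynomial q b h0.isSelfAdjoint).symm

include h in
theorem aeval_nonneg (h0 : 0 ≤ b) (h1 : b ≤ 1) : 0 ≤ aeval b f := by
  rw [aeval_eq f h0]
  apply cfc_nonneg
  intro x hx
  have := spec_mem h0 h1 hx
  exact h.nonneg x this.1 this.2

include h in
theorem aeval_le_one (h0 : 0 ≤ b) (h1 : b ≤ 1) : aeval b f ≤ 1 := by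
  rw [aeval_eq f h0]
  apply cfc_le_one
  intro x hx
  have h2 := spec_mem h0 h1 hx
  have h3 := h.sq_le x h2.1 h2.2
  nlinarith

include h in
theorem aeval_sq_le (h0 : 0 ≤ b) (h1 : b ≤ 1) : aeval b f * aeval b f ≤ b := by
  rw [← map_mul, aeval_eq _ h0]
  conv_rhs => rw [← cfc_id ℝ b h0.isSelfAdjoint]
  refine cfc_mono ?_ (f * f).continuous.continuousOn continuousOn_id
  intro x hx
  have h2 := spec_mem h0 h1 hx
  have h3 := h.sq_le x h2.1 h2.2
  simp only [eval_mul, id]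
  nlinarith

/-- the square root of `b` -/
noncomputable def rt (b : M) : M := cfc Real.sqrt b

theorem rt_nonneg (b : M) : 0 ≤ rt b := cfc_nonneg (fun x _ => Real.sqrt_nonneg x)

theorem rt_mul_self (h0 : 0 ≤ b) : rt b * rt b = b := by
  unfold rt
  rw [← cfc_mul (fun x => √x) (fun x => √x) b]
  conv_rhs => rw [← cfc_id ℝ b h0.isSelfAdjoint]
  apply cfc_congr
  intro x hx
  exact Real.mul_self_sqrt (spectrum_nonneg_of_nonneg h0 hx)

theorem rt_eq_sqrt (h0 : 0 ≤ b) : rt b = CFC.sqrt b :=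
  (CFC.sqrt_unique (rt_mul_self h0) (rt_nonneg b)).symm

theorem rt_mono {c : M} (h0 : 0 ≤ b) (h1 : b ≤ c) : rt b ≤ rt c := by
  rw [rt_eq_sqrt h0, rt_eq_sqrt (h0.trans h1)]
  exact CFC.monotone_sqrt h1

include h in
theorem rt_sub_sq_le (h0 : 0 ≤ b) (h1 : b ≤ 1) :
    (rt b - aeval b f) * (rt b - aeval b f) ≤ b - aeval b f * aeval b f := by
  have e1 : (rt b - aeval b f) * (rt b - aeval b f) =
      cfc (fun x => (√x - f.eval x) * (√x - f.eval x)) b := by
    rw [cfc_mul (fun x => √x - f.eval x) (fun x => √x - f.eval x) b,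
      cfc_sub (fun x => √x) (fun x => f.eval x) b]
    rw [aeval_eq f h0]
    rfl
  have e2 : b - aeval b f * aeval b f = cfc (fun x => x - f.eval x * f.eval x) b := by
    rw [cfc_sub (fun x => x) (fun x => f.eval x * f.eval x) b, cfc_id' ℝ b h0.isSelfAdjoint,
      cfc_mul (fun x => f.eval x) (fun x => f.eval x) b, aeval_eq f h0]
  rw [e1, e2]
  have c1 : Continuous fun x : ℝ => f.eval x := f.continuous
  refine cfc_mono ?_ (by fun_prop) (by fun_prop)
  intro x hx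
  obtain ⟨h2, h3⟩ := spec_mem h0 h1 hx
  have h4 := h.le_sqrt h2 h3
  have h5 := h.nonneg x h2 h3
  have h6 := Real.mul_self_sqrt h2
  have h7 : 0 ≤ (√x - f.eval x) * (2 * f.eval x) := mul_nonneg (by linarith) (by linarith)
  nlinarith

end cstar

end GoodPoly

end Pool.Agent.Lib.EqGamma
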