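import Mathlib

/-!
Products of commuting projections indexed by finite subsets of `Fin n`.
-/

namespace Pool.Agent.Lib.EqGamma

section alg

variable {M : Type*} [Monoid M]

/-- the ordered product of the `e l`, `l ∈ s` -/
def pp {n : ℕ} (e : Fin n → M) (s : Finset (Fin n)) : M :=
  ((List.finRange n).map fun l => if l ∈ s then e l else 1).prod

theorem map_pp {N F : Type*} [Monoid N] [FunLike F M N] [MonoidHomClass F M N] (f : F) {n : ℕ}
    (e : Fin n → M) (s : Finset (Fin n)) : f (pp e s) = pp (fun l => f (e l)) s := by
  unfold pp
  rw [map_list_prod, List.map_map]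
  congr 1
  apply List.map_congr_left
  intro l _
  by_cases h : l ∈ s <;> simp [h]

theorem pp_empty {n : ℕ} (e : Fin n → M) : pp e ∅ = 1 := by
  unfold pp
  simp

end alg

section comm

variable {M : Type*} [Monoid M]

theorem list_prod_commute {ι : Type*} (L : List ι) (a : ι → M) (x : M)
    (h : ∀ l ∈ L, Commute x (a l)) : Commute x (L.map a).prod := by
  apply Commute.list_prod_right
  intro y hy
  obtain ⟨l, hl, rfl⟩ := List.mem_map.1 hy
  exact h l hl

theorem list_prod_mul {ι : Type*} (L : List ι) (a b : ι → M)
    (h : ∀ l m, Commute (a l) (b m)) :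
    (L.map a).prod * (L.map b).prod = (L.map fun l => a l * b l).prod := by
  induction L with
  | nil => simp
  | cons l L ih =>
    simp only [List.map_cons, List.prod_cons]
    rw [← ih]
    have h1 : Commute (L.map a).prod (b l) :=
      (list_prod_commute L a (b l) (fun m _ => (h m l).symm)).symm
    calc a l * (L.map a).prod * (b l * (L.map b).prod)
        = a l * ((L.map a).prod * b l) * (L.map b).prod := by simp only [mul_assoc]
      _ = a l * (b l * (L.map a).prod) * (L.map b).prod := by rw [h1.eq]
      _ = _ := by simp only [mul_assoc]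

variable {n : ℕ} {e : Fin n → M}

theorem commute_pp {x : M} (s : Finset (Fin n)) (h : ∀ l ∈ s, Commute x (e l)) :
    Commute x (pp e s) := by
  apply list_prod_commute
  intro l _
  by_cases hl : l ∈ s
  · simp [hl, h l hl]
  · simp [hl]

variable (hc : ∀ l m, l ≠ m → Commute (e l) (e m)) (hi : ∀ l, e l * e l = e l)

include hc hi in
theorem pp_mul (s t : Finset (Fin n)) : pp e s * pp e t = pp e (s ∪ t) := by
  unfold pp
  rw [list_prod_mul]
  · congr 1
    apply List.map_congr_left
    intro l _
    by_cases h1 : l ∈ s <;> by_cases h2 : l ∈ t <;> simp [h1, h2, hi]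
  · intro l m
    by_cases h1 : l ∈ s <;> by_cases h2 : m ∈ t <;> simp only [h1, h2, if_true, if_false]
    · by_cases hlm : l = m
      · subst hlm
        exact Commute.refl _
      · exact hc l m hlm
    · exact Commute.one_right _
    · exact Commute.one_left _
    · exact Commute.one_right _

theorem pp_singleton (j : Fin n) : pp e {j} = e j := by
  unfold pp
  have : ∀ L : List (Fin n), L.Nodup → (L.map fun l => if l ∈ ({j} : Finset (Fin n)) then e l
      else 1).prod = if j ∈ L then e j else 1 := by
    intro L
    induction L with
    | nil => simp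
    | cons l L ih =>
      intro hL
      rw [List.nodup_cons] at hL
      simp only [List.map_cons, List.prod_cons, List.mem_cons]
      rw [ih hL.2]
      by_cases h : l = j
      · subst h
        simp [hL.1]
      · have : j ≠ l := fun h' => h h'.symm
        simp [h, this]
  rw [this _ (List.nodup_finRange n)]
  simp

include hc hi in
theorem pp_insert {j : Fin n} {s : Finset (Fin n)} : pp e (insert j s) = e j * pp e s := by
  rw [Finset.insert_eq, ← pp_mul hc hi, pp_singleton]

include hc hi in
theorem pp_idem (s : Finset (Fin n)) : pp e s * pp e s = pp e s := by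
  rw [pp_mul hc hi, Finset.union_self]

include hc in
theorem pp_star [StarMul M] (hs : ∀ l, star (e l) = e l) (hi : ∀ l, e l * e l = e l)
    (s : Finset (Fin n)) : star (pp e s) = pp e s := by
  classical
  induction s using Finset.induction_on with
  | empty => rw [pp_empty, star_one]
  | insert a s ha ih =>
    rw [pp_insert hc hi, star_mul, ih, hs]
    refine ((commute_pp s ?_).eq).symm
    intro l hl
    exact hc a l (fun h => ha (h ▸ hl))

end comm

section mem

theorem pp_mem {M S : Type*} [Monoid M] [SetLike S M] [SubmonoidClass S M] (A : S) {n : ℕ}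
    {e : Fin n → M} {s : Finset (Fin n)} (h : ∀ l ∈ s, e l ∈ A) : pp e s ∈ A := by
  unfold pp
  apply list_prod_mem
  intro x hx
  obtain ⟨l, -, rfl⟩ := List.mem_map.1 hx
  by_cases hl : l ∈ s
  · simp [hl, h l hl]
  · simp [hl, one_mem]

end mem

end Pool.Agent.Lib.EqGamma
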